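import Pool.Agent.T6.H55.ST.Stm

set_option autoImplicit false

open scoped Manifold ContDiff Topology
open MeasureTheory Set Filter

namespace Pool.Agent.T6.H55.ST

namespace ModADC

lemma one_param_exp {A : Type} [NormedRing A] [NormedAlgebra ℝ A] [CompleteSpace A] (a : ℝ → A)
    (x : A) (h0 : a 0 = 1) (hadd : ∀ s t, a (s + t) = a s * a t) (hd : HasDerivAt a x 0) (t : ℝ) :
    a t = NormedSpace.exp (t • x) := by
  have hda : ∀ t, HasDerivAt a (a t * x) t := by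
    intro t
    have h1 : HasDerivAt a x (t - t) := by rwa [sub_self]
    have h2 : HasDerivAt (fun s => a t * a (s - t)) (a t * x) t :=
      (h1.comp_sub_const t t).const_mul (a t)
    have h3 : (fun s => a t * a (s - t)) = a := by
      funext s
      rw [← hadd, add_sub_cancel]
    rwa [h3] at h2
  have hdn : ∀ t, HasDerivAt (fun s => a (-s)) (-(a (-t) * x)) t := by
    intro t
    have := (hda (-t)).scomp t (hasDerivAt_neg t)
    simpa [Function.comp_def] using this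
  have hc : ∀ t, HasDerivAt (fun s => a (-s) * NormedSpace.exp (s • x)) 0 t := by
    intro t
    have h1 : HasDerivAt (fun s => a (-s) * NormedSpace.exp (s • x))
        (-(a (-t) * x) * NormedSpace.exp (t • x) + a (-t) * (x * NormedSpace.exp (t • x))) t :=
      (hdn t).mul (hasDerivAt_exp_smul_const' (𝕂 := ℝ) x t)
    have e : -(a (-t) * x) * NormedSpace.exp (t • x) + a (-t) * (x * NormedSpace.exp (t • x)) = 0 := by
      rw [neg_mul, mul_assoc, neg_add_cancel]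
    rwa [e] at h1
  have hconst : ∀ t, a (-t) * NormedSpace.exp (t • x) = 1 := by
    intro t
    have h1 := is_const_of_deriv_eq_zero (fun s => (hc s).differentiableAt)
      (fun s => (hc s).deriv) t 0
    rw [h1, neg_zero, h0, zero_smul, NormedSpace.exp_zero, one_mul]
  have h1 : a t * a (-t) = 1 := by
    rw [← hadd, add_neg_cancel, h0]
  calc a t = a t * (a (-t) * NormedSpace.exp (t • x)) := by rw [hconst, mul_one]
    _ = NormedSpace.exp (t • x) := by rw [← mul_assoc, h1, one_mul]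

variable {E : Type} [NormedAddCommGroup E] [NormedSpace ℝ E]
  {G : Type} [TopologicalSpace G] [ChartedSpace E G] [Group G] [LieGroup 𝓘(ℝ, E) ∞ G]

lemma conj_smooth (g : G) : ContMDiff 𝓘(ℝ, E) 𝓘(ℝ, E) ∞ (fun x : G => g * x * g⁻¹) :=
  (contMDiff_mul_right (I := 𝓘(ℝ, E)) (n := ∞) (a := g⁻¹)).comp
    (contMDiff_mul_left (I := 𝓘(ℝ, E)) (n := ∞) (a := g))

lemma Ad_hasMFDerivAt (g : G) :
    HasMFDerivAt 𝓘(ℝ, E) 𝓘(ℝ, E) (fun x : G => g * x * g⁻¹) 1 (Ad E g : E →L[ℝ] E) :=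
  ((conj_smooth g).mdifferentiableAt (by simp)).hasMFDerivAt

lemma hasMF {X : E} {γ : ℝ → G} (h : OnePar E G X γ) :
    ∃ L : ℝ →L[ℝ] E, L 1 = X ∧ HasMFDerivAt 𝓘(ℝ, ℝ) 𝓘(ℝ, E) γ 0 L :=
  ⟨(mfderiv 𝓘(ℝ, ℝ) 𝓘(ℝ, E) γ 0 : ℝ →L[ℝ] E), h.2.2.2,
    (h.1.mdifferentiableAt (by simp)).hasMFDerivAt⟩

lemma part1 {X : E} {γ : ℝ → G} (h : OnePar E G X γ) (g : G) :
    OnePar E G (Ad E g X) (fun t => g * γ t * g⁻¹) := by
  refine ⟨(conj_smooth g).comp h.1, by simp [h.2.1], ?_, ?_⟩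
  · intro s t
    simp [h.2.2.1, mul_assoc]
  · have h1 : HasMFDerivAt 𝓘(ℝ, E) 𝓘(ℝ, E) (fun x : G => g * x * g⁻¹) (γ 0)
        (Ad E g : E →L[ℝ] E) := by
      rw [h.2.1]
      exact Ad_hasMFDerivAt g
    obtain ⟨L, hL, hL'⟩ := hasMF h
    have h2 := HasMFDerivAt.comp (0 : ℝ) h1 hL'
    have h3 : mfderiv 𝓘(ℝ, ℝ) 𝓘(ℝ, E) (fun t => g * γ t * g⁻¹) 0 = _ := h2.mfderiv
    rw [h3]
    show (Ad E g : E →L[ℝ] E) (L 1) = Ad E g X
    rw [hL]

lemma part2 {X : E} {γ : ℝ → G} (h : OnePar E G X γ) (r : ℝ) :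
    OnePar E G (r • X) (fun t => γ (r * t)) := by
  have hs : ContMDiff 𝓘(ℝ, ℝ) 𝓘(ℝ, ℝ) ∞ (fun t : ℝ => r * t) :=
    (contDiff_const.mul contDiff_id).contMDiff
  refine ⟨h.1.comp hs, by simp [h.2.1], ?_, ?_⟩
  · intro s t
    simp [mul_add, h.2.2.1]
  · have h1 : HasMFDerivAt 𝓘(ℝ, ℝ) 𝓘(ℝ, ℝ) (fun t : ℝ => r * t) 0
        (r • ContinuousLinearMap.id ℝ ℝ) := by
      apply HasFDerivAt.hasMFDerivAt
      exact (hasFDerivAt_id (0 : ℝ)).const_mul r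
    obtain ⟨L, hL, hL'⟩ := hasMF h
    have h0 : HasMFDerivAt 𝓘(ℝ, ℝ) 𝓘(ℝ, E) γ (r * 0) L := by
      rw [mul_zero]
      exact hL'
    have h2 := HasMFDerivAt.comp (0 : ℝ) h0 h1
    have h3 : mfderiv 𝓘(ℝ, ℝ) 𝓘(ℝ, E) (fun t => γ (r * t)) 0 = _ := h2.mfderiv
    rw [h3]
    show L (r • (1 : ℝ)) = r • X
    rw [map_smul, hL]

lemma part3_deriv (hA : ContMDiff 𝓘(ℝ, E) 𝓘(ℝ, E →L[ℝ] E) ∞ (fun g : G => Ad E g))
    {X : E} {γ : ℝ → G} (h : OnePar E G X γ) :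
    HasDerivAt (fun t : ℝ => (Ad E (γ t) : E →L[ℝ] E)) (ad E G X) 0 := by
  have h1 : HasMFDerivAt 𝓘(ℝ, E) 𝓘(ℝ, E →L[ℝ] E) (fun g : G => Ad E g) (γ 0)
      (ad E G : E →L[ℝ] (E →L[ℝ] E)) := by
    rw [h.2.1]
    exact (hA.mdifferentiableAt (by simp)).hasMFDerivAt
  obtain ⟨L, hL, hL'⟩ := hasMF h
  have h2 := HasMFDerivAt.comp (0 : ℝ) h1 hL'
  have h3 : HasFDerivAt (fun t : ℝ => (Ad E (γ t) : E →L[ℝ] E))
      ((ad E G : E →L[ℝ] (E →L[ℝ] E)).comp L) 0 := h2.hasFDerivAt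
  have h4 : HasDerivAt (fun t : ℝ => (Ad E (γ t) : E →L[ℝ] E)) (ad E G (L 1)) 0 :=
    h3.hasDerivAt
  rwa [hL] at h4

end ModADC

open ModADC in
theorem adc (E : Type) [NormedAddCommGroup E] [NormedSpace ℝ E] [FiniteDimensional ℝ E]
    (G : Type) [TopologicalSpace G] [ChartedSpace E G] [Group G] [LieGroup 𝓘(ℝ, E) ∞ G]
    [T2Space G] (hA : StmADS E G) (_hU : StmUNI E G) : StmADC E G := by
  have hE : CompleteSpace E := FiniteDimensional.complete ℝ E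
  refine ⟨fun X γ h g => part1 h g, fun X γ h r => part2 h r, fun X γ h t => ?_⟩
  refine one_param_exp (fun t : ℝ => (Ad E (γ t) : E →L[ℝ] E)) (ad E G X) ?_ ?_
    (part3_deriv hA.1 h) t
  · show Ad E (γ 0) = 1
    rw [h.2.1, hA.2.1]
    rfl
  · intro s t
    show Ad E (γ (s + t)) = Ad E (γ s) * Ad E (γ t)
    rw [h.2.2.1, hA.2.2]
    rfl

end Pool.Agent.T6.H55.ST
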