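import Pool.Agent.T6.H55.ST.Stm

set_option autoImplicit false

open scoped Manifold ContDiff Topology
open MeasureTheory Set Filter

namespace Pool.Agent.T6.H55.ST

namespace ModADS

variable {E : Type} [NormedAddCommGroup E] [NormedSpace ℝ E]
  {G : Type} [TopologicalSpace G] [ChartedSpace E G] [Group G] [LieGroup 𝓘(ℝ, E) ∞ G]

lemma conj_smooth (g : G) : ContMDiff 𝓘(ℝ, E) 𝓘(ℝ, E) ∞ (fun x : G => g * x * g⁻¹) :=
  (contMDiff_mul_right (I := 𝓘(ℝ, E)) (n := ∞) (a := g⁻¹)).comp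
    (contMDiff_mul_left (I := 𝓘(ℝ, E)) (n := ∞) (a := g))

lemma conj_smooth2 : ContMDiff (𝓘(ℝ, E).prod 𝓘(ℝ, E)) 𝓘(ℝ, E) ∞
    (Function.uncurry fun g x : G => g * x * g⁻¹) :=
  (contMDiff_fst.mul contMDiff_snd).mul contMDiff_fst.inv

lemma Ad_one : Ad E (1 : G) = ContinuousLinearMap.id ℝ E := by
  unfold Ad
  have : (fun x : G => 1 * x * 1⁻¹) = id := by funext x; simp
  rw [this]
  exact mfderiv_id

lemma Ad_hasMFDerivAt (g : G) :
    HasMFDerivAt 𝓘(ℝ, E) 𝓘(ℝ, E) (fun x : G => g * x * g⁻¹) 1 (Ad E g : E →L[ℝ] E) :=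
  ((conj_smooth g).mdifferentiableAt (by simp)).hasMFDerivAt

lemma Ad_mul (g h : G) : Ad E (g * h) = (Ad E g).comp (Ad E h) := by
  have h1 := Ad_hasMFDerivAt (E := E) (g * h)
  have h2 : HasMFDerivAt 𝓘(ℝ, E) 𝓘(ℝ, E) (fun x : G => g * x * g⁻¹) (h * 1 * h⁻¹)
      (Ad E g : E →L[ℝ] E) := by
    have : h * 1 * h⁻¹ = 1 := by simp
    rw [this]
    exact Ad_hasMFDerivAt g
  have h3 := HasMFDerivAt.comp (1 : G) h2 (Ad_hasMFDerivAt (E := E) h)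
  have h4 : (fun x : G => g * x * g⁻¹) ∘ (fun x : G => h * x * h⁻¹) =
      fun x : G => g * h * x * (g * h)⁻¹ := by
    funext x
    simp [mul_assoc]
  rw [h4] at h3
  exact hasMFDerivAt_unique h1 h3

lemma coord_const [IsManifold 𝓘(ℝ, E) 1 G] (φ : G → E →L[ℝ] E) (x₀ x : G) :
    inTangentCoordinates 𝓘(ℝ, E) 𝓘(ℝ, E) (fun _ : G => (1 : G)) (fun _ : G => (1 : G)) φ x₀ x =
      φ x := by
  rw [inTangentCoordinates_eq (fun _ : G => (1 : G)) (fun _ : G => (1 : G)) φ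
    (mem_chart_source E (1 : G)) (mem_chart_source E (1 : G))]
  ext v
  simp only [ContinuousLinearMap.comp_apply]
  rw [(tangentBundleCore 𝓘(ℝ, E) G).coordChange_self _ _ (mem_achart_source E (1 : G)),
    (tangentBundleCore 𝓘(ℝ, E) G).coordChange_self _ _ (mem_achart_source E (1 : G))]

lemma Ad_smooth : ContMDiff 𝓘(ℝ, E) 𝓘(ℝ, E →L[ℝ] E) ∞ (fun g : G => Ad E g) := by
  have hM : IsManifold 𝓘(ℝ, E) 1 G := IsManifold.of_le (n := ∞) (by simp)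
  intro g₀
  have key : ContMDiffAt 𝓘(ℝ, E) 𝓘(ℝ, E →L[ℝ] E) ∞
      (inTangentCoordinates 𝓘(ℝ, E) 𝓘(ℝ, E) (fun _ : G => (1 : G)) (fun x : G => x * 1 * x⁻¹)
        (fun g : G => Ad E g) g₀) g₀ :=
    ContMDiffAt.mfderiv (I := 𝓘(ℝ, E)) (I' := 𝓘(ℝ, E)) (J := 𝓘(ℝ, E)) (m := ∞) (n := ∞)
      (x₀ := g₀) (fun g x : G => g * x * g⁻¹) (fun _ => (1 : G)) conj_smooth2.contMDiffAt
      contMDiffAt_const (by simp)
  have hg : (fun x : G => x * 1 * x⁻¹) = fun _ => 1 := by funext x; simp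
  rw [hg] at key
  have e : inTangentCoordinates 𝓘(ℝ, E) 𝓘(ℝ, E) (fun _ : G => (1 : G)) (fun _ : G => (1 : G))
      (fun g : G => Ad E g) g₀ = fun g : G => Ad E g := by
    funext g
    exact coord_const _ _ _
  rw [e] at key
  exact key

end ModADS

open ModADS in
theorem ads (E : Type) [NormedAddCommGroup E] [NormedSpace ℝ E] [FiniteDimensional ℝ E]
    (G : Type) [TopologicalSpace G] [ChartedSpace E G] [Group G] [LieGroup 𝓘(ℝ, E) ∞ G]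
    [T2Space G] : StmADS E G :=
  ⟨Ad_smooth, Ad_one, Ad_mul⟩

end Pool.Agent.T6.H55.ST
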