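import Pool.Agent.T6.H55.ST.Stm

/-!
Project ST, module AID: subspaces stable under `ad` are stable under `Ad`.
-/

set_option autoImplicit false

open scoped Topology
open Set Filter

namespace Pool.Agent.T6.H55.ST

namespace ModAID

variable {E : Type} [NormedAddCommGroup E] [NormedSpace ℝ E] [FiniteDimensional ℝ E]

theorem exp_mem (A : E →L[ℝ] E) (J : Submodule ℝ E) (hA : ∀ Y ∈ J, A Y ∈ J) :
    ∀ Y ∈ J, (NormedSpace.exp A : E →L[ℝ] E) Y ∈ J := by
  have hpow : ∀ (n : ℕ) (Y : E), Y ∈ J → (A ^ n) Y ∈ J := by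
    intro n
    induction n with
    | zero => intro Y hY; simpa using hY
    | succ n ih =>
      intro Y hY
      rw [pow_succ, ContinuousLinearMap.mul_apply]
      exact ih _ (hA _ hY)
  intro Y hY
  have h1 := NormedSpace.exp_series_hasSum_exp' (𝕂 := ℝ) A
  have h2 := h1.mapL (ContinuousLinearMap.apply ℝ E Y)
  have hcl : IsClosed (J : Set E) := Submodule.closed_of_finiteDimensional J
  refine hcl.mem_of_tendsto h2 (Eventually.of_forall fun s => ?_)
  refine Submodule.sum_mem _ fun n _ => ?_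
  simp only [ContinuousLinearMap.apply_apply, ContinuousLinearMap.smul_apply]
  exact J.smul_mem _ (hpow n Y hY)

variable {G : Type} [TopologicalSpace G] [Group G] [IsTopologicalGroup G]
  {Ad : G → E →L[ℝ] E} {ad : E →L[ℝ] (E →L[ℝ] E)} {c : E → ℝ → G}

omit [FiniteDimensional ℝ E] [IsTopologicalGroup G] in
theorem c_inv (h : IsKit Ad ad c) (X : E) (t : ℝ) : (c X t)⁻¹ = c X (-t) := by
  have := h.c_add X t (-t)
  rw [add_neg_cancel, h.c_zero] at this
  exact (eq_inv_of_mul_eq_one_right this.symm).symm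

/-- the stabilizer of a subspace -/
def stab (h : IsKit Ad ad c) (J : Submodule ℝ E) : Subgroup G where
  carrier := {g | (∀ Y ∈ J, Ad g Y ∈ J) ∧ ∀ Y ∈ J, Ad g⁻¹ Y ∈ J}
  one_mem' := by
    constructor <;> intro Y hY
    · rw [h.Ad_one]; exact hY
    · rw [inv_one, h.Ad_one]; exact hY
  mul_mem' := by
    rintro a b ⟨h1, h2⟩ ⟨h3, h4⟩
    constructor <;> intro Y hY
    · rw [h.Ad_mul]; exact h1 _ (h3 _ hY)
    · rw [mul_inv_rev, h.Ad_mul]; exact h4 _ (h2 _ hY)
  inv_mem' := by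
    rintro a ⟨h1, h2⟩
    exact ⟨h2, by rw [inv_inv]; exact h1⟩

omit [FiniteDimensional ℝ E] in
theorem open_top [ConnectedSpace G] (S : Subgroup G) (hS : (S : Set G) ∈ 𝓝 (1 : G)) : S = ⊤ := by
  have hop : IsOpen (S : Set G) := S.isOpen_of_mem_nhds hS
  have hcl : IsClopen (S : Set G) := OpenSubgroup.isClopen ⟨S, hop⟩
  have h1 := hcl.eq_univ ⟨1, S.one_mem⟩
  exact SetLike.coe_injective (by rw [h1]; rfl)

theorem kit_top [ConnectedSpace G] (h : IsKit Ad ad c) (S : Subgroup G) {n : ℕ}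
    (b : Module.Basis (Fin n) ℝ E) (hS : ∀ i t, c (b i) t ∈ S) : S = ⊤ := by
  refine open_top S (Filter.mem_of_superset (h.nhd n b univ univ_mem) ?_)
  rintro g ⟨t, -, rfl⟩
  refine S.list_prod_mem fun x hx => ?_
  rw [List.mem_ofFn] at hx
  obtain ⟨i, rfl⟩ := hx
  exact hS i _

end ModAID

open ModAID in
theorem aid (E : Type) [NormedAddCommGroup E] [NormedSpace ℝ E] [FiniteDimensional ℝ E]
    (G : Type) [TopologicalSpace G] [Group G] [IsTopologicalGroup G] : StmAID E G := by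
  intro _ Ad ad c h J hJ g
  have hc : ∀ X t, ∀ Y ∈ J, Ad (c X t) Y ∈ J := by
    intro X t Y hY
    rw [h.Ad_c]
    exact exp_mem _ J (fun Z hZ => by
      rw [ContinuousLinearMap.smul_apply]
      exact J.smul_mem _ (hJ X Z hZ)) Y hY
  have htop : stab h J = ⊤ := by
    refine kit_top h (stab h J) (Module.finBasis ℝ E) fun i t => ⟨hc _ _, ?_⟩
    rw [c_inv h]
    exact hc _ _
  have hg : g ∈ stab h J := by rw [htop]; trivial
  exact hg.1

end Pool.Agent.T6.H55.ST
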