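import Pool.Agent.T6.H55.ST.Stm

set_option autoImplicit false

open scoped Manifold ContDiff Topology
open MeasureTheory Set Filter

namespace Pool.Agent.T6.H55.ST

namespace ModALG

variable {E : Type} [NormedAddCommGroup E] [NormedSpace ℝ E]

theorem repr_D {n : ℕ} (b : Module.Basis (Fin n) ℝ E) (D : E →L[ℝ] E) (l : Fin n → ℝ)
    (h : ∀ i, D (b i) = l i • b i) (X : E) (i : Fin n) :
    b.repr (D X) i = l i * b.repr X i := by
  have h1 : (b.coord i) ∘ₗ (D : E →ₗ[ℝ] E) = l i • b.coord i := by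
    apply b.ext
    intro j
    rw [LinearMap.comp_apply, LinearMap.smul_apply, ContinuousLinearMap.coe_coe, h, map_smul,
      Module.Basis.coord_apply, Module.Basis.repr_self, Finsupp.single_apply]
    split_ifs with hij
    · rw [hij]
    · rw [smul_zero, smul_zero]
  exact LinearMap.congr_fun h1 X

/-- strictly triangular operators are nilpotent -/
theorem nil_tri {n : ℕ} (b : Module.Basis (Fin n) ℝ E) (L : E →L[ℝ] E)
    (h : ∀ i j : Fin n, j ≤ i → b.repr (L (b i)) j = 0) : L ^ n = 0 := by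
  have key : ∀ k : ℕ, ∀ X : E, ∀ j : Fin n, j.val < k → b.repr ((L ^ k) X) j = 0 := by
    intro k
    induction k with
    | zero => intro X j hj; omega
    | succ k ih =>
      intro X j hj
      rw [pow_succ']
      change b.repr (L ((L ^ k) X)) j = 0
      have h1 : L ((L ^ k) X) = ∑ i, b.repr ((L ^ k) X) i • L (b i) := by
        conv_lhs => rw [← b.sum_repr ((L ^ k) X)]
        rw [map_sum]
        apply Finset.sum_congr rfl
        intro i _
        rw [map_smul]
      rw [h1, map_sum, Finsupp.finsetSum_apply]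
      apply Finset.sum_eq_zero
      intro i _
      rw [map_smul, Finsupp.smul_apply, smul_eq_mul]
      rcases Nat.lt_or_ge i.val k with h2 | h2
      · rw [ih X i h2, zero_mul]
      · rw [h i j (by rw [Fin.le_def]; omega), mul_zero]
  ext X
  apply b.ext_elem
  intro j
  rw [key n X j j.isLt]
  simp

end ModALG

open ModALG in
theorem alg (E : Type) [NormedAddCommGroup E] [NormedSpace ℝ E] [FiniteDimensional ℝ E]
    (hE : StmEIG E) (hP : StmPRT E) (hB : StmBRK E) (hK : StmKIL E) : StmALG E := by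
  classical
  intro ad H hyp hanti hjac hnd A A' hAA hAA' hAd h1 h2
  obtain ⟨n, b, l, hb⟩ := hE ad H hyp
  obtain ⟨P1, P2, P3⟩ := hP ad H n b l hb
  have hBr := hB ad H hyp hanti hjac
  obtain ⟨K1, K2, -⟩ := hK ad H hyp hanti hjac
  have K2 := K2 hnd
  have hAAx : ∀ X, A (A' X) = X := fun X => congrArg (fun f : E →L[ℝ] E => f X) hAA
  have hAAx' : ∀ X, A' (A X) = X := fun X => congrArg (fun f : E →L[ℝ] E => f X) hAA'
  have hmono : ∀ {s t : Set ℝ}, s ⊆ t → ∀ {X}, X ∈ part ad H s → X ∈ part ad H t := by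
    intro s t hst X hX
    rw [P2] at hX ⊢
    exact fun i hi => hX i (fun h => hi (hst h))
  have hrD : ∀ X i, b.repr (ad H X) i = l i * b.repr X i := repr_D b (ad H) l hb.eig
  -- Killing form
  have hKinv : ∀ X Y, Kil ad (A X) (A Y) = Kil ad X Y := by
    intro X Y
    unfold Kil
    have e1 : (((ad (A X)).comp (ad (A Y)) : E →L[ℝ] E) : E →ₗ[ℝ] E) =
        (A : E →ₗ[ℝ] E) * ((((ad X).comp (ad Y) : E →L[ℝ] E) : E →ₗ[ℝ] E) * (A' : E →ₗ[ℝ] E)) := by
      ext Z
      rw [hAd X, hAd Y]
      simp [hAAx']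
    rw [e1, LinearMap.trace_mul_comm]
    congr 1
    ext Z
    simp [hAAx']
  have hKsymm : ∀ X Y, Kil ad X Y = Kil ad Y X := by
    intro X Y
    unfold Kil
    exact LinearMap.trace_mul_comm ℝ ((ad X : E →L[ℝ] E) : E →ₗ[ℝ] E) ((ad Y : E →L[ℝ] E) : E →ₗ[ℝ] E)
  have hKA : ∀ X Y, Kil ad (A X) Y = Kil ad X (A' Y) := by
    intro X Y
    conv_lhs => rw [← hAAx Y]
    exact hKinv _ _
  have hKA' : ∀ X Y, Kil ad (A' X) Y = Kil ad X (A Y) := by
    intro X Y
    conv_rhs => rw [← hAAx X]
    exact (hKinv _ _).symm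
  have hKadd : ∀ X Y Z, Kil ad X (Y + Z) = Kil ad X Y + Kil ad X Z := by
    intro X Y Z
    unfold Kil
    rw [← map_add]
    congr 1
    ext w
    simp [map_add]
  -- H lies in the zero part
  have hHH : ad H H = 0 := by
    have h3 := hanti H H
    have h4 : ad H H + ad H H = 0 := by
      nth_rw 2 [h3]
      exact add_neg_cancel _
    have h5 : (2 : ℝ) • ad H H = 0 := by rw [two_smul]; exact h4
    exact (smul_eq_zero.mp h5).resolve_left two_ne_zero
  have hH0 : H ∈ part ad H {0} := by
    rw [P3, hHH, zero_smul]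
  have h0q : ({0} : Set ℝ) ⊆ Set.Ici 0 := by
    intro x hx
    rw [Set.mem_singleton_iff] at hx
    rw [Set.mem_Ici, hx]
  have huq : (Set.Ioi 0 : Set ℝ) ⊆ Set.Ici 0 := Set.Ioi_subset_Ici_self
  -- (1)
  have s1 : ∀ X ∈ part ad H (Set.Ioi 0), A' X ∈ part ad H (Set.Ici 0) := by
    intro X hX
    have h3 := h1 X hX H (hmono h0q hH0)
    have h4 : A' (ad X (A H)) = ad (A' X) H := by
      conv_lhs => rw [← hAAx X, hAd]
      simp [hAAx']
    rw [h4, hanti (A' X) H] at h3
    have h5 : ad H (A' X) ∈ part ad H (Set.Ici 0) := by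
      have := (part ad H (Set.Ici 0)).neg_mem h3
      rwa [neg_neg] at this
    rw [P2] at h5 ⊢
    intro i hi
    have h6 := h5 i hi
    rw [hrD] at h6
    rcases mul_eq_zero.mp h6 with h7 | h7
    · exact absurd (by rw [h7]; exact Set.mem_Ici.mpr le_rfl) hi
    · exact h7
  have hset : {r : ℝ | -r ∉ Set.Ioi (0 : ℝ)} = Set.Ici 0 := by
    ext r
    simp
  -- (2)
  have s2 : ∀ Z ∈ part ad H (Set.Ioi 0), A Z ∈ part ad H (Set.Ici 0) := by
    intro Z hZ
    rw [← hset, ← K2]
    intro X hX
    rw [hKA]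
    refine K1 (Set.Ioi 0) (Set.Ici 0) ?_ Z hZ (A' X) (s1 X hX)
    intro x hx y hy
    have := Set.mem_Ioi.mp hx
    have := Set.mem_Ici.mp hy
    linarith
  -- nilpotency of ad Z
  have snil : ∀ Z ∈ part ad H (Set.Ioi 0), (ad Z) ^ n = 0 := by
    intro Z hZ
    apply nil_tri b
    intro i j hij
    have h3 : b i ∈ part ad H {l i} := by
      rw [P3]
      exact hb.eig i
    have h4 : ad Z (b i) ∈ part ad H (Set.Ioi (l i)) := by
      refine hBr (Set.Ioi 0) {l i} (Set.Ioi (l i)) ?_ Z hZ (b i) h3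
      intro x hx y hy
      rw [Set.mem_singleton_iff] at hy
      rw [hy, Set.mem_Ioi]
      have := Set.mem_Ioi.mp hx
      linarith
    rw [P2] at h4
    apply h4
    rw [Set.mem_Ioi, not_lt]
    exact hb.mono hij
  have spow : ∀ Z, ∀ k : ℕ, (ad (A Z)) ^ k = A.comp (((ad Z) ^ k).comp A') := by
    intro Z k
    induction k with
    | zero =>
      ext X
      simp [hAAx]
    | succ k ih =>
      rw [pow_succ, ih, hAd Z]
      ext X
      simp [hAAx', pow_succ]
  -- (3)
  have s3 : ∀ Z ∈ part ad H (Set.Ioi 0), Kil ad H (A Z) = 0 := by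
    intro Z hZ
    have hv := s2 Z hZ
    have hvn : (ad (A Z)) ^ n = 0 := by
      rw [spow, snil Z hZ]
      ext X
      simp
    generalize A Z = v at hv hvn
    -- decomposition
    let z : E := ∑ i, (if l i = 0 then b.repr v i else 0) • b i
    have hzr : ∀ i, b.repr z i = if l i = 0 then b.repr v i else 0 := by
      intro i
      exact congrFun (b.repr_sum_self (fun i => if l i = 0 then b.repr v i else 0)) i
    have hz0 : z ∈ part ad H {0} := by
      rw [P2]
      intro i hi
      rw [hzr, if_neg]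
      exact hi
    have hx : v - z ∈ part ad H (Set.Ioi 0) := by
      rw [P2]
      intro i hi
      rw [map_sub, Finsupp.sub_apply, hzr]
      split_ifs with h3
      · exact sub_self _
      · rw [sub_zero]
        rw [P2] at hv
        apply hv
        intro h4
        apply hi
        exact lt_of_le_of_ne h4 (Ne.symm h3)
    have hvz : v = z + (v - z) := by abel
    have e1 : Kil ad H v = Kil ad H z + Kil ad H (v - z) := by
      conv_lhs => rw [hvz]
      exact hKadd _ _ _
    have e2 : Kil ad H (v - z) = 0 := by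
      refine K1 {0} (Set.Ioi 0) ?_ H hH0 (v - z) hx
      intro x hx y hy
      rw [Set.mem_singleton_iff] at hx
      have := Set.mem_Ioi.mp hy
      linarith
    -- nilpotency of ad z
    have hgr : ∀ m : ℝ, ∀ w ∈ part ad H {m}, ∀ k : ℕ,
        ((ad z) ^ k) w ∈ part ad H {m} ∧ ((ad v) ^ k) w - ((ad z) ^ k) w ∈ part ad H (Set.Ioi m) := by
      intro m w hw k
      induction k with
      | zero =>
        refine ⟨by simpa using hw, ?_⟩
        simp only [pow_zero, sub_self]
        exact Submodule.zero_mem _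
      | succ k ih =>
        obtain ⟨i1, i2⟩ := ih
        have e3 : ((ad z) ^ (k + 1)) w = ad z (((ad z) ^ k) w) := by rw [pow_succ']; rfl
        have e4 : ((ad v) ^ (k + 1)) w = ad v (((ad v) ^ k) w) := by rw [pow_succ']; rfl
        rw [e3, e4]
        refine ⟨?_, ?_⟩
        · refine hBr {0} {m} {m} ?_ z hz0 _ i1
          intro x hx y hy
          rw [Set.mem_singleton_iff] at *
          rw [hx, hy, zero_add]
        · have e5 : ad v (((ad v) ^ k) w) - ad z (((ad z) ^ k) w) =
              ad v (((ad v) ^ k) w - ((ad z) ^ k) w) + ad (v - z) (((ad z) ^ k) w) := by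
            rw [map_sub, map_sub, sub_apply]
            abel
          rw [e5]
          apply Submodule.add_mem
          · refine hBr (Set.Ici 0) (Set.Ioi m) (Set.Ioi m) ?_ v hv _ i2
            intro x hx y hy
            have := Set.mem_Ici.mp hx
            have := Set.mem_Ioi.mp hy
            rw [Set.mem_Ioi]
            linarith
          · refine hBr (Set.Ioi 0) {m} (Set.Ioi m) ?_ _ hx _ i1
            intro x hx y hy
            rw [Set.mem_singleton_iff] at hy
            have := Set.mem_Ioi.mp hx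
            rw [Set.mem_Ioi, hy]
            linarith
    have hzn : (ad z) ^ n = 0 := by
      have : ∀ i, ((ad z) ^ n) (b i) = 0 := by
        intro i
        obtain ⟨i1, i2⟩ := hgr (l i) (b i) ((P3 _ _).mpr (hb.eig i)) n
        rw [hvn] at i2
        have i3 : ((ad z) ^ n) (b i) ∈ part ad H (Set.Ioi (l i)) := by
          have := (part ad H (Set.Ioi (l i))).neg_mem i2
          simpa using this
        rw [P2] at i1 i3
        apply b.ext_elem
        intro j
        rw [map_zero, Finsupp.zero_apply]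
        by_cases hj : l j = l i
        · exact i3 j (by rw [hj]; simp)
        · exact i1 j (by rw [Set.mem_singleton_iff]; exact hj)
      have h5 : (((ad z) ^ n : E →L[ℝ] E) : E →ₗ[ℝ] E) = 0 := b.ext (fun i => this i)
      ext X
      exact LinearMap.congr_fun h5 X
    have hcomm : Commute (ad H) (ad z) := by
      have h6 := hjac H z
      rw [(P3 0 z).mp hz0, zero_smul, map_zero] at h6
      exact (sub_eq_zero.mp h6.symm)
    have hnil : IsNilpotent (ad H * ad z) := hcomm.isNilpotent_mul_left ⟨n, hzn⟩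
    have e6 : Kil ad H z = 0 := by
      unfold Kil
      have h7 : IsNilpotent (((ad H).comp (ad z) : E →L[ℝ] E) : E →ₗ[ℝ] E) :=
        hnil.map (ContinuousLinearMap.toLinearMapRingHom : (E →L[ℝ] E) →+* (E →ₗ[ℝ] E))
      exact (LinearMap.isNilpotent_trace_of_isNilpotent h7).eq_zero
    rw [e1, e2, e6, add_zero]
  -- (4)
  have s4 : A' H ∈ part ad H (Set.Ici 0) := by
    rw [← hset, ← K2]
    intro X hX
    rw [hKA']
    exact s3 X hX
  -- (5)
  have s5 : ∀ v ∈ (part ad H (Set.Ioi 0)).map (A : E →ₗ[ℝ] E),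
      ad H v ∈ (part ad H (Set.Ioi 0)).map (A : E →ₗ[ℝ] E) := by
    rintro v ⟨Z, hZ, rfl⟩
    refine ⟨ad (A' H) Z, ?_, ?_⟩
    · refine hBr (Set.Ici 0) (Set.Ioi 0) (Set.Ioi 0) ?_ _ s4 Z hZ
      intro x hx y hy
      have := Set.mem_Ici.mp hx
      have := Set.mem_Ioi.mp hy
      rw [Set.mem_Ioi]
      linarith
    · change A (ad (A' H) Z) = ad H (A Z)
      conv_rhs => rw [← hAAx H, hAd]
      simp [hAAx']
  -- (6)
  have s6 : ∀ v ∈ (part ad H (Set.Ioi 0)).map (A : E →ₗ[ℝ] E), v ∈ part ad H (Set.Ioi 0) := by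
    intro v hvV
    have hv : v ∈ part ad H (Set.Ici 0) := by
      obtain ⟨Z, hZ, rfl⟩ := hvV
      exact s2 Z hZ
    have hS : ∀ S : Finset (Fin n), ∃ y ∈ (part ad H (Set.Ioi 0)).map (A : E →ₗ[ℝ] E),
        ∀ j, b.repr y j = (∏ i ∈ S, (if l i = 0 then 1 else 1 - l j / l i)) * b.repr v j := by
      intro S
      induction S using Finset.induction_on with
      | empty => exact ⟨v, hvV, fun j => by simp⟩
      | insert i S hi ih =>
        obtain ⟨y, hy, hyr⟩ := ih
        by_cases h0 : l i = 0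
        · refine ⟨y, hy, fun j => ?_⟩
          rw [Finset.prod_insert hi, if_pos h0, one_mul, hyr]
        · refine ⟨y - (l i)⁻¹ • ad H y, Submodule.sub_mem _ hy (Submodule.smul_mem _ _ (s5 y hy)),
            fun j => ?_⟩
          rw [Finset.prod_insert hi, if_neg h0, map_sub, Finsupp.sub_apply, map_smul,
            Finsupp.smul_apply, hrD, smul_eq_mul, hyr]
          ring
    obtain ⟨z, hz, hzr⟩ := hS Finset.univ
    have hzr' : ∀ j, b.repr z j = if l j = 0 then b.repr v j else 0 := by
      intro j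
      rw [hzr]
      split_ifs with h0
      · rw [Finset.prod_eq_one, one_mul]
        intro i _
        rw [h0]
        simp
      · rw [Finset.prod_eq_zero (Finset.mem_univ j), zero_mul]
        rw [if_neg h0, div_self h0, sub_self]
    have hz0 : z ∈ part ad H {0} := by
      rw [P2]
      intro i hi
      rw [hzr', if_neg]
      exact hi
    obtain ⟨Z, hZ, hZz⟩ := hz
    have hZz' : A Z = z := hZz
    have hZ0 : Z = 0 := by
      apply h2 Z hZ
      rw [hZz']
      refine hmono ?_ hz0
      intro x hx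
      rw [Set.mem_singleton_iff] at hx
      rw [Set.mem_Iic, hx]
    have hz00 : z = 0 := by rw [← hZz', hZ0, map_zero]
    rw [P2]
    intro i hi
    by_cases h0 : l i = 0
    · have := hzr' i
      rw [if_pos h0, hz00, map_zero, Finsupp.zero_apply] at this
      exact this.symm
    · rw [P2] at hv
      apply hv
      intro h4
      exact hi (lt_of_le_of_ne h4 (Ne.symm h0))
  let e : E ≃ₗ[ℝ] E := LinearEquiv.ofLinearMap (A : E →ₗ[ℝ] E) (A' : E →ₗ[ℝ] E)
    (LinearMap.ext hAAx) (LinearMap.ext hAAx')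
  have hfin : ∀ p : Submodule ℝ E, p.map (A : E →ₗ[ℝ] E) ≤ p → p.map (A : E →ₗ[ℝ] E) = p := by
    intro p hp
    apply Submodule.eq_of_le_of_finrank_le hp
    exact (LinearEquiv.finrank_map_eq e p).ge
  -- (7)
  have s7 : (part ad H (Set.Ioi 0)).map (A : E →ₗ[ℝ] E) = part ad H (Set.Ioi 0) :=
    hfin _ s6
  have s8 : ∀ X ∈ part ad H (Set.Ioi 0), A' X ∈ part ad H (Set.Ioi 0) := by
    intro X hX
    rw [← s7] at hX
    obtain ⟨Z, hZ, rfl⟩ := hX
    change A' (A Z) ∈ _
    rw [hAAx']
    exact hZ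
  apply hfin
  rintro _ ⟨Y, hY, rfl⟩
  change A Y ∈ _
  rw [← hset, ← K2]
  intro Z hZ
  rw [hKA]
  refine K1 (Set.Ici 0) (Set.Ioi 0) ?_ Y hY (A' Z) (s8 Z hZ)
  intro x hx y hy
  have := Set.mem_Ici.mp hx
  have := Set.mem_Ioi.mp hy
  linarith

end Pool.Agent.T6.H55.ST
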