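import Pool.Agent.T6.H55.ST.Stm

/-!
# Brackets of parts
-/

set_option autoImplicit false

namespace Pool.Agent.T6.H55.ST

/-- BRK: brackets of parts. -/
theorem brk (E : Type) [NormedAddCommGroup E] [NormedSpace ℝ E] [FiniteDimensional ℝ E]
    (hE : StmEIG E) (hP : StmPRT E) : StmBRK E := by
  intro ad H hH _ hJac s t w hst X hX Y hY
  obtain ⟨n, b, l, hb⟩ := hE ad H hH
  obtain ⟨h1, h2, h3⟩ := hP ad H n b l hb
  have hmono : ∀ s w : Set ℝ, s ⊆ w → part ad H s ≤ part ad H w := by
    intro s w hsw X hX
    rw [h2] at hX ⊢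
    exact fun i hi => hX i fun h => hi (hsw h)
  have key : ∀ i j, l i ∈ s → l j ∈ t → ad (b i) (b j) ∈ part ad H w := by
    intro i j hi hj
    have e1 : ad H (ad (b i) (b j)) = (l i + l j) • ad (b i) (b j) := by
      have e2 := congrArg (fun f : E →L[ℝ] E => f (b j)) (hJac H (b i))
      simp only [sub_apply, ContinuousLinearMap.comp_apply] at e2
      rw [hb.eig i, hb.eig j, map_smul, map_smul, smul_apply] at e2
      rw [add_smul, e2]
      abel
    refine hmono {l i + l j} w ?_ ((h3 _ _).2 e1)
    rintro _ rfl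
    exact hst _ hi _ hj
  rw [h1] at hX hY
  induction hX using Submodule.span_induction with
  | mem x hx =>
    obtain ⟨i, hi, rfl⟩ := hx
    induction hY using Submodule.span_induction with
    | mem y hy =>
      obtain ⟨j, hj, rfl⟩ := hy
      exact key i j hi hj
    | zero => rw [map_zero]; exact Submodule.zero_mem _
    | add x y _ _ hx hy => rw [map_add]; exact Submodule.add_mem _ hx hy
    | smul a x _ hx => rw [map_smul]; exact Submodule.smul_mem _ _ hx
  | zero => rw [map_zero]; exact Submodule.zero_mem _
  | add x y _ _ hx hy =>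
    rw [map_add, add_apply]
    exact Submodule.add_mem _ hx hy
  | smul a x _ hx =>
    rw [map_smul, smul_apply]
    exact Submodule.smul_mem _ _ hx

end Pool.Agent.T6.H55.ST
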