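import Pool.Agent.T6.H55.ST.Stm

/-!
# Project ST, module CEX
-/

set_option autoImplicit false

open scoped Manifold ContDiff Topology
open MeasureTheory Set Filter

namespace Pool.Agent.T6.H55.ST

namespace ModCEX

/-- The rotation flow on the circle with period `r`. -/
noncomputable def rotF (r : ℝ) : SFlow (EuclideanSpace ℝ (Fin 1)) Circle where
  map t z := Circle.exp (2 * Real.pi * t / r) * z
  smooth := by
    have h1 : ContMDiff (𝓘(ℝ, ℝ).prod (𝓡 1)) (𝓡 1) ∞
        (fun p : ℝ × Circle => Circle.exp (2 * Real.pi * p.1 / r)) := by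
      have h0 : ContMDiff (𝓘(ℝ, ℝ).prod (𝓡 1)) 𝓘(ℝ, ℝ) ∞
          (fun p : ℝ × Circle => 2 * Real.pi * p.1 / r) := by
        have h2 : ContMDiff 𝓘(ℝ, ℝ) 𝓘(ℝ, ℝ) ∞ (fun t : ℝ => 2 * Real.pi * t / r) := by
          apply ContDiff.contMDiff
          fun_prop
        exact h2.comp contMDiff_fst
      exact contMDiff_circleExp.comp h0
    have h3 : ContMDiff (𝓘(ℝ, ℝ).prod (𝓡 1)) (𝓡 1) ∞ (fun p : ℝ × Circle => p.2) :=
      contMDiff_snd
    have : LieGroup (𝓡 1) ∞ Circle := LieGroup.of_le (m := ∞) (n := ω) (by simp)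
    exact h1.mul h3
  zero m := by simp
  add s t m := by
    rw [← mul_assoc, ← Circle.exp_add]
    congr 2
    ring

/-- The constant flow on the circle. -/
noncomputable def idF : SFlow (EuclideanSpace ℝ (Fin 1)) Circle where
  map _ z := z
  smooth := contMDiff_snd
  zero _ := rfl
  add _ _ _ := rfl

end ModCEX

open ModCEX in
theorem cex (E : Type) [NormedAddCommGroup E] [NormedSpace ℝ E] [FiniteDimensional ℝ E]
    (G : Type) [TopologicalSpace G] [ChartedSpace E G] [Group G] [LieGroup 𝓘(ℝ, E) ∞ G] [T2Space G] :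
    StmCEX E G := by
  classical
  intro Γ Q φ hd
  -- the range is contained in ℤ r
  obtain ⟨r, hr, hφ⟩ : ∃ r : ℝ, r ≠ 0 ∧ ∀ q : Q, ∃ k : ℤ, Multiplicative.toAdd (φ q) = k * r := by
    let R : AddSubgroup ℝ :=
      { carrier := Set.range fun q : Q => (Multiplicative.toAdd (φ q) : ℝ)
        add_mem' := by
          rintro _ _ ⟨q, rfl⟩ ⟨q', rfl⟩
          exact ⟨q * q', by simp⟩
        zero_mem' := ⟨1, by simp⟩
        neg_mem' := by
          rintro _ ⟨q, rfl⟩
          exact ⟨q⁻¹, by simp⟩ }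
    rcases R.dense_or_cyclic with h | ⟨a, ha⟩
    · exact absurd h hd
    · have hmem : ∀ q : Q, ∃ k : ℤ, Multiplicative.toAdd (φ q) = k * a := by
        intro q
        have h1 : (Multiplicative.toAdd (φ q) : ℝ) ∈ R := ⟨q, rfl⟩
        rw [ha, AddSubgroup.mem_closure_singleton] at h1
        obtain ⟨k, hk⟩ := h1
        exact ⟨k, by rw [← hk]; simp⟩
      by_cases h0 : a = 0
      · refine ⟨1, one_ne_zero, fun q => ⟨0, ?_⟩⟩
        obtain ⟨k, hk⟩ := hmem q
        rw [hk, h0]; simp
      · exact ⟨a, h0, hmem⟩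
  refine ⟨rotF r, idF, ?_, ?_⟩
  · have key : ∀ (q : Q) (z : Circle), (rotF r).map (Multiplicative.toAdd (φ q)) z = z := by
      intro q z
      obtain ⟨k, hk⟩ := hφ q
      change Circle.exp (2 * Real.pi * Multiplicative.toAdd (φ q) / r) * z = z
      have : 2 * Real.pi * Multiplicative.toAdd (φ q) / r = k * (2 * Real.pi) := by
        rw [hk]; field_simp
      rw [this, Circle.exp_int_mul_two_pi, one_mul]
    have hrel : ∀ x y : G × Circle, (orb φ (rotF r)).r x y ↔ (orb φ idF).r x y := by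
      intro x y
      constructor
      · rintro ⟨q, h1, h2⟩
        exact ⟨q, h1, by rw [h2, key]; rfl⟩
      · rintro ⟨q, h1, h2⟩
        exact ⟨q, h1, by rw [h2, key]; rfl⟩
    refine ⟨Quotient.congr (Equiv.refl _) (fun x y => hrel x y), ?_, ?_, ?_⟩
    · intro x
      refine ⟨univ, univ_mem, id, contMDiffOn_id, ?_⟩
      intro y _
      rfl
    · intro x
      refine ⟨univ, univ_mem, id, contMDiffOn_id, ?_⟩
      intro y _
      rfl
    · intro γ _ x
      induction x using Quotient.inductionOn with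
      | _ x => rfl
  · rintro ⟨k, hk⟩
    have h1 := hk (r / 2) 1
    have h2 : (rotF r).map (r / 2) 1 = 1 := k.injective h1
    have h3 : Circle.exp (2 * Real.pi * (r / 2) / r) * 1 = 1 := h2
    have h4 : 2 * Real.pi * (r / 2) / r = Real.pi := by field_simp
    rw [h4, mul_one] at h3
    have h5 := congrArg (fun z : Circle => (z : ℂ)) h3
    simp [Circle.coe_exp] at h5
    norm_num at h5

end Pool.Agent.T6.H55.ST
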