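import Pool.Agent.T6.H55.ST.Stm

/-!
# Module COO of project ST (helper41)
-/

set_option autoImplicit false

open scoped Manifold ContDiff Topology
open MeasureTheory Set Filter

namespace Pool.Agent.T6.H55.ST

section Coo

variable {E : Type} [NormedAddCommGroup E] [NormedSpace ℝ E]
  {G : Type} [TopologicalSpace G] [ChartedSpace E G]

/-- The derivative in the chart at the value. -/
theorem hasFDerivAt_chart {V : Type} [NormedAddCommGroup V] [NormedSpace ℝ V] {f : V → G} {x : V}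
    {y : G} (hf : MDifferentiableAt 𝓘(ℝ, V) 𝓘(ℝ, E) f x) (hy : f x = y) :
    HasFDerivAt (fun v => extChartAt 𝓘(ℝ, E) y (f v)) (mfderiv 𝓘(ℝ, V) 𝓘(ℝ, E) f x : V →L[ℝ] E)
      x := by
  subst hy
  have h := hf.hasMFDerivAt.2
  simpa [writtenInExtChartAt, Function.comp_def] using h

variable [Group G] [LieGroup 𝓘(ℝ, E) ∞ G]

theorem list_contMDiff {V : Type} [NormedAddCommGroup V] [NormedSpace ℝ V] {ι : Type}
    (f : ι → V → G) (hf : ∀ i, ContMDiff 𝓘(ℝ, V) 𝓘(ℝ, E) ∞ (f i)) (L : List ι) :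
    ContMDiff 𝓘(ℝ, V) 𝓘(ℝ, E) ∞ (fun v => (L.map (fun i => f i v)).prod) := by
  induction L with
  | nil => simpa using contMDiff_const
  | cons i L ih =>
    simp only [List.map_cons, List.prod_cons]
    exact (hf i).mul ih

theorem tau_contMDiff {c : E → ℝ → G} (hc : ∀ X, OnePar E G X (c X)) {n : ℕ} (b : Fin n → E) :
    ContMDiff 𝓘(ℝ, Fin n → ℝ) 𝓘(ℝ, E) ∞ (tau c b) := by
  have h := list_contMDiff (E := E) (G := G) (V := Fin n → ℝ) (fun i t => c (b i) (t i)) ?_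
    (List.finRange n)
  · refine h.congr ?_
    intro t
    simp only [tau, List.ofFn_eq_map]
  · intro i
    have h1 : ContMDiff 𝓘(ℝ, Fin n → ℝ) 𝓘(ℝ, ℝ) ∞ (fun t : Fin n → ℝ => t i) := by
      rw [contMDiff_iff_contDiff]
      exact contDiff_apply ℝ ℝ i
    exact (hc (b i)).1.comp h1

omit [NormedAddCommGroup E] [NormedSpace ℝ E] [TopologicalSpace G] [ChartedSpace E G]
  [LieGroup 𝓘(ℝ, E) ∞ G] in
theorem tau_single {c : E → ℝ → G} (h0 : ∀ X, c X 0 = 1) {n : ℕ} (b : Fin n → E) (i : Fin n)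
    (s : ℝ) : tau c b (Pi.single i s) = c (b i) s := by
  simp only [tau, List.ofFn_eq_map]
  rw [List.prod_map_eq_pow_single i]
  · rw [List.count_eq_one_of_mem (List.nodup_finRange n) (List.mem_finRange i)]
    simp
  · intro j hj _
    simp [Pi.single_eq_of_ne hj, h0]

omit [NormedAddCommGroup E] [NormedSpace ℝ E] [TopologicalSpace G] [ChartedSpace E G]
  [LieGroup 𝓘(ℝ, E) ∞ G] in
theorem tau_zero {c : E → ℝ → G} (h0 : ∀ X, c X 0 = 1) {n : ℕ} (b : Fin n → E) :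
    tau c b 0 = 1 := by
  simp only [tau]
  apply List.prod_eq_one
  intro x hx
  rw [List.mem_ofFn] at hx
  obtain ⟨i, rfl⟩ := hx
  simp [h0]

end Coo

theorem coo (E : Type) [NormedAddCommGroup E] [NormedSpace ℝ E] [FiniteDimensional ℝ E]
    (G : Type) [TopologicalSpace G] [ChartedSpace E G] [Group G] [LieGroup 𝓘(ℝ, E) ∞ G] :
    StmCOO E G := by
  intro c hc n b
  have h0 : ∀ X, c X 0 = 1 := fun X => (hc X).2.1
  have hsm := tau_contMDiff hc (b : Fin n → E)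
  have hone : tau c b 0 = 1 := tau_zero h0 _
  set ψ : (Fin n → ℝ) → E := fun v => extChartAt 𝓘(ℝ, E) (1 : G) (tau c b v) with hψ
  -- smooth
  have ψsm : ContDiffAt ℝ ∞ ψ 0 := by
    rw [← contMDiffAt_iff_contDiffAt]
    have h1 : ContMDiffAt 𝓘(ℝ, E) 𝓘(ℝ, E) ∞ (extChartAt 𝓘(ℝ, E) (1 : G)) (tau c b 0) := by
      rw [hone]
      exact contMDiffAt_extChartAt
    exact h1.comp (0 : Fin n → ℝ) (hsm 0)
  -- derivative
  have hd : ∀ X, HasFDerivAt (fun s => extChartAt 𝓘(ℝ, E) (1 : G) (c X s))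
      (mfderiv 𝓘(ℝ, ℝ) 𝓘(ℝ, E) (c X) 0 : ℝ →L[ℝ] E) 0 := fun X =>
    hasFDerivAt_chart (((hc X).1 0).mdifferentiableAt (by simp)) (h0 X)
  have ψd : HasFDerivAt ψ (fderiv ℝ ψ 0) 0 := (ψsm.differentiableAt (by simp)).hasFDerivAt
  have val : ∀ i, fderiv ℝ ψ 0 (Pi.single i 1) = b i := by
    intro i
    have h1 : HasFDerivAt (fun s : ℝ => (Pi.single i s : Fin n → ℝ))
        (ContinuousLinearMap.single ℝ (fun _ : Fin n => ℝ) i) 0 :=
      (ContinuousLinearMap.single ℝ (fun _ : Fin n => ℝ) i).hasFDerivAt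
    have h2 : HasFDerivAt ψ (fderiv ℝ ψ 0) ((fun s : ℝ => (Pi.single i s : Fin n → ℝ)) 0) := by
      simpa using ψd
    have h3 := h2.comp (0 : ℝ) h1
    have h4 : (ψ ∘ fun s : ℝ => (Pi.single i s : Fin n → ℝ))
        = fun s => extChartAt 𝓘(ℝ, E) (1 : G) (c (b i) s) := by
      funext s
      simp only [Function.comp_apply, hψ]
      rw [tau_single h0]
    rw [h4] at h3
    have h5 := h3.unique (hd (b i))
    have h6 := congrArg (fun T : ℝ →L[ℝ] E => T 1) h5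
    simp only [ContinuousLinearMap.comp_apply] at h6
    refine Eq.trans ?_ (h6.trans (hc (b i)).2.2.2)
    rfl
  set e : (Fin n → ℝ) ≃L[ℝ] E := b.equivFun.symm.toContinuousLinearEquiv with he
  have hDe : fderiv ℝ ψ 0 = (e : (Fin n → ℝ) →L[ℝ] E) := by
    apply ContinuousLinearMap.coe_injective
    apply LinearMap.pi_ext'
    intro i
    apply LinearMap.ext_ring
    simp only [LinearMap.comp_apply]
    refine (val i).trans ?_
    simp [he]
  rw [hDe] at ψd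
  have hne : (∞ : WithTop ℕ∞) ≠ 0 := by simp
  set κ := ψsm.localInverse ψd hne with hκ
  have κsm : ContDiffAt ℝ ∞ κ (ψ 0) := ψsm.to_localInverse ψd hne
  have κ0 : κ (ψ 0) = 0 := ψsm.localInverse_apply_image ψd hne
  have κr : ∀ᶠ z in 𝓝 (ψ 0), ψ (κ z) = z := by
    have hs := (ψsm.hasStrictFDerivAt' ψd hne)
    exact hs.eventually_right_inverse
  have hψ0 : ψ 0 = extChartAt 𝓘(ℝ, E) (1 : G) 1 := by
    simp only [hψ, hone]
  refine ⟨fun g => κ (extChartAt 𝓘(ℝ, E) (1 : G) g), ?_, ?_, ?_⟩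
  · have h1 : ContMDiffAt 𝓘(ℝ, E) 𝓘(ℝ, E) ∞ (extChartAt 𝓘(ℝ, E) (1 : G)) (1 : G) :=
      contMDiffAt_extChartAt
    have h2 : ContMDiffAt 𝓘(ℝ, E) 𝓘(ℝ, Fin n → ℝ) ∞ κ (extChartAt 𝓘(ℝ, E) (1 : G) 1) := by
      rw [contMDiffAt_iff_contDiffAt, ← hψ0]
      exact κsm
    exact h2.comp (1 : G) h1
  · show κ (extChartAt 𝓘(ℝ, E) (1 : G) 1) = 0
    rw [← hψ0, κ0]
  · have c1 : ContinuousAt (extChartAt 𝓘(ℝ, E) (1 : G)) (1 : G) := continuousAt_extChartAt _
    have c2 : ContinuousAt κ (extChartAt 𝓘(ℝ, E) (1 : G) 1) := by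
      rw [← hψ0]
      exact κsm.continuousAt
    have c3 : ContinuousAt (fun g : G => κ (extChartAt 𝓘(ℝ, E) (1 : G) g)) 1 :=
      ContinuousAt.comp (f := extChartAt 𝓘(ℝ, E) (1 : G)) c2 c1
    have c4 : ContinuousAt (fun g : G => tau c b (κ (extChartAt 𝓘(ℝ, E) (1 : G) g))) 1 := by
      apply ContinuousAt.comp (f := fun g : G => κ (extChartAt 𝓘(ℝ, E) (1 : G) g))
        (g := tau c b) _ c3
      exact hsm.continuous.continuousAt
    have v4 : tau c b (κ (extChartAt 𝓘(ℝ, E) (1 : G) 1)) = 1 := by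
      rw [← hψ0, κ0, hone]
    have s1 : ∀ᶠ g in 𝓝 (1 : G), g ∈ (extChartAt 𝓘(ℝ, E) (1 : G)).source :=
      extChartAt_source_mem_nhds (1 : G)
    have s2 : ∀ᶠ g in 𝓝 (1 : G), tau c b (κ (extChartAt 𝓘(ℝ, E) (1 : G) g)) ∈
        (extChartAt 𝓘(ℝ, E) (1 : G)).source := by
      apply c4.eventually_mem
      rw [v4]
      exact extChartAt_source_mem_nhds (1 : G)
    have s3 : ∀ᶠ g in 𝓝 (1 : G), ψ (κ (extChartAt 𝓘(ℝ, E) (1 : G) g))
        = extChartAt 𝓘(ℝ, E) (1 : G) g := by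
      refine Filter.Tendsto.eventually (p := fun z => ψ (κ z) = z) c1 ?_
      rw [← hψ0]
      exact κr
    filter_upwards [s1, s2, s3] with g h1 h2 h3
    exact (extChartAt 𝓘(ℝ, E) (1 : G)).injOn h2 h1 h3

end Pool.Agent.T6.H55.ST
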