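import Pool.Agent.T6.H55.ST.Stm

/-!
Project ST, module EIG: an ordered basis of eigenvectors.
-/

set_option autoImplicit false

namespace Pool.Agent.T6.H55.ST

open Module

theorem eigst (E : Type) [NormedAddCommGroup E] [NormedSpace ℝ E] [FiniteDimensional ℝ E] :
    StmEIG E := by
  classical
  intro ad H hH
  set f : Module.End ℝ E := ((ad H : E →L[ℝ] E) : E →ₗ[ℝ] E) with hf
  have htop : (⨆ r, Module.End.eigenspace f r) = ⊤ := by
    have h1 := hH
    unfold Hyp part at h1
    simpa using h1
  have hint : DirectSum.IsInternal (fun r : ℝ => Module.End.eigenspace f r) :=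
    DirectSum.isInternal_submodule_of_iSupIndep_of_iSup_eq_top f.eigenspaces_iSupIndep htop
  set b := hint.collectedBasis (fun r => Module.finBasis ℝ (Module.End.eigenspace f r)) with hb
  have hfin : Finite (Σ r : ℝ, Fin (Module.finrank ℝ (Module.End.eigenspace f r))) :=
    Module.Finite.finite_basis b
  have _i := Fintype.ofFinite (Σ r : ℝ, Fin (Module.finrank ℝ (Module.End.eigenspace f r)))
  set e := Fintype.equivFin (Σ r : ℝ, Fin (Module.finrank ℝ (Module.End.eigenspace f r))) with he
  set l₁ : Fin _ → ℝ := fun i => (e.symm i).1 with hl₁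
  refine ⟨_, (b.reindex e).reindex (Tuple.sort l₁).symm, l₁ ∘ Tuple.sort l₁,
    Tuple.monotone_sort l₁, fun i => ?_⟩
  rw [Module.Basis.reindex_apply, Module.Basis.reindex_apply, Equiv.symm_symm]
  have h2 := hint.collectedBasis_mem (fun r => Module.finBasis ℝ (Module.End.eigenspace f r))
    (e.symm ((Tuple.sort l₁) i))
  rw [Module.End.mem_eigenspace_iff] at h2
  exact h2

end Pool.Agent.T6.H55.ST
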