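import Pool.Agent.T6.H55.ST.Stm

/-!
# Project ST, module FIX
-/

set_option autoImplicit false

open scoped Topology
open MeasureTheory Set Filter

namespace Pool.Agent.T6.H55.ST.Fix

open Pool.Agent.T6.H55.ST

section

variable {E : Type} [NormedAddCommGroup E] [NormedSpace ℝ E]

theorem kil_comm (ad : E →L[ℝ] (E →L[ℝ] E)) (X Y : E) : Kil ad X Y = Kil ad Y X := by
  unfold Kil
  exact LinearMap.trace_mul_comm ℝ ((ad X : E →L[ℝ] E) : E →ₗ[ℝ] E) ((ad Y : E →L[ℝ] E) : E →ₗ[ℝ] E)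

theorem kil_add (ad : E →L[ℝ] (E →L[ℝ] E)) (X X' Y : E) :
    Kil ad (X + X') Y = Kil ad X Y + Kil ad X' Y := by
  unfold Kil
  rw [map_add, ContinuousLinearMap.add_comp, ContinuousLinearMap.toLinearMap_add, map_add]

theorem kil_smul (ad : E →L[ℝ] (E →L[ℝ] E)) (r : ℝ) (X Y : E) :
    Kil ad (r • X) Y = r * Kil ad X Y := by
  unfold Kil
  rw [map_smul, ContinuousLinearMap.smul_comp, ContinuousLinearMap.toLinearMap_smul, map_smul,
    smul_eq_mul]

theorem part_mono (ad : E →L[ℝ] (E →L[ℝ] E)) (H : E) {s t : Set ℝ} (h : s ⊆ t) :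
    part ad H s ≤ part ad H t := by
  unfold part
  exact biSup_mono h

end

theorem fix (E : Type) [NormedAddCommGroup E] [NormedSpace ℝ E] [FiniteDimensional ℝ E]
    (G : Type) [TopologicalSpace G] [Group G] [IsTopologicalGroup G]
    (hJ : StmJAC E G) (_hE : StmEIG E) (_hP : StmPRT E) (_hB : StmBRK E) (hK : StmKIL E)
    (hT : StmTRV E G) (hL : StmALG E) : StmFIX E G := by
  intro _ Ad ad c hk hirr H hH hne a ha
  have : CompleteSpace E := FiniteDimensional.complete ℝ E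
  obtain ⟨hanti, hjac⟩ := hJ Ad ad c hk
  obtain ⟨hK1, hK2, hK3⟩ := hK ad H hH hanti hjac
  have hinv1 : ∀ g, (Ad g).comp (Ad g⁻¹) = ContinuousLinearMap.id ℝ E := by
    intro g
    rw [← hk.Ad_mul, mul_inv_cancel, hk.Ad_one]
  have hinv2 : ∀ g, (Ad g⁻¹).comp (Ad g) = ContinuousLinearMap.id ℝ E := by
    intro g
    rw [← hk.Ad_mul, inv_mul_cancel, hk.Ad_one]
  have hinv1' : ∀ g X, Ad g (Ad g⁻¹ X) = X := by
    intro g X
    have := congrArg (fun T : E →L[ℝ] E => T X) (hinv1 g)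
    simpa using this
  have hinv2' : ∀ g X, Ad g⁻¹ (Ad g X) = X := by
    intro g X
    have := congrArg (fun T : E →L[ℝ] E => T X) (hinv2 g)
    simpa using this
  -- (1)
  have hKAd : ∀ g X Y, Kil ad (Ad g X) (Ad g Y) = Kil ad X Y := by
    intro g X Y
    unfold Kil
    rw [hk.ad_Ad, hk.ad_Ad]
    have h1 : ((Ad g).comp ((ad X).comp (Ad g⁻¹))).comp ((Ad g).comp ((ad Y).comp (Ad g⁻¹)))
        = (Ad g).comp (((ad X).comp (ad Y)).comp (Ad g⁻¹)) := by
      ext Z
      simp only [ContinuousLinearMap.comp_apply, hinv2']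
    rw [h1]
    have h2 := LinearMap.trace_mul_comm ℝ ((Ad g : E →L[ℝ] E) : E →ₗ[ℝ] E)
      ((((ad X).comp (ad Y)).comp (Ad g⁻¹) : E →L[ℝ] E) : E →ₗ[ℝ] E)
    have h3 : ((((ad X).comp (ad Y)).comp (Ad g⁻¹) : E →L[ℝ] E) : E →ₗ[ℝ] E) *
        ((Ad g : E →L[ℝ] E) : E →ₗ[ℝ] E) = (((ad X).comp (ad Y) : E →L[ℝ] E) : E →ₗ[ℝ] E) := by
      ext Z
      simp only [Module.End.mul_apply, ContinuousLinearMap.coe_coe,
        ContinuousLinearMap.comp_apply, hinv2']
    rw [h3] at h2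
    exact h2
  -- (2)
  have hnd : ∀ X, (∀ Y, Kil ad X Y = 0) → X = 0 := by
    let R : Submodule ℝ E :=
      { carrier := {X | ∀ Y, Kil ad X Y = 0}
        add_mem' := by
          intro X X' h h' Y
          rw [kil_add, h Y, h' Y, add_zero]
        zero_mem' := by
          intro Y
          have := kil_smul ad 0 0 Y
          rwa [zero_smul, zero_mul] at this
        smul_mem' := by
          intro r X h Y
          rw [kil_smul, h Y, mul_zero] }
    have hR : ∀ g : G, ∀ X ∈ R, Ad g X ∈ R := by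
      intro g X hX Y
      have h1 := hKAd g X (Ad g⁻¹ Y)
      rw [hinv1'] at h1
      rw [h1]
      exact hX _
    rcases hirr R hR with h | h
    · intro X hX
      have : X ∈ R := hX
      rw [h] at this
      exact (Submodule.mem_bot ℝ).mp this
    · exfalso
      have h1 : H ∈ R := by rw [h]; trivial
      have h2 := hK3 (h1 H)
      apply hne
      rw [eq_top_iff, ← h2]
      apply part_mono
      rintro x rfl
      exact self_mem_Ici
  have hset : {r : ℝ | -r ∉ Ici (0 : ℝ)} = Ioi 0 := by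
    ext r
    simp only [mem_ofPred_eq, mem_Ici, mem_Ioi, not_le]
    constructor <;> intro h <;> linarith
  have hper : ∀ X : E, (∀ Y ∈ part ad H (Ici 0), Kil ad X Y = 0) ↔ X ∈ part ad H (Ioi 0) := by
    intro X
    have := hK2 hnd (Ici 0) X
    rwa [hset] at this
  -- (3)
  have h3 : ∀ g : G, (part ad H (Ici 0)).map (Ad g : E →ₗ[ℝ] E) = part ad H (Ici 0) →
      (part ad H (Ioi 0)).map (Ad g : E →ₗ[ℝ] E) = part ad H (Ioi 0) := by
    intro g hg
    apply le_antisymm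
    · rw [Submodule.map_le_iff_le_comap]
      intro X hX
      rw [Submodule.mem_comap, ← hper]
      intro Y hY
      rw [← hg] at hY
      obtain ⟨Y', hY', rfl⟩ := hY
      rw [ContinuousLinearMap.coe_coe, hKAd]
      exact (hper X).mpr hX Y' hY'
    · intro X hX
      refine ⟨Ad g⁻¹ X, ?_, hinv1' g X⟩
      rw [SetLike.mem_coe, ← hper]
      intro Y hY
      have h1 := hKAd g (Ad g⁻¹ X) Y
      rw [hinv1'] at h1
      rw [← h1]
      apply (hper X).mpr hX
      rw [← hg]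
      exact ⟨Y, hY, rfl⟩
  -- (4)
  have h4 : ∀ Z ∈ part ad H (Ioi 0), Ad a Z ∈ part ad H (Iic 0) → Z = 0 := by
    apply hT Ad ad c hk H hH a
    intro r X t hr hX
    have h1 := h3 _ (ha r X t hr hX)
    have h2 : c X t * a = a * (a⁻¹ * c X t * a) := by group
    rw [h2, hk.Ad_mul]
    have h5 : (((Ad a).comp (Ad (a⁻¹ * c X t * a)) : E →L[ℝ] E) : E →ₗ[ℝ] E)
        = ((Ad a : E →L[ℝ] E) : E →ₗ[ℝ] E).comp ((Ad (a⁻¹ * c X t * a) : E →L[ℝ] E) : E →ₗ[ℝ] E) :=
      rfl
    rw [h5, Submodule.map_comp, h1]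
  -- (5)
  have h5 : ∀ X ∈ part ad H (Ioi 0), ∀ Y ∈ part ad H (Ici 0),
      Ad a⁻¹ (ad X (Ad a Y)) ∈ part ad H (Ici 0) := by
    intro X hX Y hY
    let L : E →L[ℝ] E := (Ad a⁻¹).comp ((ContinuousLinearMap.apply ℝ E (Ad a Y)).comp ad)
    have hLX : ∀ X, L X = Ad a⁻¹ (ad X (Ad a Y)) := fun X => rfl
    have hle : part ad H (Ioi 0) ≤ (part ad H (Ici 0)).comap (L : E →ₗ[ℝ] E) := by
      unfold part
      refine iSup₂_le (fun r hr => ?_)
      intro X hX
      rw [Module.End.mem_eigenspace_iff] at hX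
      have hX' : ad H X = r • X := hX
      rw [Submodule.mem_comap]
      change L X ∈ part ad H (Ici 0)
      rw [hLX, ← Subspace.forall_mem_dualAnnihilator_apply_eq_zero_iff]
      intro φ hφ
      have hφ0 : ∀ w ∈ part ad H (Ici 0), φ w = 0 := (Submodule.mem_dualAnnihilator φ).mp hφ
      let Φ : E →L[ℝ] ℝ := LinearMap.toContinuousLinearMap φ
      have hΦ : ∀ w, Φ w = φ w := fun w => rfl
      -- the curve
      have hzero : ∀ t : ℝ, Φ (Ad a⁻¹ ((NormedSpace.exp (t • ad X) : E →L[ℝ] E) (Ad a Y))) = 0 := by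
        intro t
        rw [hΦ]
        apply hφ0
        have h1 := ha r X t hr hX'
        have h2 : Ad (a⁻¹ * c X t * a) Y ∈ part ad H (Ici 0) := by
          rw [← h1]
          exact ⟨Y, hY, rfl⟩
        rw [hk.Ad_mul, hk.Ad_mul, hk.Ad_c] at h2
        exact h2
      have hder : HasDerivAt (fun t : ℝ => (NormedSpace.exp (t • ad X) : E →L[ℝ] E)) (ad X) 0 := by
        have h1 := hasDerivAt_exp_smul_const (𝕂 := ℝ) (ad X) (0 : ℝ)
        simpa using h1
      have hder2 : HasDerivAt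
          (fun t : ℝ => Φ (Ad a⁻¹ ((NormedSpace.exp (t • ad X) : E →L[ℝ] E) (Ad a Y))))
          (Φ (Ad a⁻¹ (ad X (Ad a Y)))) 0 := by
        have h1 := (Φ.comp ((Ad a⁻¹).comp (ContinuousLinearMap.apply ℝ E (Ad a Y)))).hasFDerivAt
          (x := NormedSpace.exp ((0 : ℝ) • ad X))
        have h2 := h1.comp_hasDerivAt (0 : ℝ) hder
        exact h2
      have hder3 : HasDerivAt
          (fun t : ℝ => Φ (Ad a⁻¹ ((NormedSpace.exp (t • ad X) : E →L[ℝ] E) (Ad a Y)))) 0 0 := by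
        simp only [hzero]
        exact hasDerivAt_const _ _
      exact hder2.unique hder3
    exact hle hX
  -- (6)
  exact hL ad H hH hanti hjac hnd (Ad a) (Ad a⁻¹) (hinv1 a) (hinv2 a) (fun X => hk.ad_Ad a X) h5 h4

end Pool.Agent.T6.H55.ST.Fix
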