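import Pool.Agent.T6.H55.ST.Stm
import Pool.Agent.T6.H55.ST.Aid

/-!
Project ST, module GEN: the one-parameter subgroups in the directions of the eigenvectors with
nonzero eigenvalue generate the group.
-/

set_option autoImplicit false

open scoped Topology
open Set Filter

namespace Pool.Agent.T6.H55.ST

namespace ModGEN

variable {E : Type} [NormedAddCommGroup E] [NormedSpace ℝ E] [FiniteDimensional ℝ E]

/-- eigenvectors with nonzero eigenvalue -/
def G0 (ad : E →L[ℝ] (E →L[ℝ] E)) (H : E) : Set E := {X | ∃ r : ℝ, r ≠ 0 ∧ ad H X = r • X}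

/-- brackets of opposite eigenvectors -/
def G1 (ad : E →L[ℝ] (E →L[ℝ] E)) (H : E) : Set E :=
  {W | ∃ r : ℝ, r ≠ 0 ∧ ∃ X Y : E, ad H X = r • X ∧ ad H Y = (-r) • Y ∧ W = ad X Y}

variable {ad : E →L[ℝ] (E →L[ℝ] E)} {H : E}

omit [FiniteDimensional ℝ E] in
theorem deriv (hj : ∀ X Y, ad (ad X Y) = (ad X).comp (ad Y) - (ad Y).comp (ad X)) (Z X Y : E) :
    ad Z (ad X Y) = ad (ad Z X) Y + ad X (ad Z Y) := by
  rw [hj Z X]
  simp

omit [FiniteDimensional ℝ E] in
theorem eig_add (hj : ∀ X Y, ad (ad X Y) = (ad X).comp (ad Y) - (ad Y).comp (ad X)) {X Y : E}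
    {r s : ℝ} (hX : ad H X = r • X) (hY : ad H Y = s • Y) : ad H (ad X Y) = (r + s) • ad X Y := by
  rw [deriv hj, hX, hY]
  simp [add_smul]

omit [FiniteDimensional ℝ E] in
theorem stable_gen (hj : ∀ X Y, ad (ad X Y) = (ad X).comp (ad Y) - (ad Y).comp (ad X)) {Z : E}
    {m : ℝ} (hZ : ad H Z = m • Z) (W : E) (hW : W ∈ G0 ad H ∪ G1 ad H) :
    ad Z W ∈ Submodule.span ℝ (G0 ad H ∪ G1 ad H) := by
  rcases hW with ⟨r, hr, hX⟩ | ⟨r, hr, X, Y, hX, hY, rfl⟩
  · by_cases hmr : m + r = 0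
    · have hm : m ≠ 0 := by
        intro h0
        rw [h0, zero_add] at hmr
        exact hr hmr
      refine Submodule.subset_span (Or.inr ⟨m, hm, Z, W, hZ, ?_, rfl⟩)
      rw [hX]
      congr 1
      linarith
    · exact Submodule.subset_span (Or.inl ⟨m + r, hmr, eig_add hj hZ hX⟩)
  · by_cases hm : m = 0
    · rw [deriv hj]
      rw [hm] at hZ
      refine Submodule.add_mem _ ?_ ?_
      · refine Submodule.subset_span (Or.inr ⟨r, hr, ad Z X, Y, ?_, hY, rfl⟩)
        have := eig_add hj hZ hX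
        rwa [zero_add] at this
      · refine Submodule.subset_span (Or.inr ⟨r, hr, X, ad Z Y, hX, ?_, rfl⟩)
        have := eig_add hj hZ hY
        rwa [zero_add] at this
    · have h1 := eig_add hj hX hY
      have h2 := eig_add hj hZ h1
      refine Submodule.subset_span (Or.inl ⟨m, hm, ?_⟩)
      rw [h2]
      congr 1
      ring

theorem stable (hj : ∀ X Y, ad (ad X Y) = (ad X).comp (ad Y) - (ad Y).comp (ad X)) {n : ℕ}
    (b : Module.Basis (Fin n) ℝ E) (l : Fin n → ℝ) (hb : Eig ad H b l) (Z : E) :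
    ∀ W ∈ Submodule.span ℝ (G0 ad H ∪ G1 ad H), ad Z W ∈ Submodule.span ℝ (G0 ad H ∪ G1 ad H) := by
  intro W hW
  have hbas : ∀ i, ad (b i) W ∈ Submodule.span ℝ (G0 ad H ∪ G1 ad H) := by
    intro i
    induction hW using Submodule.span_induction with
    | mem x hx => exact stable_gen hj (hb.eig i) x hx
    | zero => simp
    | add x y _ _ hx hy => rw [map_add]; exact Submodule.add_mem _ hx hy
    | smul a x _ hx => rw [map_smul]; exact Submodule.smul_mem _ _ hx
  rw [← b.sum_repr Z, map_sum]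
  simp only [map_smul, ContinuousLinearMap.sum_apply, ContinuousLinearMap.smul_apply]
  exact Submodule.sum_mem _ fun i _ => Submodule.smul_mem _ _ (hbas i)

/-- derivative of a curve of operators preserving a subspace -/
theorem deriv_mem (A : E →L[ℝ] E) (v : Submodule ℝ E)
    (h : ∀ t : ℝ, ∀ Z ∈ v, (NormedSpace.exp (t • A) : E →L[ℝ] E) Z ∈ v) : ∀ Z ∈ v, A Z ∈ v := by
  intro Z hZ
  have h1 := hasDerivAt_exp_smul_const (𝕂 := ℝ) A (0 : ℝ)
  rw [zero_smul, NormedSpace.exp_zero, one_mul] at h1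
  have h2 : HasDerivAt (fun u : ℝ => (NormedSpace.exp (u • A) : E →L[ℝ] E) Z) (A Z) 0 := by
    have h3 := h1.clm_apply (hasDerivAt_const (0:ℝ) Z)
    simpa using h3
  rw [hasDerivAt_iff_tendsto_slope] at h2
  have hcl : IsClosed (v : Set E) := Submodule.closed_of_finiteDimensional v
  refine hcl.mem_of_tendsto h2 (Eventually.of_forall fun t => ?_)
  rw [slope_def_module]
  refine v.smul_mem _ (v.sub_mem (h t Z hZ) (h 0 Z hZ))

end ModGEN

open ModGEN in
theorem gen (E : Type) [NormedAddCommGroup E] [NormedSpace ℝ E] [FiniteDimensional ℝ E]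
    (G : Type) [TopologicalSpace G] [Group G] [IsTopologicalGroup G]
    (hJ : StmJAC E G) (hA : StmAID E G) (hE : StmEIG E) (hP : StmPRT E) (_hB : StmBRK E) :
    StmGEN E G := by
  classical
  intro _ Ad ad c hk hirr H hH hne
  obtain ⟨hanti, hj⟩ := hJ Ad ad c hk
  obtain ⟨n, b, l, hb⟩ := hE ad H hH
  obtain ⟨i, hi⟩ : ∃ i, l i < 0 := by
    by_contra hcon
    push Not at hcon
    refine hne (eq_top_iff.2 fun X _ => ?_)
    rw [(hP ad H n b l hb).2.1]
    intro i hi
    exact absurd (hcon i) hi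
  have hbi : b i ≠ 0 := b.ne_zero i
  have hbG : b i ∈ G0 ad H := ⟨l i, hi.ne, hb.eig i⟩
  have hJtop : Submodule.span ℝ (G0 ad H ∪ G1 ad H) = ⊤ := by
    rcases hirr _ (fun g X hX => hA Ad ad c hk _ (stable hj b l hb) g X hX) with h0 | h0
    · exfalso
      have h1 : b i ∈ Submodule.span ℝ (G0 ad H ∪ G1 ad H) :=
        Submodule.subset_span (Or.inl hbG)
      rw [h0, Submodule.mem_bot] at h1
      exact hbi h1
    · exact h0
  set S := Subgroup.closure {g : G | ∃ r : ℝ, r ≠ 0 ∧ ∃ X : E, ad H X = r • X ∧ ∃ t : ℝ, g = c X t}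
    with hS
  set C : Set E := {X | ∀ t, c X t ∈ S} with hC
  have hG0C : G0 ad H ⊆ C := by
    rintro X ⟨r, hr, hX⟩ t
    exact Subgroup.subset_closure ⟨r, hr, X, hX, t, rfl⟩
  set v := Submodule.span ℝ C with hv
  have hAdv : ∀ s ∈ S, ∀ Z ∈ v, Ad s Z ∈ v := by
    intro s hs Z hZ
    induction hZ using Submodule.span_induction with
    | mem x hx =>
      refine Submodule.subset_span fun t => ?_
      rw [← hk.c_conj]
      exact S.mul_mem (S.mul_mem hs (hx t)) (S.inv_mem hs)
    | zero => simp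
    | add x y _ _ hx hy => rw [map_add]; exact Submodule.add_mem _ hx hy
    | smul a x _ hx => rw [map_smul]; exact Submodule.smul_mem _ _ hx
  have hadv : ∀ Y ∈ G0 ad H, ∀ Z ∈ v, ad Y Z ∈ v := by
    intro Y hY
    refine deriv_mem (ad Y) v fun t Z hZ => ?_
    rw [← hk.Ad_c]
    exact hAdv _ (hG0C hY t) Z hZ
  have hall : ∀ Y, ∀ Z ∈ v, ad Y Z ∈ v := by
    intro Y
    have hY : Y ∈ Submodule.span ℝ (G0 ad H ∪ G1 ad H) := by rw [hJtop]; trivial
    induction hY using Submodule.span_induction with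
    | mem x hx =>
      rcases hx with hx | ⟨r, hr, X, Y, hX, hY, rfl⟩
      · exact hadv x hx
      · intro Z hZ
        have h1 : ∀ Z ∈ v, ad X Z ∈ v := hadv X ⟨r, hr, hX⟩
        have h2 : ∀ Z ∈ v, ad Y Z ∈ v := hadv Y ⟨-r, neg_ne_zero.2 hr, hY⟩
        rw [hj]
        simp only [ContinuousLinearMap.sub_apply, ContinuousLinearMap.comp_apply]
        exact v.sub_mem (h1 _ (h2 _ hZ)) (h2 _ (h1 _ hZ))
    | zero => intro Z _; simp
    | add x y _ _ hx hy =>
      intro Z hZ
      rw [map_add, ContinuousLinearMap.add_apply]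
      exact v.add_mem (hx Z hZ) (hy Z hZ)
    | smul a x _ hx =>
      intro Z hZ
      rw [map_smul, ContinuousLinearMap.smul_apply]
      exact v.smul_mem _ (hx Z hZ)
  have hvtop : v = ⊤ := by
    rcases hirr v (fun g X hX => hA Ad ad c hk v hall g X hX) with h0 | h0
    · exfalso
      have h1 : b i ∈ v := Submodule.subset_span (hG0C hbG)
      rw [h0, Submodule.mem_bot] at h1
      exact hbi h1
    · exact h0
  obtain ⟨B, hBC, hBs, hBl⟩ := exists_linearIndependent ℝ C
  have hBs' : ⊤ ≤ Submodule.span ℝ (Set.range (Subtype.val : B → E)) := by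
    rw [Subtype.range_coe, hBs, ← hv, hvtop]
  set bB := Module.Basis.mk hBl hBs' with hbB
  have hfin : Finite B := Module.Finite.finite_basis bB
  have _i := Fintype.ofFinite B
  set e := Fintype.equivFin B
  refine ModAID.kit_top hk S (bB.reindex e) fun j t => ?_
  have h1 : (bB.reindex e) j = ((e.symm j : B) : E) := by
    rw [Module.Basis.reindex_apply, hbB, Module.Basis.mk_apply]
  rw [h1]
  exact hBC (e.symm j).2 t

end Pool.Agent.T6.H55.ST
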