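import Pool.Agent.T6.H55.ST.Stm

/-! Module JAC (helper24): antisymmetry and the Jacobi identity. -/

set_option autoImplicit false

open scoped Manifold ContDiff Topology
open MeasureTheory Set Filter

namespace Pool.Agent.T6.H55.ST

theorem jac (E : Type) [NormedAddCommGroup E] [NormedSpace ℝ E] [FiniteDimensional ℝ E]
    (G : Type) [TopologicalSpace G] [Group G] [IsTopologicalGroup G] : StmJAC E G := by
  intro Ad ad c hK
  refine ⟨fun X Y => ?_, fun X Y => ?_⟩
  · have h := hK.ad_self (X + Y)
    have h1 : ad (X + Y) (X + Y) = ad X X + ad Y X + (ad X Y + ad Y Y) := by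
      rw [map_add (ad (X + Y)) X Y, map_add ad X Y]
      rfl
    rw [h1, hK.ad_self X, hK.ad_self Y, zero_add, add_zero, add_comm] at h
    exact eq_neg_of_add_eq_zero_left h
  · have : CompleteSpace (E →L[ℝ] E) := by
      have : CompleteSpace E := FiniteDimensional.complete ℝ E
      infer_instance
    have hinv : ∀ t, (c X t)⁻¹ = c X (-t) := by
      intro t
      have h := hK.c_add X t (-t)
      rw [add_neg_cancel, hK.c_zero] at h
      exact inv_eq_of_mul_eq_one_right h.symm
    have hmain : ∀ t : ℝ, ad (NormedSpace.exp (t • ad X) Y) =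
        NormedSpace.exp (t • ad X) * (ad Y * NormedSpace.exp ((-t) • ad X)) := by
      intro t
      have h := hK.ad_Ad (c X t) Y
      rw [hinv, hK.Ad_c, hK.Ad_c] at h
      exact h
    have hd : HasDerivAt (fun t : ℝ => NormedSpace.exp (t • ad X)) (ad X) 0 := by
      have h := hasDerivAt_exp_smul_const (𝕂 := ℝ) (ad X) (0 : ℝ)
      rwa [zero_smul, NormedSpace.exp_zero, one_mul] at h
    have hd' : HasDerivAt (fun t : ℝ => NormedSpace.exp ((-t) • ad X)) (-ad X) 0 := by
      have h0 : HasDerivAt (fun t : ℝ => NormedSpace.exp (t • ad X)) (ad X) (-0) := by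
        rw [neg_zero]
        exact hd
      have h := h0.scomp (0 : ℝ) (hasDerivAt_neg (0 : ℝ))
      rw [neg_one_smul] at h
      exact h
    have hL : HasDerivAt (fun t : ℝ => ad (NormedSpace.exp (t • ad X) Y)) (ad (ad X Y)) 0 := by
      have h1 : HasDerivAt (fun t : ℝ => NormedSpace.exp (t • ad X) Y) (ad X Y) 0 :=
        ((ContinuousLinearMap.apply ℝ E Y).hasFDerivAt.comp_hasDerivAt (0 : ℝ) hd)
      exact (ad.hasFDerivAt.comp_hasDerivAt (0 : ℝ) h1)
    have hR : HasDerivAt (fun t : ℝ => NormedSpace.exp (t • ad X) *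
        (ad Y * NormedSpace.exp ((-t) • ad X))) (ad X * ad Y - ad Y * ad X) 0 := by
      have h := hd.mul (hd'.const_mul (ad Y))
      simp only [neg_zero, zero_smul, NormedSpace.exp_zero, mul_one, one_mul, mul_neg] at h
      rw [← sub_eq_add_neg] at h
      exact h
    have hfun : (fun t : ℝ => ad (NormedSpace.exp (t • ad X) Y)) = fun t : ℝ =>
        NormedSpace.exp (t • ad X) * (ad Y * NormedSpace.exp ((-t) • ad X)) := funext hmain
    rw [hfun] at hL
    exact hL.unique hR

end Pool.Agent.T6.H55.ST
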