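import Pool.Agent.T6.H55.ST.Stm

/-!
# The Killing form and the parts
-/

set_option autoImplicit false

namespace Pool.Agent.T6.H55.ST
namespace ModKIL

variable {E : Type} [NormedAddCommGroup E] [NormedSpace ℝ E]

lemma kil_add_left (ad : E →L[ℝ] (E →L[ℝ] E)) (X X' Y : E) :
    Kil ad (X + X') Y = Kil ad X Y + Kil ad X' Y := by
  rw [Kil, Kil, Kil, ← map_add]
  congr 1
  ext Z
  simp

lemma kil_add_right (ad : E →L[ℝ] (E →L[ℝ] E)) (X Y Y' : E) :
    Kil ad X (Y + Y') = Kil ad X Y + Kil ad X Y' := by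
  rw [Kil, Kil, Kil, ← map_add]
  congr 1
  ext Z
  simp

lemma kil_eq (ad : E →L[ℝ] (E →L[ℝ] E)) {n : ℕ} (b : Module.Basis (Fin n) ℝ E) (X Y : E) :
    Kil ad X Y = ∑ k, b.repr (ad X (ad Y (b k))) k := by
  rw [Kil, LinearMap.trace_eq_matrix_trace ℝ b, Matrix.trace]
  refine Finset.sum_congr rfl fun k _ => ?_
  rw [Matrix.diag_apply, LinearMap.toMatrix_apply]
  rfl

end ModKIL

open ModKIL

/-- KIL: the Killing form and the parts. -/
theorem kil (E : Type) [NormedAddCommGroup E] [NormedSpace ℝ E] [FiniteDimensional ℝ E]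
    (hE : StmEIG E) (hP : StmPRT E) (hB : StmBRK E) : StmKIL E := by
  intro ad H hH hanti hJac
  obtain ⟨n, b, l, hb⟩ := hE ad H hH
  obtain ⟨h1, h2, h3⟩ := hP ad H n b l hb
  have hbk : ∀ k, b k ∈ part ad H {l k} := fun k => (h3 _ _).2 (hb.eig k)
  have part1 : ∀ s t : Set ℝ, (∀ x ∈ s, ∀ y ∈ t, x + y ≠ 0) →
      ∀ X ∈ part ad H s, ∀ Y ∈ part ad H t, Kil ad X Y = 0 := by
    intro s t hst X hX Y hY
    rw [kil_eq ad b]
    refine Finset.sum_eq_zero fun k _ => ?_
    have e1 : ad Y (b k) ∈ part ad H {z | ∃ y ∈ t, z = y + l k} :=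
      hB ad H hH hanti hJac t {l k} _ (by rintro x hx _ rfl; exact ⟨x, hx, rfl⟩) Y hY _ (hbk k)
    have e2 : ad X (ad Y (b k)) ∈ part ad H {z | ∃ x ∈ s, ∃ y ∈ t, z = x + (y + l k)} :=
      hB ad H hH hanti hJac s _ _ (by rintro x hx _ ⟨y, hy, rfl⟩; exact ⟨x, hx, y, hy, rfl⟩)
        X hX _ e1
    refine (h2 _ _).1 e2 k ?_
    rintro ⟨x, hx, y, hy, h⟩
    exact hst x hx y hy (by linarith)
  have dec : ∀ (r : ℝ) (Z : E), ∃ Z1 ∈ part ad H {r}, ∃ Z2 ∈ part ad H {r}ᶜ, Z = Z1 + Z2 ∧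
      ∀ i, l i = r → b.repr Z1 i = b.repr Z i := by
    intro r Z
    classical
    refine ⟨b.equivFun.symm fun j => if l j = r then b.repr Z j else 0, ?_,
      b.equivFun.symm fun j => if l j = r then 0 else b.repr Z j, ?_, ?_, ?_⟩
    · rw [h2]
      intro i hi
      rw [← b.equivFun_apply, LinearEquiv.apply_symm_apply]
      exact if_neg hi
    · rw [h2]
      intro i hi
      rw [← b.equivFun_apply, LinearEquiv.apply_symm_apply]
      exact if_pos (not_not.1 hi)
    · rw [← map_add, LinearEquiv.eq_symm_apply]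
      ext j
      rw [b.equivFun_apply, Pi.add_apply]
      split_ifs <;> simp
    · intro i hi
      rw [← b.equivFun_apply, LinearEquiv.apply_symm_apply]
      exact if_pos hi
  refine ⟨part1, fun hnd s X => ⟨fun h => ?_, fun h Y hY => ?_⟩, fun h0 => ?_⟩
  · rw [h2]
    intro i hi
    have hi' : -(l i) ∈ s := not_not.1 hi
    obtain ⟨X1, hX1, X2, hX2, hX, hrep⟩ := dec (l i) X
    rw [← hrep i rfl]
    have hX10 : X1 = 0 := by
      refine hnd X1 fun Y => ?_
      obtain ⟨Y1, hY1, Y2, hY2, hY, _⟩ := dec (-(l i)) Y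
      have a1 : Kil ad X1 Y2 = 0 := part1 _ _ (by
        rintro _ rfl y hy h
        exact hy (show y = -(l i) by linarith)) X1 hX1 Y2 hY2
      have a2 : Kil ad X2 Y1 = 0 := part1 _ _ (by
        rintro x hx _ rfl h
        exact hx (show x = l i by linarith)) X2 hX2 Y1 hY1
      have a3 : Kil ad X Y1 = 0 := by
        refine h Y1 ?_
        rw [h2] at hY1 ⊢
        refine fun j hj => hY1 j ?_
        rintro h
        exact hj (h ▸ hi')
      rw [hX, kil_add_left, a2, add_zero] at a3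
      rw [hY, kil_add_right, a1, a3, add_zero]
    rw [hX10, map_zero, Finsupp.zero_apply]
  · refine part1 _ _ ?_ X h Y hY
    intro x hx y hy hxy
    refine hx (show -x ∈ s from ?_)
    have : y = -x := by linarith
    rw [← this]
    exact hy
  · rw [kil_eq ad b] at h0
    have e : ∀ k, b.repr (ad H (ad H (b k))) k = l k ^ 2 := by
      intro k
      rw [hb.eig k, map_smul, hb.eig k, map_smul, map_smul]
      simp [sq]
    rw [Finset.sum_congr rfl fun k _ => e k] at h0
    have hl : ∀ k, l k = 0 := by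
      intro k
      have := (Finset.sum_eq_zero_iff_of_nonneg fun k _ => sq_nonneg (l k)).1 h0 k
        (Finset.mem_univ k)
      exact pow_eq_zero_iff (two_ne_zero) |>.1 this
    rw [eq_top_iff]
    intro X _
    rw [h2]
    intro i hi
    exact absurd (hl i) hi

end Pool.Agent.T6.H55.ST
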