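import Pool.Agent.T6.H55.ST.Stm

/-!
# Project ST, module KIT
-/

set_option autoImplicit false

open scoped Manifold ContDiff Topology
open MeasureTheory Set Filter

namespace Pool.Agent.T6.H55.ST

namespace ModKIT

variable {E : Type} [NormedAddCommGroup E] [NormedSpace ℝ E] [CompleteSpace E]

/-- The derivative of the exponential at zero. -/
theorem deriv_exp (A : E →L[ℝ] E) :
    HasDerivAt (fun t : ℝ => (NormedSpace.exp (t • A) : E →L[ℝ] E)) A 0 := by
  have h := hasDerivAt_exp_smul_const (𝕂 := ℝ) A (0 : ℝ)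
  simpa using h

end ModKIT

open ModKIT in
theorem kit (E : Type) [NormedAddCommGroup E] [NormedSpace ℝ E] [FiniteDimensional ℝ E]
    (G : Type) [TopologicalSpace G] [ChartedSpace E G] [Group G] [LieGroup 𝓘(ℝ, E) ∞ G] [T2Space G]
    (h1 : StmOPS E G) (h2 : StmUNI E G) (h3 : StmADS E G) (h4 : StmADC E G) (h5 : StmCOO E G) :
    StmKIT E G := by
  classical
  haveI := FiniteDimensional.complete ℝ E
  choose c hc using h1
  obtain ⟨a1, a2, a3⟩ := h4
  obtain ⟨s1, s2, s3⟩ := h3
  have hconj : ∀ g X t, g * c X t * g⁻¹ = c (Ad E g X) t := fun g X t =>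
    congrFun (h2 _ _ _ (a1 X (c X) (hc X) g) (hc _)) t
  have hsmul : ∀ (X : E) (r t : ℝ), c (r • X) t = c X (r * t) := fun X r t =>
    congrFun (h2 _ _ _ (hc _) (a2 X (c X) (hc X) r)) t
  have hadd : ∀ X s t, c X (s + t) = c X s * c X t := fun X => (hc X).2.2.1
  have hAdc : ∀ X t, Ad E (c X t) = NormedSpace.exp (t • ad E G X) := fun X t =>
    a3 X (c X) (hc X) t
  refine ⟨c, hc, ?_⟩
  refine
    { c_zero := fun X => (hc X).2.1
      c_add := hadd
      c_smul := hsmul
      c_cont := fun X => (hc X).1.continuous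
      c_conj := hconj
      Ad_one := s2
      Ad_mul := s3
      Ad_cont := s1.continuous
      Ad_c := hAdc
      ad_Ad := ?_
      ad_self := ?_
      nhd := ?_ }
  · intro g X
    have e : ∀ t : ℝ, (NormedSpace.exp (t • ad E G (Ad E g X)) : E →L[ℝ] E) =
        Ad E g * NormedSpace.exp (t • ad E G X) * Ad E g⁻¹ := by
      intro t
      rw [← hAdc, ← hAdc, ← hconj, s3, s3]
      rfl
    have d1 := deriv_exp (ad E G (Ad E g X))
    have d2 := ((deriv_exp (ad E G X)).const_mul (Ad E g)).mul_const (Ad E g⁻¹)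
    have d3 : HasDerivAt (fun t : ℝ => (NormedSpace.exp (t • ad E G (Ad E g X)) : E →L[ℝ] E))
        (Ad E g * ad E G X * Ad E g⁻¹) 0 := by
      refine d2.congr_of_eventuallyEq (Eventually.of_forall fun t => ?_)
      exact e t
    have := d1.unique d3
    rw [this]
    rfl
  · intro X
    have e : ∀ s : ℝ, (NormedSpace.exp (s • ad E G X) : E →L[ℝ] E) X = X := by
      intro s
      rw [← hAdc]
      have h : c (Ad E (c X s) X) = c X := by
        funext t
        rw [← hconj, ← hadd, add_comm, hadd, mul_inv_cancel_right]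
      have h' := (hc (Ad E (c X s) X)).2.2.2
      rw [h] at h'
      rw [← h', (hc X).2.2.2]
    have d1 : HasDerivAt (fun s : ℝ => (NormedSpace.exp (s • ad E G X) : E →L[ℝ] E) X)
        (ad E G X X) 0 := by
      have := (deriv_exp (ad E G X)).clm_apply (hasDerivAt_const (0 : ℝ) X)
      simpa using this
    have d2 : HasDerivAt (fun s : ℝ => (NormedSpace.exp (s • ad E G X) : E →L[ℝ] E) X)
        (0 : E) 0 := by
      refine (hasDerivAt_const (0 : ℝ) X).congr_of_eventuallyEq (Eventually.of_forall fun t => ?_)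
      exact e t
    exact d1.unique d2
  · intro n b O hO
    obtain ⟨t, ht, ht0, hev⟩ := h5 c hc n b
    have hO' : t ⁻¹' O ∈ 𝓝 (1 : G) := ht.continuousAt.preimage_mem_nhds (by rw [ht0]; exact hO)
    filter_upwards [hev, hO'] with g hg hgO
    exact ⟨t g, hgO, hg.symm⟩

end Pool.Agent.T6.H55.ST
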