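import Pool.Agent.T6.H55.ST.Stm

/-!
# Project ST, module MAU
-/

set_option autoImplicit false

open scoped Topology
open MeasureTheory Set Filter

namespace Pool.Agent.T6.H55.ST.Mau

open Pool.Agent.T6.H55.ST

/-- an invariant nonzero measure of a transitive action on a second countable space charges open
sets. -/
theorem openPos {X G : Type*} [Group G] [TopologicalSpace X] [SecondCountableTopology X]
    [MeasurableSpace X] [MulAction G X] [ContinuousConstSMul G X]
    [MulAction.IsPretransitive G X] (μ : Measure X) (hμ : μ univ ≠ 0)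
    (hinv : ∀ (g : G) (s : Set X), IsOpen s → μ ((fun x : X => g • x) ⁻¹' s) = μ s) :
    μ.IsOpenPosMeasure := by
  refine ⟨fun V hV hne h0 => hμ ?_⟩
  obtain ⟨T, hT, hTu⟩ := TopologicalSpace.isOpen_iUnion_countable
    (fun g : G => (fun x : X => g • x) ⁻¹' V) (fun g => hV.preimage (continuous_const_smul g))
  have hcov : (⋃ g : G, (fun x : X => g • x) ⁻¹' V) = univ := by
    rw [eq_univ_iff_forall]
    intro x
    obtain ⟨v, hv⟩ := hne
    obtain ⟨g, hg⟩ := MulAction.exists_smul_eq G x v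
    rw [mem_iUnion]
    exact ⟨g, by rw [mem_preimage, hg]; exact hv⟩
  rw [← hcov, ← hTu]
  rw [measure_biUnion_null_iff hT]
  intro g _
  rw [hinv g V hV, h0]

section

variable {G : Type} [Group G] {Γ : Subgroup G}

/-- the integrand. -/
noncomputable def Ph (F : G → ℝ) (k : G) (x : G ⧸ Γ) : ℝ :=
  |F ((Quotient.out x)⁻¹ * k) - F (Quotient.out x)⁻¹|

theorem Ph_mk {F : G → ℝ} (hF : ∀ γ ∈ Γ, ∀ g, F (γ * g) = F g) (k g : G) :
    Ph F k (g : G ⧸ Γ) = |F (g⁻¹ * k) - F g⁻¹| := by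
  obtain ⟨h, hh⟩ := QuotientGroup.mk_out_eq_mul Γ g
  unfold Ph
  have h1 : Quotient.out (g : G ⧸ Γ) = g * h := hh
  rw [h1, mul_inv_rev, mul_assoc, hF _ (Γ.inv_mem h.2), hF _ (Γ.inv_mem h.2)]

theorem Ph_cont [TopologicalSpace G] [IsTopologicalGroup G] {F : G → ℝ} (hF : ∀ γ ∈ Γ, ∀ g, F (γ * g) = F g)
    (hFc : Continuous F) (k : G) : Continuous (Ph (Γ := Γ) F k) := by
  rw [(QuotientGroup.isQuotientMap_mk Γ).continuous_iff]
  have h : (Ph (Γ := Γ) F k) ∘ (QuotientGroup.mk : G → G ⧸ Γ)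
      = fun g => |F (g⁻¹ * k) - F g⁻¹| := by
    funext g
    exact Ph_mk hF k g
  rw [h]
  fun_prop

end

theorem mau (G : Type) [TopologicalSpace G] [Group G] [IsTopologicalGroup G] : StmMAU G := by
  intro _ _ Γ hΓ F a U V hFc hFb hFΓ hFU hU hV hcl
  obtain ⟨-, μ, hμ0, hμt, hinv⟩ := hΓ
  let _ : MeasurableSpace (G ⧸ Γ) := borel (G ⧸ Γ)
  have : BorelSpace (G ⧸ Γ) := ⟨rfl⟩
  have : IsFiniteMeasure μ := ⟨lt_top_iff_ne_top.mpr hμt⟩
  have : μ.IsOpenPosMeasure := openPos μ hμ0 (fun g s hs => hinv g s hs.measurableSet)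
  obtain ⟨C, hC⟩ := hFb
  have hMP : ∀ g : G, MeasurePreserving (fun x : G ⧸ Γ => g • x) μ μ := by
    intro g
    refine ⟨(continuous_const_smul g).measurable, ?_⟩
    ext s hs
    rw [Measure.map_apply (continuous_const_smul g).measurable hs]
    exact hinv g s hs
  have hΦc : ∀ k, Continuous (Ph (Γ := Γ) F k) := fun k => Ph_cont hFΓ hFc k
  have hΦ0 : ∀ k (x : G ⧸ Γ), 0 ≤ Ph F k x := fun k x => abs_nonneg _
  have hΦb : ∀ k (x : G ⧸ Γ), Ph F k x ≤ 2 * C := by
    intro k x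
    unfold Ph
    have h1 := hC ((Quotient.out x)⁻¹ * k)
    have h2 := hC (Quotient.out x)⁻¹
    have h3 := abs_sub (F ((Quotient.out x)⁻¹ * k)) (F (Quotient.out x)⁻¹)
    linarith
  have hΦi : ∀ k, Integrable (Ph (Γ := Γ) F k) μ := by
    intro k
    refine Integrable.mono' (integrable_const (2 * C)) (hΦc k).aestronglyMeasurable ?_
    filter_upwards with x
    rw [Real.norm_of_nonneg (hΦ0 k x)]
    exact hΦb k x
  set D : G → ℝ := fun k => ∫ x, Ph (Γ := Γ) F k x ∂μ with hD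
  have hD0 : ∀ k, 0 ≤ D k := fun k => integral_nonneg (hΦ0 k)
  have hcomp : ∀ (g k : G), ∫ x, Ph (Γ := Γ) F k (g • x) ∂μ = D k := by
    intro g k
    have h1 := integral_map (μ := μ) (φ := fun x : G ⧸ Γ => g • x) (hMP g).measurable.aemeasurable
      (f := Ph (Γ := Γ) F k) (hΦc k).aestronglyMeasurable
    rw [(hMP g).map_eq] at h1
    exact h1.symm
  have hci : ∀ (g k : G), Integrable (fun x => Ph (Γ := Γ) F k (g • x)) μ := by
    intro g k
    exact (hMP g).integrable_comp_of_integrable (hΦi k)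
  -- (1)
  have hmul : ∀ k₁ k₂, D (k₁ * k₂) ≤ D k₁ + D k₂ := by
    intro k₁ k₂
    have h1 : ∀ x : G ⧸ Γ, Ph F (k₁ * k₂) x ≤ Ph F k₁ x + Ph F k₂ (k₁⁻¹ • x) := by
      intro x
      induction x using QuotientGroup.induction_on with
      | H g =>
        have h2 : k₁⁻¹ • (g : G ⧸ Γ) = ((k₁⁻¹ * g : G) : G ⧸ Γ) := rfl
        rw [h2, Ph_mk hFΓ, Ph_mk hFΓ, Ph_mk hFΓ]
        have h3 : (k₁⁻¹ * g)⁻¹ = g⁻¹ * k₁ := by group
        rw [h3, ← mul_assoc]
        have h4 := abs_add_le (F (g⁻¹ * k₁) - F g⁻¹) (F (g⁻¹ * k₁ * k₂) - F (g⁻¹ * k₁))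
        have h5 : F (g⁻¹ * k₁) - F g⁻¹ + (F (g⁻¹ * k₁ * k₂) - F (g⁻¹ * k₁))
            = F (g⁻¹ * k₁ * k₂) - F g⁻¹ := by ring
        rw [h5] at h4
        exact h4
    calc D (k₁ * k₂) ≤ ∫ x, (Ph (Γ := Γ) F k₁ x + Ph F k₂ (k₁⁻¹ • x)) ∂μ :=
          integral_mono (hΦi _) ((hΦi k₁).add (hci k₁⁻¹ k₂)) h1
      _ = D k₁ + D k₂ := by
          rw [integral_add (hΦi k₁) (hci k₁⁻¹ k₂), hcomp]
  have hinvD : ∀ k, D k⁻¹ = D k := by
    intro k
    rw [← hcomp k⁻¹ k⁻¹]
    apply integral_congr_ae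
    filter_upwards with x
    induction x using QuotientGroup.induction_on with
    | H g =>
      have h2 : k⁻¹ • (g : G ⧸ Γ) = ((k⁻¹ * g : G) : G ⧸ Γ) := rfl
      rw [h2, Ph_mk hFΓ, Ph_mk hFΓ]
      have h3 : (k⁻¹ * g)⁻¹ * k⁻¹ = g⁻¹ := by group
      have h4 : (k⁻¹ * g)⁻¹ = g⁻¹ * k := by group
      rw [h3, h4, abs_sub_comm]
  have hone : D 1 = 0 := by
    have : ∀ x : G ⧸ Γ, Ph F 1 x = 0 := by
      intro x
      unfold Ph
      rw [mul_one, sub_self, abs_zero]
    rw [hD]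
    simp only [this, integral_zero]
  -- (2)
  have hlim : ∀ k : ℕ → G, Tendsto k atTop (𝓝 1) → Tendsto (fun n => D (k n)) atTop (𝓝 0) := by
    intro k hk
    have h1 := tendsto_integral_of_dominated_convergence (μ := μ)
      (F := fun n x => Ph (Γ := Γ) F (k n) x) (f := fun _ => (0 : ℝ)) (fun _ => 2 * C)
      (fun n => (hΦc (k n)).aestronglyMeasurable) (integrable_const _)
      (fun n => by
        filter_upwards with x
        rw [Real.norm_of_nonneg (hΦ0 _ x)]
        exact hΦb _ x)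
      (by
        filter_upwards with x
        unfold Ph
        have h2 : Tendsto (fun n => F ((Quotient.out x)⁻¹ * k n)) atTop
            (𝓝 (F ((Quotient.out x)⁻¹ * 1))) :=
          (hFc.tendsto _).comp (tendsto_const_nhds.mul hk)
        rw [mul_one] at h2
        have h3 := (h2.sub_const (F (Quotient.out x)⁻¹)).abs
        rw [sub_self, abs_zero] at h3
        exact h3)
    rw [integral_zero] at h1
    exact h1
  -- (3)
  have hDU : ∀ u ∈ U, D u = 0 := by
    intro u hu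
    have : ∀ x : G ⧸ Γ, Ph F u x = 0 := by
      intro x
      unfold Ph
      rw [hFU u hu, sub_self, abs_zero]
    rw [hD]
    simp only [this, integral_zero]
  -- (4)
  have hT : ∀ k : G, Tendsto (fun n : ℕ => D (a ^ n * k * (a ^ n)⁻¹)) atTop (𝓝 0) := by
    intro k
    have hk : k ∈ Subgroup.closure (U ∪ V) := by rw [hcl]; trivial
    induction hk using Subgroup.closure_induction with
    | mem x hx =>
      rcases hx with hx | hx
      · have : ∀ n : ℕ, D (a ^ n * x * (a ^ n)⁻¹) = 0 := fun n => hDU _ (hU x hx n)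
        simp only [this]
        exact tendsto_const_nhds
      · exact hlim _ (hV x hx)
    | one =>
      have : ∀ n : ℕ, D (a ^ n * 1 * (a ^ n)⁻¹) = 0 := by
        intro n
        rw [mul_one, mul_inv_cancel, hone]
      simp only [this]
      exact tendsto_const_nhds
    | mul x y _ _ hx hy =>
      have h1 := hx.add hy
      rw [add_zero] at h1
      refine squeeze_zero (fun n => hD0 _) (fun n => ?_) h1
      have h2 : a ^ n * (x * y) * (a ^ n)⁻¹
          = (a ^ n * x * (a ^ n)⁻¹) * (a ^ n * y * (a ^ n)⁻¹) := by group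
      rw [h2]
      exact hmul _ _
    | inv x _ hx =>
      refine hx.congr (fun n => ?_)
      have h2 : a ^ n * x⁻¹ * (a ^ n)⁻¹ = (a ^ n * x * (a ^ n)⁻¹)⁻¹ := by group
      rw [h2, hinvD]
  -- (5)
  have hDa : D a = 0 := by
    have h1 := hT a
    have h2 : ∀ n : ℕ, D (a ^ n * a * (a ^ n)⁻¹) = D a := by
      intro n
      congr 1
      rw [← pow_succ, pow_succ', mul_assoc, mul_inv_cancel, mul_one]
    simp only [h2] at h1
    exact tendsto_nhds_unique tendsto_const_nhds h1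
  have hDan : ∀ n : ℕ, D (a ^ n) = 0 := by
    intro n
    induction n with
    | zero => rw [pow_zero, hone]
    | succ n ih =>
      rw [pow_succ]
      have := hmul (a ^ n) a
      have h3 := hD0 (a ^ n * a)
      linarith
  -- (6)
  have hDk : ∀ k, D k = 0 := by
    intro k
    have h1 : ∀ n : ℕ, D k ≤ D (a ^ n * k * (a ^ n)⁻¹) := by
      intro n
      have h2 : k = (a ^ n)⁻¹ * ((a ^ n * k * (a ^ n)⁻¹) * a ^ n) := by group
      have h3 := hmul (a ^ n)⁻¹ ((a ^ n * k * (a ^ n)⁻¹) * a ^ n)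
      have h4 := hmul (a ^ n * k * (a ^ n)⁻¹) (a ^ n)
      rw [← h2, hinvD, hDan] at h3
      rw [hDan] at h4
      linarith
    exact le_antisymm (ge_of_tendsto' (hT k) h1) (hD0 k)
  -- (7)
  intro g
  have h1 : Ph (Γ := Γ) F g =ᵐ[μ] 0 := by
    rw [← integral_eq_zero_iff_of_nonneg (hΦ0 g) (hΦi g)]
    exact hDk g
  have h2 : Ph (Γ := Γ) F g = 0 :=
    (Continuous.ae_eq_iff_eq μ (hΦc g) continuous_zero).mp h1
  have h3 := congrFun h2 ((1 : G) : G ⧸ Γ)
  rw [Ph_mk hFΓ, Pi.zero_apply, abs_eq_zero, inv_one, one_mul] at h3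
  linarith

end Pool.Agent.T6.H55.ST.Mau
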