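import Pool.Agent.T6.H55.ST.Stm

set_option autoImplicit false

open scoped Manifold ContDiff Topology
open MeasureTheory Set Filter

namespace Pool.Agent.T6.H55.ST

namespace ModPOL

variable {E : Type} [NormedAddCommGroup E] [NormedSpace ℝ E]

/-- the exponential as a polynomial -/
theorem exp_nil (N : E →L[ℝ] E) (r : ℕ) (hr : N ^ r = 0) (m : ℝ) :
    NormedSpace.exp (m • N) =
      ∑ k ∈ Finset.range r, (((k.factorial : ℝ)⁻¹ * m ^ k) • N ^ k) := by
  rw [NormedSpace.exp_eq_tsum ℝ]
  simp only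
  rw [tsum_eq_sum (s := Finset.range r)]
  · apply Finset.sum_congr rfl
    intro k _
    rw [smul_pow, smul_smul]
  · intro k hk
    rw [Finset.mem_range, not_lt] at hk
    rw [smul_pow, pow_eq_zero_of_le hk hr, smul_zero, smul_zero]

noncomputable def D {d : ℕ} (w : Fin d → E) (A : E →L[ℝ] E) (y : Fin d → (E →ₗ[ℝ] ℝ)) : ℝ :=
  (Matrix.of fun i j => y j (A (w i))).det

open Polynomial in
noncomputable def P {d : ℕ} (w : Fin d → E) (N : E →L[ℝ] E) (r : ℕ)
    (y : Fin d → (E →ₗ[ℝ] ℝ)) : ℝ[X] :=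
  (Matrix.of fun i j =>
    ∑ k ∈ Finset.range r, C ((k.factorial : ℝ)⁻¹ * y j ((N ^ k) (w i))) * X ^ k).det

theorem P_eval {d : ℕ} (w : Fin d → E) (N : E →L[ℝ] E) (r : ℕ) (hr : N ^ r = 0)
    (y : Fin d → (E →ₗ[ℝ] ℝ)) (m : ℝ) :
    (P w N r y).eval m = D w (NormedSpace.exp (m • N)) y := by
  unfold P D
  rw [← Polynomial.coe_evalRingHom, RingHom.map_det]
  congr 1
  ext i j
  rw [RingHom.mapMatrix_apply, Matrix.map_apply, Matrix.of_apply, Matrix.of_apply,
    Polynomial.coe_evalRingHom, Polynomial.eval_finsetSum, exp_nil N r hr,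
    sum_apply, map_sum]
  apply Finset.sum_congr rfl
  intro k _
  rw [Polynomial.eval_mul, Polynomial.eval_C, Polynomial.eval_pow, Polynomial.eval_X,
    smul_apply, map_smul, smul_eq_mul]
  ring

theorem P_deg {d : ℕ} (w : Fin d → E) (N : E →L[ℝ] E) (r : ℕ)
    (y : Fin d → (E →ₗ[ℝ] ℝ)) : (P w N r y).natDegree ≤ d * r := by
  unfold P
  rw [Matrix.det_apply]
  apply Polynomial.natDegree_sum_le_of_forall_le
  intro σ _
  refine le_trans (Polynomial.natDegree_smul_le _ _) ?_
  refine le_trans (Polynomial.natDegree_prod_le _ _) ?_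
  refine le_trans (Finset.sum_le_card_nsmul _ _ r ?_) (by simp)
  intro i _
  rw [Matrix.of_apply]
  apply Polynomial.natDegree_sum_le_of_forall_le
  intro k hk
  refine le_trans (Polynomial.natDegree_C_mul_X_pow_le _ _) (Finset.mem_range.mp hk).le

theorem poly_lim (p : Polynomial ℝ) (K : ℕ) (h : p.natDegree ≤ K) :
    Tendsto (fun m : ℕ => p.eval (m : ℝ) / (m : ℝ) ^ K) atTop (𝓝 (p.coeff K)) := by
  have h1 : (fun m : ℕ => p.eval (m : ℝ) / (m : ℝ) ^ K) = fun m : ℕ =>
      (∑ i ∈ Finset.range K, p.coeff i * ((m : ℝ) ^ i / (m : ℝ) ^ K)) +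
        p.coeff K * ((m : ℝ) ^ K / (m : ℝ) ^ K) := by
    funext m
    rw [Polynomial.eval_eq_sum_range' (Nat.lt_succ_of_le h), Finset.sum_div,
      Finset.sum_range_succ]
    congr 1
    · apply Finset.sum_congr rfl
      intro i _
      ring
    · ring
  rw [h1]
  have h2 : Tendsto (fun m : ℕ => ∑ i ∈ Finset.range K, p.coeff i * ((m : ℝ) ^ i / (m : ℝ) ^ K))
      atTop (𝓝 0) := by
    have : (0 : ℝ) = ∑ i ∈ Finset.range K, p.coeff i * 0 := by simp
    rw [this]
    apply tendsto_finsetSum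
    intro i hi
    exact ((tendsto_pow_div_pow_atTop_zero (Finset.mem_range.mp hi)).comp
      tendsto_natCast_atTop_atTop).const_mul _
  have h3 : Tendsto (fun m : ℕ => p.coeff K * ((m : ℝ) ^ K / (m : ℝ) ^ K)) atTop
      (𝓝 (p.coeff K)) := by
    apply Tendsto.congr' _ tendsto_const_nhds
    filter_upwards [eventually_gt_atTop 0] with m hm
    have : (m : ℝ) ^ K ≠ 0 := pow_ne_zero _ (by exact_mod_cast hm.ne')
    rw [div_self this, mul_one]
  simpa using h2.add h3

theorem growth (N : E →L[ℝ] E) (hN : IsNilpotent N) {d : ℕ} (w : Fin d → E)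
    (y0 : Fin d → (E →ₗ[ℝ] ℝ)) (h0 : D w (ContinuousLinearMap.id ℝ E) y0 ≠ 0) :
    ∃ (K : ℕ) (l : (Fin d → (E →ₗ[ℝ] ℝ)) → ℝ),
      (∀ y, Tendsto (fun m : ℕ => D w (NormedSpace.exp ((m : ℝ) • N)) y / (m : ℝ) ^ K) atTop
        (𝓝 (l y))) ∧ ∃ y, l y ≠ 0 := by
  classical
  obtain ⟨r, hr⟩ := hN
  have hex : ∃ K, ∀ y, (P w N r y).natDegree ≤ K := ⟨d * r, P_deg w N r⟩
  have hK := Nat.find_spec hex
  refine ⟨Nat.find hex, fun y => (P w N r y).coeff (Nat.find hex), ?_, ?_⟩
  · intro y
    have := poly_lim (P w N r y) (Nat.find hex) (hK y)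
    simpa only [P_eval w N r hr y] using this
  · by_contra hcon
    push Not at hcon
    rcases Nat.eq_zero_or_pos (Nat.find hex) with h1 | h1
    · have h2 := hcon y0
      have h3 := hK y0
      rw [h1] at h2 h3
      have h4 : P w N r y0 = 0 := by
        rw [Polynomial.eq_C_of_natDegree_le_zero h3, h2, Polynomial.C_0]
      have h5 := P_eval w N r hr y0 0
      rw [h4, Polynomial.eval_zero, zero_smul, NormedSpace.exp_zero] at h5
      exact h0 h5.symm
    · have h2 := Nat.find_min hex (m := Nat.find hex - 1) (by omega)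
      apply h2
      intro y
      have h3 := hK y
      by_contra h4
      have h5 : (P w N r y).natDegree = Nat.find hex := by omega
      have h6 := hcon y
      rw [← h5] at h6
      have h7 : P w N r y = 0 := Polynomial.leadingCoeff_eq_zero.mp h6
      rw [h7, Polynomial.natDegree_zero] at h4
      omega

theorem D_comp {d : ℕ} (w : Fin d → E) (A B : E →L[ℝ] E) (y : Fin d → (E →ₗ[ℝ] ℝ)) :
    D w (B * A) y = D w A (fun j => (y j).comp (B : E →ₗ[ℝ] E)) := rfl

theorem D_cont {d : ℕ} (w : Fin d → E) [FiniteDimensional ℝ E] (y : Fin d → (E →ₗ[ℝ] ℝ)) :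
    Continuous (fun A : E →L[ℝ] E => D w A y) := by
  unfold D
  apply Continuous.matrix_det
  apply continuous_matrix
  intro i j
  simp only [Matrix.of_apply]
  have h1 : Continuous (y j) := LinearMap.continuous_of_finiteDimensional _
  exact h1.comp (ContinuousLinearMap.apply ℝ E (w i)).continuous

/-- dual family to a linearly independent family spanning a submodule -/
theorem exists_dual {d : ℕ} (v : Fin d → E) (hv : LinearIndependent ℝ v) :
    ∃ y : Fin d → (E →ₗ[ℝ] ℝ), ∀ i j, y j (v i) = if i = j then 1 else 0 := by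
  have : ∀ j, ∃ f : E →ₗ[ℝ] ℝ, ∀ i, f (v i) = if i = j then 1 else 0 := by
    intro j
    obtain ⟨g, hg⟩ := LinearMap.exists_extend ((Module.Basis.span hv).coord j)
    refine ⟨g, fun i => ?_⟩
    have h1 : v i = (Submodule.span ℝ (Set.range v)).subtype (Module.Basis.span hv i) := by
      rw [Submodule.subtype_apply, Module.Basis.span_apply]
    rw [h1, ← LinearMap.comp_apply, hg, Module.Basis.coord_apply, Module.Basis.repr_self,
      Finsupp.single_apply]
  choose y hy using this
  exact ⟨y, fun i j => hy j i⟩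

end ModPOL

open ModPOL in
theorem pol (E : Type) [NormedAddCommGroup E] [NormedSpace ℝ E] [FiniteDimensional ℝ E] :
    StmPOL E := by
  classical
  intro N hN W T n hT hn hW
  have : CompleteSpace E := FiniteDimensional.complete ℝ E
  letI : NormedAlgebra ℚ (E →L[ℝ] E) := NormedAlgebra.restrictScalars ℚ ℝ (E →L[ℝ] E)
  let bW := Module.finBasis ℝ W
  let w : Fin (Module.finrank ℝ W) → E := fun i => (bW i : E)
  have hw : LinearIndependent ℝ w := bW.linearIndependent.map' W.subtype (Submodule.ker_subtype W)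
  have hwW : ∀ i, w i ∈ W := fun i => (bW i).2
  have hcoord : ∀ u ∈ W, ∃ a : Fin (Module.finrank ℝ W) → ℝ, u = ∑ i, a i • w i := by
    intro u hu
    refine ⟨fun i => bW.repr ⟨u, hu⟩ i, ?_⟩
    have h1 := bW.sum_repr ⟨u, hu⟩
    have h2 := congrArg W.subtype h1
    rw [map_sum] at h2
    simp only [map_smul, Submodule.subtype_apply] at h2
    exact h2.symm
  obtain ⟨y0, hy0⟩ := exists_dual w hw
  have h0 : D w (ContinuousLinearMap.id ℝ E) y0 ≠ 0 := by
    have : (Matrix.of fun i j => y0 j ((ContinuousLinearMap.id ℝ E) (w i))) = 1 := by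
      ext i j
      rw [Matrix.of_apply, ContinuousLinearMap.id_apply, hy0, Matrix.one_apply]
    unfold D
    rw [this, Matrix.det_one]
    exact one_ne_zero
  obtain ⟨K, l, hl, ys, hys⟩ := growth N hN w y0 h0
  -- shift
  have hshift : ∀ y, l (fun j => (y j).comp ((NormedSpace.exp N : E →L[ℝ] E) : E →ₗ[ℝ] E)) = l y := by
    intro y
    refine tendsto_nhds_unique (hl _) ?_
    have h1 : ∀ m : ℕ, D w (NormedSpace.exp ((m : ℝ) • N))
        (fun j => (y j).comp ((NormedSpace.exp N : E →L[ℝ] E) : E →ₗ[ℝ] E)) =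
        D w (NormedSpace.exp (((m + 1 : ℕ) : ℝ) • N)) y := by
      intro m
      rw [← D_comp, ← NormedSpace.exp_add_of_commute ((Commute.refl N).smul_right _)]
      congr 2
      push_cast
      rw [add_smul, one_smul, add_comm]
    simp only [h1]
    have h2 := (hl y).comp (tendsto_add_atTop_nat 1)
    have h3 : Tendsto (fun m : ℕ => (1 + 1 / (m : ℝ)) ^ K) atTop (𝓝 1) := by
      have := (tendsto_one_div_atTop_nhds_zero_nat (𝕜 := ℝ)).const_add 1
      have := this.pow K
      simpa using this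
    have h4 := h2.mul h3
    rw [mul_one] at h4
    refine h4.congr' ?_
    filter_upwards [eventually_gt_atTop 0] with m hm
    have hm' : (m : ℝ) ≠ 0 := by exact_mod_cast hm.ne'
    have hm1 : (m : ℝ) + 1 ≠ 0 := by positivity
    simp only [Function.comp_apply]
    push_cast
    have e1 : 1 + 1 / (m : ℝ) = (m + 1) / m := by field_simp
    rw [e1, div_pow]
    field_simp
  -- the constants
  have hc : ∀ k, ∃ c : ℝ, ∀ y, D w (NormedSpace.exp ((n k : ℝ) • N)) y = c * D w (T k) y := by
    intro k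
    have h1 : ∀ i, ∃ a : Fin (Module.finrank ℝ W) → ℝ,
        (NormedSpace.exp ((n k : ℝ) • N) : E →L[ℝ] E) (w i) = ∑ j, a j • (T k) (w j) := by
      intro i
      have h2 : (NormedSpace.exp ((n k : ℝ) • N) : E →L[ℝ] E) (w i) ∈ W.map (T k : E →ₗ[ℝ] E) := by
        rw [hW k]
        exact Submodule.mem_map_of_mem (hwW i)
      obtain ⟨u, hu, hu2⟩ := h2
      obtain ⟨a, ha⟩ := hcoord u hu
      refine ⟨a, ?_⟩
      rw [← hu2, ha]
      simp
    choose C hC using h1
    refine ⟨(Matrix.of C).det, fun y => ?_⟩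
    unfold D
    rw [← Matrix.det_mul]
    congr 1
    ext i j
    rw [Matrix.of_apply, hC, Matrix.mul_apply, map_sum]
    apply Finset.sum_congr rfl
    intro a _
    rw [map_smul, smul_eq_mul, Matrix.of_apply, Matrix.of_apply]
  have hTl : ∀ y, Tendsto (fun k => D w (T k) y) atTop (𝓝 (D w (ContinuousLinearMap.id ℝ E) y)) :=
    fun y => ((D_cont w y).tendsto _).comp hT
  have hlim : ∀ y, D w (ContinuousLinearMap.id ℝ E) y * l ys =
      D w (ContinuousLinearMap.id ℝ E) ys * l y := by
    intro y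
    have h1 := (hTl y).mul ((hl ys).comp hn)
    have h2 := (hTl ys).mul ((hl y).comp hn)
    refine tendsto_nhds_unique h1 (h2.congr ?_)
    intro k
    obtain ⟨c, hc⟩ := hc k
    simp only [Function.comp_apply]
    rw [hc y, hc ys]
    ring
  have hinv : ∀ y, D w (NormedSpace.exp N) y = D w (ContinuousLinearMap.id ℝ E) y := by
    intro y
    have h1 : D w (NormedSpace.exp N) y = D w (ContinuousLinearMap.id ℝ E)
        (fun j => (y j).comp ((NormedSpace.exp N : E →L[ℝ] E) : E →ₗ[ℝ] E)) := rfl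
    have h2 := hlim (fun j => (y j).comp ((NormedSpace.exp N : E →L[ℝ] E) : E →ₗ[ℝ] E))
    rw [hshift y, ← hlim y, ← h1] at h2
    exact mul_right_cancel₀ hys h2
  -- conclusion
  have hker : LinearMap.ker ((NormedSpace.exp N : E →L[ℝ] E) : E →ₗ[ℝ] E) = ⊥ := by
    rw [LinearMap.ker_eq_bot']
    intro x hx
    have h1 : (NormedSpace.exp (-N) : E →L[ℝ] E) * NormedSpace.exp N = 1 := by
      rw [← NormedSpace.exp_add_of_commute ((Commute.refl N).neg_left), neg_add_cancel,
        NormedSpace.exp_zero]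
    have h2 := congrArg (fun A : E →L[ℝ] E => A x) h1
    simp only [mul_apply_eq_comp, one_apply_eq_self] at h2
    have h3 : (NormedSpace.exp N : E →L[ℝ] E) x = 0 := hx
    rw [h3, map_zero] at h2
    exact h2.symm
  have hv : LinearIndependent ℝ (fun i => (NormedSpace.exp N : E →L[ℝ] E) (w i)) :=
    hw.map' ((NormedSpace.exp N : E →L[ℝ] E) : E →ₗ[ℝ] E) hker
  symm
  apply Submodule.eq_of_le_of_finrank_le _ (Submodule.finrank_map_le _ _)
  intro w0 hw0
  by_contra hcon
  obtain ⟨f, hf, hfW⟩ := Submodule.exists_le_ker_of_notMem hcon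
  obtain ⟨y, hy⟩ := exists_dual _ hv
  have h1 := hinv (fun j => y j - ((y j) w0 / f w0) • f)
  have h2 : D w (NormedSpace.exp N) (fun j => y j - ((y j) w0 / f w0) • f) = 1 := by
    have : (Matrix.of fun i j => (y j - ((y j) w0 / f w0) • f)
        ((NormedSpace.exp N : E →L[ℝ] E) (w i))) = 1 := by
      ext i j
      have h3 : f ((NormedSpace.exp N : E →L[ℝ] E) (w i)) = 0 :=
        hfW (Submodule.mem_map_of_mem (hwW i))
      rw [Matrix.of_apply, LinearMap.sub_apply, LinearMap.smul_apply, h3, smul_zero, sub_zero, hy,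
        Matrix.one_apply]
    unfold D
    rw [this, Matrix.det_one]
  have h3 : D w (ContinuousLinearMap.id ℝ E) (fun j => y j - ((y j) w0 / f w0) • f) = 0 := by
    unfold D
    rw [← Matrix.exists_vecMul_eq_zero_iff]
    obtain ⟨a, ha⟩ := hcoord w0 hw0
    refine ⟨a, ?_, ?_⟩
    · rintro rfl
      apply hcon
      rw [ha]
      simp
    · funext j
      have h4 : (y j - ((y j) w0 / f w0) • f) w0 = 0 := by
        rw [LinearMap.sub_apply, LinearMap.smul_apply, smul_eq_mul, div_mul_cancel₀ _ hf, sub_self]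
      have h5 : ∀ g : E →ₗ[ℝ] ℝ, ∑ i, a i * g (w i) = g w0 := by
        intro g
        rw [ha, map_sum]
        apply Finset.sum_congr rfl
        intro i _
        rw [map_smul, smul_eq_mul]
      have h6 := h5 (y j - ((y j) w0 / f w0) • f)
      rw [h4] at h6
      rw [Pi.zero_apply, ← h6]
      rfl
  rw [h2, h3] at h1
  exact one_ne_zero h1

end Pool.Agent.T6.H55.ST
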