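import Pool.Agent.T6.H55.ST.Stm

/-!
# The parts in terms of the basis
-/

set_option autoImplicit false

namespace Pool.Agent.T6.H55.ST

/-- PRT: the parts in terms of the basis. -/
theorem prt (E : Type) [NormedAddCommGroup E] [NormedSpace ℝ E] [FiniteDimensional ℝ E] :
    StmPRT E := by
  intro ad H n b l hb
  have hrep : ∀ (X : E) (i : Fin n), b.repr (ad H X) i = l i * b.repr X i := by
    intro X i
    have h1 : ad H X = ∑ j, b.repr X j • (l j • b j) := by
      conv_lhs => rw [← b.sum_repr X]
      rw [map_sum]
      exact Finset.sum_congr rfl fun j _ => by rw [map_smul, hb.eig j]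
    rw [h1, map_sum]
    simp only [map_smul, Finsupp.coe_finsetSum, Finset.sum_apply, Finsupp.smul_apply,
      Module.Basis.repr_self, smul_eq_mul, Finsupp.single_apply]
    simp [mul_comm]
  have h1 : ∀ s : Set ℝ, part ad H s = Submodule.span ℝ (b '' {i | l i ∈ s}) := by
    intro s
    apply le_antisymm
    · refine iSup₂_le fun r hr X hX => ?_
      have hX' : ad H X = r • X := by
        have := Module.End.mem_eigenspace_iff.1 hX
        exact this
      rw [Module.Basis.mem_span_image]
      intro i hi
      have hi' : b.repr X i ≠ 0 := Finsupp.mem_support_iff.1 (Finset.mem_coe.1 hi)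
      have h2 := hrep X i
      rw [hX', map_smul, Finsupp.smul_apply, smul_eq_mul] at h2
      have h3 : r = l i := mul_right_cancel₀ hi' h2
      show l i ∈ s
      rw [← h3]
      exact hr
    · rw [Submodule.span_le]
      rintro _ ⟨i, hi, rfl⟩
      have h2 : b i ∈ Module.End.eigenspace ((ad H : E →L[ℝ] E) : E →ₗ[ℝ] E) (l i) :=
        Module.End.mem_eigenspace_iff.2 (hb.eig i)
      exact (le_iSup₂_of_le (f := fun r (_ : r ∈ s) =>
        Module.End.eigenspace ((ad H : E →L[ℝ] E) : E →ₗ[ℝ] E) r) (l i) hi le_rfl) h2
  refine ⟨h1, fun s X => ?_, fun r X => ?_⟩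
  · rw [h1, Module.Basis.mem_span_image]
    constructor
    · intro h i hi
      by_contra hne
      exact hi (h (Finset.mem_coe.2 (Finsupp.mem_support_iff.2 hne)))
    · intro h i hi
      by_contra hne
      exact Finsupp.mem_support_iff.1 (Finset.mem_coe.1 hi) (h i hne)
  · rw [part, iSup_singleton, Module.End.mem_eigenspace_iff]
    exact Iff.rfl

end Pool.Agent.T6.H55.ST
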