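import Pool.Agent.T6.H55.ST.Mau

/-!
# Project ST, module REC
-/

set_option autoImplicit false

open scoped Topology
open MeasureTheory Set Filter

namespace Pool.Agent.T6.H55.ST.Rec

open Pool.Agent.T6.H55.ST

theorem rec' (G : Type) [TopologicalSpace G] [Group G] [IsTopologicalGroup G] : StmREC G := by
  intro _ _ Γ hΓ u
  obtain ⟨-, μ, hμ0, hμt, hinv⟩ := hΓ
  let _ : MeasurableSpace (G ⧸ Γ) := borel (G ⧸ Γ)
  have : BorelSpace (G ⧸ Γ) := ⟨rfl⟩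
  have : IsFiniteMeasure μ := ⟨lt_top_iff_ne_top.mpr hμt⟩
  have : μ.IsOpenPosMeasure := Mau.openPos μ hμ0 (fun g s hs => hinv g s hs.measurableSet)
  have hMP : MeasurePreserving (fun x : G ⧸ Γ => u • x) μ μ := by
    refine ⟨(continuous_const_smul u).measurable, ?_⟩
    ext s hs
    rw [Measure.map_apply (continuous_const_smul u).measurable hs]
    exact hinv u s hs
  have hae := hMP.conservative.ae_frequently_mem_of_mem_nhds
  have hdense := Measure.dense_of_ae hae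
  rw [dense_iff_inter_open]
  intro O₀ hO₀ hne
  have hopen : IsOpen ((QuotientGroup.mk : G → G ⧸ Γ) '' (O₀⁻¹)) :=
    QuotientGroup.isOpenMap_coe _ hO₀.inv
  have hne' : ((QuotientGroup.mk : G → G ⧸ Γ) '' (O₀⁻¹)).Nonempty := hne.inv.image _
  obtain ⟨x, ⟨h, hh, hhx⟩, hx⟩ := hdense.inter_open_nonempty _ hopen hne'
  refine ⟨h⁻¹, hh, ?_⟩
  intro O hO n₀
  have hnhds : (QuotientGroup.mk : G → G ⧸ Γ) '' (O⁻¹) ∈ 𝓝 x := by
    rw [← hhx]
    have h1 : O⁻¹ ∈ 𝓝 h := by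
      exact continuous_inv.continuousAt.preimage_mem_nhds hO
    exact QuotientGroup.isOpenMap_coe.image_mem_nhds h1
  have hfr := hx _ hnhds
  obtain ⟨n, hn, k, hk, hkx⟩ := (frequently_atTop.mp hfr n₀)
  refine ⟨n, hn, ?_⟩
  rw [smul_iterate_apply, ← hhx] at hkx
  have h2 : u ^ n • (h : G ⧸ Γ) = ((u ^ n * h : G) : G ⧸ Γ) := rfl
  rw [h2] at hkx
  have h3 : k⁻¹ * (u ^ n * h) ∈ Γ := QuotientGroup.eq.mp hkx
  refine ⟨k⁻¹ * (u ^ n * h), h3, ?_⟩
  have h4 : k⁻¹ * (u ^ n * h) * h⁻¹ * (u ^ n)⁻¹ = k⁻¹ := by group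
  rw [h4]
  exact hk

end Pool.Agent.T6.H55.ST.Rec
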