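import Pool.Agent.T6.H55.ST.Stm

/-!
# Module SMO of project ST (helper41)
-/

set_option autoImplicit false

open scoped Manifold ContDiff Topology
open MeasureTheory Set Filter

namespace Pool.Agent.T6.H55.ST

section ExpSub

variable {E : Type} [NormedAddCommGroup E] [NormedSpace ℝ E] [FiniteDimensional ℝ E]

/-- `exp T z - z` lies in a subspace stable under `T` that contains `T z`. -/
theorem exp_sub_mem (T : E →L[ℝ] E) (W : Submodule ℝ E) (hW : ∀ y ∈ W, T y ∈ W) {z : E}
    (hz : T z ∈ W) : (NormedSpace.exp T : E →L[ℝ] E) z - z ∈ W := by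
  have : CompleteSpace E := FiniteDimensional.complete ℝ E
  have h1 := NormedSpace.exp_series_hasSum_exp' (𝕂 := ℝ) T
  have h2 := h1.mapL (ContinuousLinearMap.apply ℝ E z)
  have h3 := (hasSum_nat_add_iff' 1).2 h2
  have hp : ∀ n : ℕ, (T ^ (n + 1)) z ∈ W := by
    intro n
    induction n with
    | zero => simpa using hz
    | succ n ih =>
      rw [pow_succ' T (n + 1)]
      exact hW _ ih
  have hcl : IsClosed (W : Set E) := W.closed_of_finiteDimensional
  have h4 : (ContinuousLinearMap.apply ℝ E z) (NormedSpace.exp T) -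
      ∑ i ∈ Finset.range 1, (ContinuousLinearMap.apply ℝ E z) (((Nat.factorial i : ℝ)⁻¹) • T ^ i) ∈ (W : Set E) := by
    apply hcl.mem_of_tendsto h3
    refine Filter.Eventually.of_forall (fun s => ?_)
    apply W.sum_mem
    intro n _
    simp only [ContinuousLinearMap.apply_apply, _root_.smul_apply]
    exact W.smul_mem _ (hp n)
  simpa using h4

theorem exp_mem (T : E →L[ℝ] E) (W : Submodule ℝ E) (hW : ∀ y ∈ W, T y ∈ W) {z : E}
    (hz : z ∈ W) : (NormedSpace.exp T : E →L[ℝ] E) z ∈ W := by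
  have := W.add_mem (exp_sub_mem T W hW (hW z hz)) hz
  simpa using this

end ExpSub

section ListSplit

variable {G : Type} [Group G]

theorem list_split {ι : Type} (l : ι → ℝ) (d : ι → ℝ → G) (d0 : ∀ i, d i 0 = 1) (x : ι → ℝ)
    (L : List ι) (hL : L.Pairwise (fun i j => l i ≤ l j)) :
    (L.map (fun i => d i (x i))).prod =
      (L.map (fun i => d i (if l i < 0 then x i else 0))).prod *
      (L.map (fun i => d i (if l i < 0 then 0 else x i))).prod := by
  induction L with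
  | nil => simp
  | cons i L ih =>
    rw [List.pairwise_cons] at hL
    have ih' := ih hL.2
    simp only [List.map_cons, List.prod_cons]
    by_cases hi : l i < 0
    · simp only [hi, if_true, d0, one_mul]
      rw [ih', mul_assoc]
    · have h1 : (L.map (fun i => d i (if l i < 0 then x i else 0))).prod = 1 := by
        apply List.prod_eq_one
        intro y hy
        rw [List.mem_map] at hy
        obtain ⟨j, hj, rfl⟩ := hy
        have : ¬ l j < 0 := not_lt.2 ((not_lt.1 hi).trans (hL.1 j hj))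
        simp [this, d0]
      simp only [hi, if_false, d0, one_mul]
      rw [ih', h1, one_mul]
      rw [one_mul]

end ListSplit

section Abs

variable {E : Type} [NormedAddCommGroup E] [NormedSpace ℝ E] [FiniteDimensional ℝ E]
  {G : Type} [TopologicalSpace G] [Group G]
  {Ad : G → E →L[ℝ] E} {ad : E →L[ℝ] (E →L[ℝ] E)} {c : E → ℝ → G}

theorem diff_list {V A : Type} [NormedAddCommGroup V] [NormedSpace ℝ V] [NormedRing A]
    [NormedAlgebra ℝ A] {ι : Type} (F : ι → V → A) (x : V) (hF : ∀ i, DifferentiableAt ℝ (F i) x)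
    (L : List ι) : DifferentiableAt ℝ (fun v => (L.map (fun i => F i v)).prod) x := by
  induction L with
  | nil => simp
  | cons i L ih =>
    simp only [List.map_cons, List.prod_cons]
    exact (hF i).mul ih

/-- `Ad` as a homomorphism. -/
def AdH (K : IsKit Ad ad c) : G →* (E →L[ℝ] E) where
  toFun := Ad
  map_one' := K.Ad_one
  map_mul' := K.Ad_mul

omit [FiniteDimensional ℝ E] in
theorem Ad_tau (K : IsKit Ad ad c) {n : ℕ} (b : Fin n → E) (x : Fin n → ℝ) :
    Ad (tau c b x) = ((List.finRange n).map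
      (fun i => (NormedSpace.exp (x i • ad (b i)) : E →L[ℝ] E))).prod := by
  have h := map_list_prod (AdH K) (List.ofFn (fun i => c (b i) (x i)))
  rw [List.ofFn_eq_map, List.map_map] at h
  simp only [tau, List.ofFn_eq_map]
  refine h.trans ?_
  congr 1
  apply List.map_congr_left
  intro i _
  exact K.Ad_c (b i) (x i)

theorem theta_diff (K : IsKit Ad ad c) {n : ℕ} (b : Fin n → E) (H : E) :
    DifferentiableAt ℝ (fun x => Ad (tau c b x) H) (0 : Fin n → ℝ) := by
  have : CompleteSpace E := FiniteDimensional.complete ℝ E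
  have h1 : DifferentiableAt ℝ (fun x => Ad (tau c b x)) (0 : Fin n → ℝ) := by
    have e : (fun x => Ad (tau c b x)) = fun x : Fin n → ℝ => ((List.finRange n).map
      (fun i => (NormedSpace.exp (x i • ad (b i)) : E →L[ℝ] E))).prod := by
      funext x
      exact Ad_tau K b x
    rw [e]
    apply diff_list (F := fun i (x : Fin n → ℝ) => (NormedSpace.exp (x i • ad (b i)) : E →L[ℝ] E))
    intro i
    have h2 : DifferentiableAt ℝ (fun x : Fin n → ℝ => x i) 0 :=
      (differentiable_apply i).differentiableAt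
    have h3 : DifferentiableAt ℝ (fun s : ℝ => (NormedSpace.exp (s • ad (b i)) : E →L[ℝ] E))
        ((fun x : Fin n → ℝ => x i) 0) :=
      (differentiable_exp_smul_const (𝕂 := ℝ) (ad (b i))).differentiableAt
    exact DifferentiableAt.comp (f := fun x : Fin n → ℝ => x i)
      (g := fun s : ℝ => (NormedSpace.exp (s • ad (b i)) : E →L[ℝ] E)) (0 : Fin n → ℝ) h3 h2
  exact h1.clm_apply (differentiableAt_const H)

omit [FiniteDimensional ℝ E] in
theorem tau_single' (K : IsKit Ad ad c) {n : ℕ} (b : Fin n → E) (i : Fin n)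
    (s : ℝ) : tau c b (Pi.single i s) = c (b i) s := by
  simp only [tau, List.ofFn_eq_map]
  rw [List.prod_map_eq_pow_single i]
  · rw [List.count_eq_one_of_mem (List.nodup_finRange n) (List.mem_finRange i)]
    simp
  · intro j hj _
    simp [Pi.single_eq_of_ne hj, K.c_zero]

theorem theta_deriv (K : IsKit Ad ad c) {n : ℕ} (b : Fin n → E) (H : E) (i : Fin n) :
    fderiv ℝ (fun x => Ad (tau c b x) H) (0 : Fin n → ℝ) (Pi.single i 1) = ad (b i) H := by
  have : CompleteSpace E := FiniteDimensional.complete ℝ E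
  have h1 : HasFDerivAt (fun s : ℝ => (Pi.single i s : Fin n → ℝ))
      (ContinuousLinearMap.single ℝ (fun _ : Fin n => ℝ) i) 0 :=
    (ContinuousLinearMap.single ℝ (fun _ : Fin n => ℝ) i).hasFDerivAt
  have h2 : HasFDerivAt (fun x => Ad (tau c b x) H)
      (fderiv ℝ (fun x => Ad (tau c b x) H) (0 : Fin n → ℝ))
      ((fun s : ℝ => (Pi.single i s : Fin n → ℝ)) 0) := by
    simpa using (theta_diff K b H).hasFDerivAt
  have h3 := h2.comp (0 : ℝ) h1
  have h4 : ((fun x => Ad (tau c b x) H) ∘ fun s : ℝ => (Pi.single i s : Fin n → ℝ))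
      = fun s => (NormedSpace.exp (s • ad (b i)) : E →L[ℝ] E) H := by
    funext s
    simp only [Function.comp_apply]
    rw [tau_single' K, K.Ad_c]
  rw [h4] at h3
  have h5 : HasDerivAt (fun s : ℝ => (NormedSpace.exp (s • ad (b i)) : E →L[ℝ] E) H)
      (ad (b i) H) 0 := by
    have h6 := hasDerivAt_exp_smul_const (𝕂 := ℝ) (ad (b i)) (0 : ℝ)
    have h7 := h6.clm_apply (hasDerivAt_const (0 : ℝ) H)
    simpa using h7
  have h8 := h3.hasDerivAt.unique h5
  simpa using h8

omit [FiniteDimensional ℝ E] in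
theorem theta_zero (K : IsKit Ad ad c) {n : ℕ} (b : Fin n → E) (H : E) :
    Ad (tau c b 0) H = H := by
  have : tau c b 0 = 1 := by
    simp only [tau]
    apply List.prod_eq_one
    intro x hx
    rw [List.mem_ofFn] at hx
    obtain ⟨i, rfl⟩ := hx
    simp [K.c_zero]
  rw [this, K.Ad_one]
  rfl

/-- local injectivity. -/
theorem loc_inj (K : IsKit Ad ad c) (anti : ∀ X Y, ad X Y = - ad Y X) {n : ℕ}
    (b : Module.Basis (Fin n) ℝ E) (l : Fin n → ℝ) (H : E) (hE : Eig ad H b l) :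
    ∀ᶠ x in 𝓝 (0 : Fin n → ℝ), (∀ i, ¬ l i < 0 → x i = 0) → Ad (tau c b x) H = H → x = 0 := by
  set D := fderiv ℝ (fun x => Ad (tau c b x) H) (0 : Fin n → ℝ) with hD
  have hDs : ∀ i, D (Pi.single i 1) = -(l i • b i) := by
    intro i
    rw [hD, theta_deriv K b H i, anti, hE.eig]
  have hDx : ∀ x i, b.repr (D x) i = -(l i * x i) := by
    intro x i
    have h1 : x = ∑ j, x j • (Pi.single j 1 : Fin n → ℝ) := by
      funext k
      simp [Finset.sum_apply, Pi.single_apply]
    have h2 : D x = ∑ j, x j • -(l j • b j) := by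
      conv_lhs => rw [h1]
      rw [map_sum]
      simp only [map_smul, hDs]
    rw [h2]
    simp [map_sum, Finsupp.single_apply, mul_comm]
  let Λ₀ : E →ₗ[ℝ] (Fin n → ℝ) := LinearMap.pi (fun i =>
    if l i < 0 then (-(l i)⁻¹) • b.coord i else 0)
  set Λ : E →L[ℝ] (Fin n → ℝ) := LinearMap.toContinuousLinearMap Λ₀ with hΛ
  have hΛD : ∀ x : Fin n → ℝ, (∀ i, ¬ l i < 0 → x i = 0) → Λ (D x) = x := by
    intro x hx
    funext i
    have e : Λ (D x) i = (if l i < 0 then (-(l i)⁻¹) • b.coord i else 0 : E →ₗ[ℝ] ℝ) (D x) := rfl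
    rw [e]
    by_cases hi : l i < 0
    · rw [if_pos hi]
      simp only [LinearMap.smul_apply, Module.Basis.coord_apply, hDx, smul_eq_mul]
      have := hi.ne
      field_simp
    · rw [if_neg hi]
      simp [hx i hi]
  have hF : HasFDerivAt (fun x => Ad (tau c b x) H) D (0 : Fin n → ℝ) :=
    (theta_diff K b H).hasFDerivAt
  have hlo := hF.isLittleO.def (c := 1 / (2 * (‖Λ‖ + 1))) (by positivity)
  filter_upwards [hlo] with x hx hneg hfix
  have e0 : Ad (tau c b 0) H = H := theta_zero K b H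
  rw [e0, hfix, sub_self, zero_sub, norm_neg, sub_zero] at hx
  have h1 : ‖x‖ ≤ ‖Λ‖ * ‖D x‖ := by
    conv_lhs => rw [← hΛD x hneg]
    exact Λ.le_opNorm _
  have h2 : ‖Λ‖ * ‖D x‖ ≤ ‖Λ‖ * (1 / (2 * (‖Λ‖ + 1)) * ‖x‖) :=
    mul_le_mul_of_nonneg_left hx (norm_nonneg _)
  have h3 : ‖Λ‖ * (1 / (2 * (‖Λ‖ + 1))) ≤ 1 / 2 := by
    rw [mul_one_div, div_le_div_iff₀ (by positivity) (by norm_num)]
    nlinarith [norm_nonneg Λ]
  have h4 : ‖x‖ ≤ 1 / 2 * ‖x‖ := by
    refine (h1.trans h2).trans ?_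
    rw [← mul_assoc]
    exact mul_le_mul_of_nonneg_right h3 (norm_nonneg _)
  have h5 : ‖x‖ ≤ 0 := by linarith
  exact norm_le_zero_iff.1 h5

omit [FiniteDimensional ℝ E] in
theorem b_mem (hP : StmPRT E) {n : ℕ} (b : Module.Basis (Fin n) ℝ E) (l : Fin n → ℝ) (H : E)
    (hE : Eig ad H b l) (s : Set ℝ) (i : Fin n) (hi : l i ∈ s) : b i ∈ part ad H s := by
  rw [((hP ad H n b l hE).2.1 s (b i))]
  intro j hj
  have : j ≠ i := fun h => hj (h ▸ hi)
  rw [b.repr_self, Finsupp.single_apply, if_neg (fun h => this h.symm)]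

omit [FiniteDimensional ℝ E] in
theorem part_mono (hP : StmPRT E) {n : ℕ} (b : Module.Basis (Fin n) ℝ E) (l : Fin n → ℝ) (H : E)
    (hE : Eig ad H b l) (s t : Set ℝ) (hst : s ⊆ t) : part ad H s ≤ part ad H t := by
  intro X hX
  rw [((hP ad H n b l hE).2.1 s X)] at hX
  rw [((hP ad H n b l hE).2.1 t X)]
  intro j hj
  exact hX j (fun h => hj (hst h))

theorem stab (K : IsKit Ad ad c) (hP : StmPRT E) (hB : StmBRK E) (anti : ∀ X Y, ad X Y = - ad Y X)
    (jac : ∀ X Y, ad (ad X Y) = (ad X).comp (ad Y) - (ad Y).comp (ad X)) {n : ℕ}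
    (b : Module.Basis (Fin n) ℝ E) (l : Fin n → ℝ) (H : E) (hH : Hyp ad H) (hE : Eig ad H b l)
    (i : Fin n) (hi : ¬ l i < 0) (s : ℝ) :
    (part ad H (Set.Ici 0)).map (Ad (c (b i) s) : E →ₗ[ℝ] E) = part ad H (Set.Ici 0) := by
  have h1 : ∀ s : ℝ, ∀ y ∈ part ad H (Set.Ici 0), Ad (c (b i) s) y ∈ part ad H (Set.Ici 0) := by
    intro s y hy
    rw [K.Ad_c]
    apply exp_mem _ _ _ hy
    intro z hz
    rw [_root_.smul_apply]
    apply Submodule.smul_mem
    exact hB ad H hH anti jac (Set.Ici 0) (Set.Ici 0) (Set.Ici 0)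
      (fun x hx y hy => by
        rw [Set.mem_Ici] at *
        exact add_nonneg hx hy) (b i)
      (b_mem hP b l H hE _ i (Set.mem_Ici.2 (not_lt.1 hi))) z hz
  apply le_antisymm
  · rintro _ ⟨y, hy, rfl⟩
    exact h1 s y hy
  · intro y hy
    refine ⟨Ad (c (b i) (-s)) y, h1 (-s) y hy, ?_⟩
    have h2 : (Ad (c (b i) s)).comp (Ad (c (b i) (-s))) = ContinuousLinearMap.id ℝ E := by
      rw [← K.Ad_mul, ← K.c_add, add_neg_cancel, K.c_zero, K.Ad_one]
    exact congrArg (fun T : E →L[ℝ] E => T y) h2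

theorem Ad_sub (K : IsKit Ad ad c) (hP : StmPRT E) (hB : StmBRK E) (anti : ∀ X Y, ad X Y = - ad Y X)
    (jac : ∀ X Y, ad (ad X Y) = (ad X).comp (ad Y) - (ad Y).comp (ad X)) {n : ℕ}
    (b : Module.Basis (Fin n) ℝ E) (l : Fin n → ℝ) (H : E) (hH : Hyp ad H) (hE : Eig ad H b l)
    (x : Fin n → ℝ) (hx : ∀ i, ¬ l i < 0 → x i = 0) (L : List (Fin n)) :
    Ad ((L.map (fun i => c (b i) (x i))).prod) H - H ∈ part ad H (Set.Iio 0) := by
  induction L with
  | nil =>
    simp only [List.map_nil, List.prod_nil, K.Ad_one]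
    simp
  | cons i L ih =>
    simp only [List.map_cons, List.prod_cons, K.Ad_mul]
    set z := Ad ((L.map (fun i => c (b i) (x i))).prod) H with hz
    rw [ContinuousLinearMap.comp_apply, ← hz]
    by_cases hi : l i < 0
    · rw [K.Ad_c]
      have hbi : b i ∈ part ad H (Set.Iio 0) := b_mem hP b l H hE _ i (Set.mem_Iio.2 hi)
      have h1 : ∀ y ∈ part ad H (Set.Iio 0), (x i • ad (b i)) y ∈ part ad H (Set.Iio 0) := by
        intro y hy
        rw [_root_.smul_apply]
        apply Submodule.smul_mem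
        exact hB ad H hH anti jac (Set.Iio 0) (Set.Iio 0) (Set.Iio 0)
          (fun x hx y hy => by
            rw [Set.mem_Iio] at *
            exact add_neg hx hy) (b i) hbi y hy
      have h2 : (x i • ad (b i)) z ∈ part ad H (Set.Iio 0) := by
        have e : (x i • ad (b i)) z = (x i • ad (b i)) (z - H) + (x i • ad (b i)) H := by
          rw [← map_add, sub_add_cancel]
        rw [e]
        apply Submodule.add_mem _ (h1 _ ih)
        rw [_root_.smul_apply, anti, hE.eig]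
        exact Submodule.smul_mem _ _ (Submodule.neg_mem _ (Submodule.smul_mem _ _ hbi))
      have h3 := exp_sub_mem (x i • ad (b i)) (part ad H (Set.Iio 0)) h1 h2
      have h4 := Submodule.add_mem _ h3 ih
      simpa using h4
    · rw [hx i hi, K.c_zero, K.Ad_one]
      exact ih

theorem fixH (K : IsKit Ad ad c) (hP : StmPRT E) (hB : StmBRK E) (anti : ∀ X Y, ad X Y = - ad Y X)
    (jac : ∀ X Y, ad (ad X Y) = (ad X).comp (ad Y) - (ad Y).comp (ad X)) {n : ℕ}
    (b : Module.Basis (Fin n) ℝ E) (l : Fin n → ℝ) (H : E) (hH : Hyp ad H) (hE : Eig ad H b l)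
    (x : Fin n → ℝ) (hx : ∀ i, ¬ l i < 0 → x i = 0)
    (hq : (part ad H (Set.Ici 0)).map (Ad (tau c b x) : E →ₗ[ℝ] E) = part ad H (Set.Ici 0)) :
    Ad (tau c b x) H = H := by
  have h0 : H ∈ part ad H (Set.Ici 0) := by
    apply part_mono hP b l H hE {0} (Set.Ici 0) (by simp)
    rw [(hP ad H n b l hE).2.2 0 H, K.ad_self, zero_smul]
  have h1 : Ad (tau c b x) H ∈ part ad H (Set.Ici 0) := by
    rw [← hq]
    exact ⟨H, h0, rfl⟩
  have h2 : Ad (tau c b x) H - H ∈ part ad H (Set.Iio 0) := by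
    have := Ad_sub K hP hB anti jac b l H hH hE x hx (List.finRange n)
    simpa only [tau, List.ofFn_eq_map] using this
  have h3 : Ad (tau c b x) H - H ∈ part ad H (Set.Ici 0) := Submodule.sub_mem _ h1 h0
  rw [(hP ad H n b l hE).2.1] at h2 h3
  have h4 : b.repr (Ad (tau c b x) H - H) = 0 := by
    ext i
    by_cases hi : l i < 0
    · exact h3 i (by simpa using hi)
    · exact h2 i (by simpa using hi)
  have h5 : Ad (tau c b x) H - H = 0 := b.repr.map_eq_zero_iff.1 h4
  exact sub_eq_zero.1 h5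

omit [FiniteDimensional ℝ E] in
/-- the splitting of the coordinates. -/
theorem tau_split (K : IsKit Ad ad c) {n : ℕ} (b : Fin n → E) (l : Fin n → ℝ) (hl : Monotone l)
    (x : Fin n → ℝ) :
    tau c b x = tau c b (fun i => if l i < 0 then x i else 0) *
      tau c b (fun i => if l i < 0 then 0 else x i) := by
  simp only [tau, List.ofFn_eq_map]
  apply list_split l (fun i => c (b i)) (fun i => K.c_zero (b i)) x
  have h : (List.finRange n).Pairwise (· < ·) := List.pairwise_lt_finRange n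
  exact h.imp (fun hab => hl hab.le)

omit [FiniteDimensional ℝ E] in
/-- the list product of elements of a subgroup, with a homomorphism. -/
theorem tau_mem (K : IsKit Ad ad c) {n : ℕ} (b : Fin n → E) (l : Fin n → ℝ) (Q : Subgroup G)
    (hQ : ∀ i, ¬ l i < 0 → ∀ s, c (b i) s ∈ Q) (Φ : G → ℝ) (Φ1 : Φ 1 = 0)
    (Φm : ∀ g ∈ Q, ∀ h ∈ Q, Φ (g * h) = Φ g + Φ h) (κ : Fin n → ℝ)
    (hκ : ∀ i, ¬ l i < 0 → ∀ s, Φ (c (b i) s) = κ i * s) (x : Fin n → ℝ)
    (hx : ∀ i, l i < 0 → x i = 0) :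
    tau c b x ∈ Q ∧ Φ (tau c b x) = ∑ i, κ i * x i := by
  have key : ∀ L : List (Fin n), (L.map (fun i => c (b i) (x i))).prod ∈ Q ∧
      Φ (L.map (fun i => c (b i) (x i))).prod = (L.map (fun i => κ i * x i)).sum := by
    intro L
    induction L with
    | nil => exact ⟨by simp, by simpa using Φ1⟩
    | cons i L ih =>
      simp only [List.map_cons, List.prod_cons, List.sum_cons]
      have h1 : c (b i) (x i) ∈ Q ∧ Φ (c (b i) (x i)) = κ i * x i := by
        by_cases hi : l i < 0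
        · rw [hx i hi, K.c_zero, mul_zero]
          exact ⟨Q.one_mem, Φ1⟩
        · exact ⟨hQ i hi _, hκ i hi _⟩
      refine ⟨Q.mul_mem h1.1 ih.1, ?_⟩
      rw [Φm _ h1.1 _ ih.1, h1.2, ih.2]
  have := key (List.finRange n)
  simp only [tau, List.ofFn_eq_map]
  refine ⟨this.1, this.2.trans ?_⟩
  rw [← List.ofFn_eq_map, List.sum_ofFn]

end Abs

theorem smo (E : Type) [NormedAddCommGroup E] [NormedSpace ℝ E] [FiniteDimensional ℝ E]
    (G : Type) [TopologicalSpace G] [ChartedSpace E G] [Group G] [LieGroup 𝓘(ℝ, E) ∞ G]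
    (hK : StmKIT E G) (hC : StmCOO E G) (hJ : ∀ [IsTopologicalGroup G], StmJAC E G)
    (hE : StmEIG E) (hP : StmPRT E) (hB : StmBRK E) : StmSMO E G := by
  classical
  intro Q hQ φ hφ F _ _ M _ _ f m₀ hf hfQ
  obtain ⟨c, hc, K⟩ := hK
  have htop : IsTopologicalGroup G := topologicalGroup_of_lieGroup 𝓘(ℝ, E) ∞
  obtain ⟨anti, jac⟩ := hJ _ _ c K
  obtain ⟨H, hH, hQ⟩ := hQ
  obtain ⟨n, b, l, hEig⟩ := hE (ad E G) H hH
  obtain ⟨t, tsm, t1, tg⟩ := hC c hc n b
  have hcQ : ∀ i, ¬ l i < 0 → ∀ s, c (b i) s ∈ Q := fun i hi s =>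
    (hQ _).2 (stab K hP hB anti jac b l H hH hEig i hi s)
  let Φ : G → ℝ := fun g => if h : g ∈ Q then Multiplicative.toAdd (φ ⟨g, h⟩) else 0
  have Φv : ∀ g (h : g ∈ Q), Φ g = Multiplicative.toAdd (φ ⟨g, h⟩) := fun g h => dif_pos h
  have Φ1 : Φ 1 = 0 := by
    rw [Φv 1 Q.one_mem]
    have : (⟨1, Q.one_mem⟩ : Q) = 1 := rfl
    rw [this, map_one]
    rfl
  have Φm : ∀ g ∈ Q, ∀ h ∈ Q, Φ (g * h) = Φ g + Φ h := by
    intro g hg h hh
    rw [Φv _ (Q.mul_mem hg hh), Φv _ hg, Φv _ hh]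
    have : (⟨g * h, Q.mul_mem hg hh⟩ : Q) = ⟨g, hg⟩ * ⟨h, hh⟩ := rfl
    rw [this, map_mul]
    rfl
  let κ : Fin n → ℝ := fun i => Φ (c (b i) 1)
  have hκ : ∀ i, ¬ l i < 0 → ∀ s, Φ (c (b i) s) = κ i * s := by
    intro i hi s
    let A : ℝ →+ ℝ :=
      { toFun := fun s => Φ (c (b i) s)
        map_zero' := by rw [K.c_zero, Φ1]
        map_add' := fun s t => by rw [K.c_add, Φm _ (hcQ i hi s) _ (hcQ i hi t)] }
    have hA : Continuous A := by
      have e : (A : ℝ → ℝ) = fun s => Multiplicative.toAdd (φ ⟨c (b i) s, hcQ i hi s⟩) := by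
        funext s
        exact Φv _ (hcQ i hi s)
      rw [e]
      exact continuous_toAdd.comp (hφ.comp ((K.c_cont (b i)).subtype_mk _))
    have h := map_real_smul A hA s 1
    rw [smul_eq_mul, smul_eq_mul, mul_one] at h
    rw [mul_comm]
    exact h
  have ev : ∀ᶠ g in 𝓝 (1 : G), g ∈ Q → Φ g = ∑ i, κ i * t g i := by
    have tc0 : Tendsto t (𝓝 1) (𝓝 0) := by
      have := tsm.continuousAt.tendsto
      rwa [t1] at this
    have tc : Tendsto (fun g => (fun i => if l i < 0 then t g i else 0)) (𝓝 1)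
        (𝓝 (0 : Fin n → ℝ)) := by
      rw [tendsto_pi_nhds]
      intro i
      by_cases hi : l i < 0
      · simp only [hi, if_true]
        exact (tendsto_pi_nhds.1 tc0) i
      · simp only [hi, if_false]
        exact tendsto_const_nhds
    filter_upwards [tg, tc.eventually (loc_inj K anti b l H hEig)] with g h1 h2 hg
    have sp := tau_split K b l hEig.mono (t g)
    obtain ⟨rQ, rΦ⟩ := tau_mem K b l Q hcQ Φ Φ1 Φm κ hκ (fun i => if l i < 0 then 0 else t g i)
      (fun i hi => if_pos hi)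
    have yQ : tau c b (fun i => if l i < 0 then t g i else 0) ∈ Q := by
      rw [← Q.mul_mem_cancel_right rQ, ← sp, h1]
      exact hg
    have hneg : ∀ i, ¬ l i < 0 → (fun i => if l i < 0 then t g i else 0) i = 0 :=
      fun i hi => if_neg hi
    have hfix := fixH K hP hB anti jac b l H hH hEig _ hneg ((hQ _).1 yQ)
    have x0 := h2 hneg hfix
    have xe : (fun i => if l i < 0 then 0 else t g i) = t g := by
      funext i
      by_cases hi : l i < 0
      · have := congrFun x0 i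
        simp only [hi, if_true, Pi.zero_apply] at this ⊢
        exact this.symm
      · simp only [hi, if_false]
    rw [xe, h1] at rΦ
    refine rΦ.trans (Finset.sum_congr rfl (fun i _ => ?_))
    exact congrArg (fun y => κ i * y) (congrFun xe i)
  have hf0 : f m₀ ∈ Q := hfQ.self_of_nhds
  let Lc : (Fin n → ℝ) →L[ℝ] ℝ := ∑ i, κ i • ContinuousLinearMap.proj i
  have hLc : ∀ x, Lc x = ∑ i, κ i * x i := by
    intro x
    simp [Lc]
  have kc : ContMDiffAt 𝓘(ℝ, F) 𝓘(ℝ, E) ∞ (fun m => (f m₀)⁻¹ * f m) m₀ :=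
    ContMDiffAt.comp (g := fun x : G => (f m₀)⁻¹ * x) m₀ contMDiff_mul_left.contMDiffAt hf
  have k0 : (f m₀)⁻¹ * f m₀ = 1 := inv_mul_cancel _
  have tk : ContMDiffAt 𝓘(ℝ, F) 𝓘(ℝ, Fin n → ℝ) ∞ (fun m => t ((f m₀)⁻¹ * f m)) m₀ := by
    apply ContMDiffAt.comp (g := t) m₀ _ kc
    rw [k0]
    exact tsm
  refine ⟨fun m => Φ (f m₀) + Lc (t ((f m₀)⁻¹ * f m)), ?_, ?_⟩
  · exact ContMDiffAt.comp (g := fun x : Fin n → ℝ => Φ (f m₀) + Lc x) m₀
      (contDiff_const.add Lc.contDiff).contMDiff.contMDiffAt tk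
  · have kt : Tendsto (fun m => (f m₀)⁻¹ * f m) (𝓝 m₀) (𝓝 1) := by
      have := kc.continuousAt.tendsto
      rwa [k0] at this
    filter_upwards [hfQ, kt.eventually ev] with m h1 h2 h
    have h3 : (f m₀)⁻¹ * f m ∈ Q := Q.mul_mem (Q.inv_mem hf0) h1
    have h4 := h2 h3
    rw [← Φv _ h, hLc, ← h4, ← Φm _ hf0 _ h3, mul_inv_cancel_left]

end Pool.Agent.T6.H55.ST
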