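import Pool.Agent.T6.H55.ST.Stm

/-!
# Project ST, module TRV: transversality
-/

set_option autoImplicit false

open scoped Manifold ContDiff Topology
open MeasureTheory Set Filter

namespace Pool.Agent.T6.H55.ST

namespace ModTRV

theorem exp_mem {E : Type} [NormedAddCommGroup E] [NormedSpace ℝ E] [FiniteDimensional ℝ E]
    (A : E →L[ℝ] E) (J : Submodule ℝ E) (h : ∀ w ∈ J, A w ∈ J) :
    ∀ w ∈ J, (NormedSpace.exp A) w ∈ J := by
  have : CompleteSpace E := FiniteDimensional.complete ℝ E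
  intro w hw
  have hs : HasSum (fun n : ℕ => ((n.factorial : ℝ)⁻¹ • A ^ n)) (NormedSpace.exp A) :=
    NormedSpace.exp_series_hasSum_exp' (𝕂 := ℝ) A
  have hs2 : HasSum (fun n : ℕ => ((n.factorial : ℝ)⁻¹ • A ^ n) w) (NormedSpace.exp A w) :=
    hs.mapL (ContinuousLinearMap.apply ℝ E w)
  have hpow : ∀ n : ℕ, (A ^ n) w ∈ J := by
    intro n
    induction n with
    | zero => simpa using hw
    | succ n ih =>
      rw [pow_succ']
      exact h _ ih
  refine (Submodule.closed_of_finiteDimensional J).mem_of_tendsto hs2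
    (Eventually.of_forall fun s => ?_)
  exact J.sum_mem fun n _ => J.smul_mem _ (hpow n)

theorem split_prod {G : Type} [Group G] (Y U : Submonoid G) :
    ∀ (n : ℕ) (p : Fin n → Prop) (_ : ∀ i j, i ≤ j → p i → p j) (k : Fin n → G),
      (∀ i, ¬ p i → k i ∈ Y) → (∀ i, p i → k i ∈ U) →
      ∃ y ∈ Y, ∃ u ∈ U, (List.ofFn k).prod = y * u := by
  intro n
  induction n with
  | zero =>
    intro p _ k _ _
    exact ⟨1, Y.one_mem, 1, U.one_mem, by simp⟩
  | succ n ih =>
    intro p hp k hY hU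
    by_cases h0 : p 0
    · refine ⟨1, Y.one_mem, (List.ofFn k).prod, ?_, by simp⟩
      refine Submonoid.list_prod_mem U fun x hx => ?_
      rw [List.mem_ofFn] at hx
      obtain ⟨i, rfl⟩ := hx
      exact hU i (hp 0 i (Fin.zero_le i) h0)
    · obtain ⟨y, hy, u, hu, e⟩ := ih (fun i => p i.succ)
        (fun i j hij h => hp i.succ j.succ (Fin.succ_le_succ_iff.2 hij) h)
        (fun i => k i.succ) (fun i hi => hY i.succ hi) (fun i hi => hU i.succ hi)
      refine ⟨k 0 * y, Y.mul_mem (hY 0 h0) hy, u, hu, ?_⟩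
      rw [List.ofFn_succ, List.prod_cons, e, mul_assoc]

end ModTRV

open ModTRV in
theorem trv (E : Type) [NormedAddCommGroup E] [NormedSpace ℝ E] [FiniteDimensional ℝ E]
    (G : Type) [TopologicalSpace G] [Group G] [IsTopologicalGroup G]
    (hJ : StmJAC E G) (hE : StmEIG E) (hP : StmPRT E) (hB : StmBRK E) (hU : StmUCN G) :
    StmTRV E G := by
  intro _ Ad ad c kit H hH a hyp Z hZ hZa
  obtain ⟨anti, jac⟩ := hJ Ad ad c kit
  obtain ⟨n, b, l, heig⟩ := hE ad H hH
  obtain ⟨p1, p2, -⟩ := hP ad H n b l heig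
  by_contra hZ0
  -- the adjoint representation
  have Ad_inv : ∀ g w, Ad g⁻¹ (Ad g w) = w := by
    intro g w
    have := kit.Ad_mul g⁻¹ g
    rw [inv_mul_cancel, kit.Ad_one] at this
    have h2 := congrArg (fun f : E →L[ℝ] E => f w) this
    simpa using h2.symm
  have Ad_mul : ∀ g h w, Ad (g * h) w = Ad g (Ad h w) := by
    intro g h w
    rw [kit.Ad_mul]
    rfl
  -- the complement
  have hcompl : IsCompl (part ad H (Set.Ioi 0)) (part ad H (Set.Iic 0)) := by
    constructor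
    · rw [Submodule.disjoint_def]
      intro X h1 h2
      rw [p2] at h1 h2
      apply b.repr.injective
      ext i
      rw [map_zero, Finsupp.zero_apply]
      by_cases hi : 0 < l i
      · exact h2 i (fun h => absurd hi (not_lt.2 h))
      · exact h1 i hi
    · rw [codisjoint_iff, p1, p1, ← Submodule.span_union, ← Set.image_union]
      have : {i | l i ∈ Set.Ioi (0 : ℝ)} ∪ {i | l i ∈ Set.Iic (0 : ℝ)} = Set.univ := by
        ext i
        simp only [Set.mem_union, Set.mem_setOf_eq, Set.mem_Ioi, Set.mem_Iic, Set.mem_univ,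
          iff_true]
        exact lt_or_ge 0 (l i)
      rw [this, Set.image_univ]
      exact b.span_eq
  set Pp := part ad H (Set.Ioi 0) with hPp
  set Pm := part ad H (Set.Iic 0) with hPm
  set R : E →ₗ[ℝ] Pp := Submodule.projectionOnto Pp Pm hcompl with hR
  have hR0 : ∀ x, R x = 0 ↔ x ∈ Pm := fun x => Submodule.projectionOnto_apply_eq_zero_iff hcompl
  have hRl : ∀ x : Pp, R x = x := fun x => Submodule.projectionOnto_apply_left hcompl x
  set e := Module.finBasis ℝ Pp with he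
  -- the multilinear form
  set D : MultilinearMap ℝ (fun _ : Fin (Module.finrank ℝ Pp) => E) ℝ :=
    e.det.toMultilinearMap.compLinearMap (fun _ => R) with hD
  have hDa : ∀ v, D v = e.det (fun i => R (v i)) := fun v => rfl
  set v0 : Fin (Module.finrank ℝ Pp) → E := fun i => Ad a (e i : E) with hv0
  have hDdet : ∀ g : G, D (fun i => Ad g (v0 i)) =
      LinearMap.det (R ∘ₗ ((Ad g : E →L[ℝ] E) : E →ₗ[ℝ] E) ∘ₗ ((Ad a : E →L[ℝ] E) : E →ₗ[ℝ] E) ∘ₗ
        Pp.subtype) := by
    intro g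
    rw [hDa]
    have := e.det_comp (R ∘ₗ ((Ad g : E →L[ℝ] E) : E →ₗ[ℝ] E) ∘ₗ
      ((Ad a : E →L[ℝ] E) : E →ₗ[ℝ] E) ∘ₗ Pp.subtype) e
    rw [Module.Basis.det_self, mul_one] at this
    rw [← this]
    rfl
  -- the submonoids
  let Y : Submonoid G :=
    { carrier := {y | ∀ w ∈ Pm, Ad y w ∈ Pm}
      one_mem' := by
        intro w hw
        rw [kit.Ad_one]
        exact hw
      mul_mem' := by
        intro x y hx hy w hw
        rw [Ad_mul]
        exact hx _ (hy _ hw) }
  let V : Submodule ℝ E := Pp.map ((Ad a : E →L[ℝ] E) : E →ₗ[ℝ] E)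
  let U : Submonoid G :=
    { carrier := {u | V.map ((Ad u : E →L[ℝ] E) : E →ₗ[ℝ] E) = V}
      one_mem' := by
        show V.map ((Ad 1 : E →L[ℝ] E) : E →ₗ[ℝ] E) = V
        rw [kit.Ad_one]
        exact Submodule.map_id V
      mul_mem' := by
        intro x y hx hy
        show V.map ((Ad (x * y) : E →L[ℝ] E) : E →ₗ[ℝ] E) = V
        have h1 : V.map ((Ad x : E →L[ℝ] E) : E →ₗ[ℝ] E) = V := hx
        have h2 : V.map ((Ad y : E →L[ℝ] E) : E →ₗ[ℝ] E) = V := hy
        have h3 : ((Ad (x * y) : E →L[ℝ] E) : E →ₗ[ℝ] E) =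
            ((Ad x : E →L[ℝ] E) : E →ₗ[ℝ] E) ∘ₗ ((Ad y : E →L[ℝ] E) : E →ₗ[ℝ] E) := by
          rw [kit.Ad_mul]
          rfl
        rw [h3, Submodule.map_comp, h2, h1] }
  have hYU : ∀ t : Fin n → ℝ, ∃ y ∈ Y, ∃ u ∈ U, tau c b t = y * u := by
    intro t
    refine split_prod Y U n (fun i => 0 < l i)
      (fun i j hij hi => lt_of_lt_of_le hi (heig.mono hij)) (fun i => c (b i) (t i)) ?_ ?_
    · intro i hi w hw
      rw [kit.Ad_c]
      refine exp_mem _ Pm ?_ w hw
      intro w' hw'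
      have hb : b i ∈ Pm := by
        rw [hPm, p1]
        exact Submodule.subset_span ⟨i, not_lt.1 hi, rfl⟩
      exact Pm.smul_mem _ (hB ad H hH anti jac (Set.Iic 0) (Set.Iic 0) (Set.Iic 0)
        (fun x hx y hy => by
          simp only [Set.mem_Iic] at *
          linarith) _ hb _ hw')
    · intro i hi
      show V.map ((Ad (c (b i) (t i)) : E →L[ℝ] E) : E →ₗ[ℝ] E) = V
      have h1 := hyp (l i) (b i) (t i) hi (heig.eig i)
      have h3 : ((Ad (c (b i) (t i) * a) : E →L[ℝ] E) : E →ₗ[ℝ] E) =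
          ((Ad (c (b i) (t i)) : E →L[ℝ] E) : E →ₗ[ℝ] E) ∘ₗ ((Ad a : E →L[ℝ] E) : E →ₗ[ℝ] E) := by
        rw [kit.Ad_mul]
        rfl
      rw [h3, Submodule.map_comp] at h1
      exact h1
  -- vanishing on the products
  have hzero : ∀ t : Fin n → ℝ, D (fun i => Ad (tau c b t) (v0 i)) = 0 := by
    intro t
    obtain ⟨y, hy, u, hu, e1⟩ := hYU t
    rw [e1, hDdet, LinearMap.det_eq_zero_iff_ker_ne_bot]
    have hu' : V.map ((Ad u : E →L[ℝ] E) : E →ₗ[ℝ] E) = V := hu
    have hZV : Ad a Z ∈ V := ⟨Z, hZ, rfl⟩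
    rw [← hu'] at hZV
    obtain ⟨v, ⟨Z', hZ', rfl⟩, hv⟩ := hZV
    have hv' : Ad u (Ad a Z') = Ad a Z := hv
    rw [Submodule.ne_bot_iff]
    refine ⟨⟨Z', hZ'⟩, ?_, ?_⟩
    · rw [LinearMap.mem_ker]
      show R (Ad (y * u) (Ad a Z')) = 0
      rw [hR0, Ad_mul, hv']
      exact hy _ hZa
    · intro h0
      have h1 : Z' = 0 := congrArg Subtype.val h0
      rw [h1, map_zero, map_zero] at hv'
      apply hZ0
      rw [← Ad_inv a Z, ← hv', map_zero]
  -- vanishing near 1
  have hnear : ∀ᶠ g in 𝓝 (1 : G), D (fun i => Ad g (v0 i)) = 0 := by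
    filter_upwards [kit.nhd n b Set.univ Filter.univ_mem] with g hg
    obtain ⟨t, -, rfl⟩ := hg
    exact hzero t
  have hnear' : ∀ᶠ g in 𝓝 (1 : G), D (fun i => Ad g⁻¹ (v0 i)) = 0 := by
    have ht : Tendsto (fun g : G => g⁻¹) (𝓝 1) (𝓝 1) := by
      have := (continuous_inv (G := G)).tendsto 1
      rwa [inv_one] at this
    exact ht.eventually hnear
  -- the representation
  let π : G →* Module.End ℝ (MultilinearMap ℝ (fun _ : Fin (Module.finrank ℝ Pp) => E) ℝ) :=
    { toFun := fun g => MultilinearMap.compLinearMapₗ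
        (fun _ => ((Ad g⁻¹ : E →L[ℝ] E) : E →ₗ[ℝ] E))
      map_one' := by
        refine LinearMap.ext fun w => ?_
        refine MultilinearMap.ext fun v => ?_
        show w (fun i => Ad (1 : G)⁻¹ (v i)) = w v
        rw [inv_one, kit.Ad_one]
        rfl
      map_mul' := by
        intro g h
        refine LinearMap.ext fun w => ?_
        refine MultilinearMap.ext fun v => ?_
        show w (fun i => Ad (g * h)⁻¹ (v i)) = w (fun i => Ad h⁻¹ (Ad g⁻¹ (v i)))
        congr 1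
        funext i
        rw [mul_inv_rev, Ad_mul] }
  let ξ : Module.Dual ℝ (MultilinearMap ℝ (fun _ : Fin (Module.finrank ℝ Pp) => E) ℝ) :=
    { toFun := fun w => w v0
      map_add' := fun _ _ => rfl
      map_smul' := fun _ _ => rfl }
  have hall := hU (MultilinearMap ℝ (fun _ : Fin (Module.finrank ℝ Pp) => E) ℝ) π D ξ hnear' a
  have hfin : D (fun i => Ad a⁻¹ (v0 i)) = 0 := hall
  have h1 : D (fun i => Ad a⁻¹ (v0 i)) = 1 := by
    rw [hDa]
    have h2 : (fun i => R (Ad a⁻¹ (v0 i))) = e := by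
      funext i
      rw [hv0]
      simp only
      rw [Ad_inv, hRl]
    rw [h2]
    exact e.det_self
  rw [h1] at hfin
  exact one_ne_zero hfin

end Pool.Agent.T6.H55.ST
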