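import Pool.Agent.T6.H55.ST.Stm

set_option autoImplicit false

/-!
# Module UCN: unique continuation for finite dimensional representations of connected groups
-/

open scoped Topology
open Set Filter

namespace Pool.Agent.T6.H55.ST

/-- Module UCN. -/
theorem ucn (G : Type) [TopologicalSpace G] [Group G] [IsTopologicalGroup G] : StmUCN G := by
  classical
  intro _ W _ _ _ π w ξ hξ
  obtain ⟨K, hK⟩ : ∃ K : Set G → Submodule ℝ W,
      K = fun O => Submodule.span ℝ ((fun g => π g w) '' O) := ⟨_, rfl⟩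
  have hmono : ∀ O O' : Set G, O ⊆ O' → K O ≤ K O' := by
    intro O O' h
    rw [hK]
    exact Submodule.span_mono (image_mono h)
  have hmem : ∀ (O : Set G) (g : G), g ∈ O → π g w ∈ K O := by
    intro O g hg
    rw [hK]
    exact Submodule.subset_span ⟨g, hg, rfl⟩
  have hle : ∀ (O : Set G) (N : Submodule ℝ W), (∀ g ∈ O, π g w ∈ N) → K O ≤ N := by
    intro O N h
    rw [hK]
    apply Submodule.span_le.2
    rintro _ ⟨g, hg, rfl⟩
    exact h g hg
  obtain ⟨O0, hO0, hmin⟩ : ∃ O ∈ 𝓝 (1 : G), ∀ O' ∈ 𝓝 (1 : G),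
      Module.finrank ℝ (K O) ≤ Module.finrank ℝ (K O') := by
    have hP : ∃ n, ∃ O ∈ 𝓝 (1 : G), Module.finrank ℝ (K O) = n :=
      ⟨_, univ, univ_mem, rfl⟩
    obtain ⟨O, hO, h⟩ := Nat.find_spec hP
    refine ⟨O, hO, fun O' hO' => ?_⟩
    rw [h]
    exact Nat.find_min' hP ⟨O', hO', rfl⟩
  have heq : ∀ O ∈ 𝓝 (1 : G), O ⊆ O0 → K O = K O0 := fun O hO hs =>
    Submodule.eq_of_le_of_finrank_le (hmono _ _ hs) (hmin O hO)
  obtain ⟨O1, hO1, hmul⟩ := exists_nhds_one_split hO0
  have hstab : ∀ g ∈ O1, ∀ x ∈ K O0, π g x ∈ K O0 := by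
    intro g hg x hx
    rw [← heq (O1 ∩ O0) (inter_mem hO1 hO0) inter_subset_right] at hx
    have h1 : K (O1 ∩ O0) ≤ (K O0).comap (π g) := by
      apply hle
      intro h hh
      rw [Submodule.mem_comap]
      have h2 : π g (π h w) = π (g * h) w := by rw [map_mul]; rfl
      rw [h2]
      exact hmem _ _ (hmul g hg h hh.1)
    exact h1 hx
  let S : Subgroup G :=
    { carrier := {g | ∀ x ∈ K O0, π g x ∈ K O0 ∧ π g⁻¹ x ∈ K O0}
      mul_mem' := by
        intro a b ha hb x hx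
        refine ⟨?_, ?_⟩
        · have h2 : π (a * b) x = π a (π b x) := by rw [map_mul]; rfl
          rw [h2]
          exact (ha _ (hb x hx).1).1
        · have h2 : π (a * b)⁻¹ x = π b⁻¹ (π a⁻¹ x) := by rw [mul_inv_rev, map_mul]; rfl
          rw [h2]
          exact (hb _ (ha x hx).2).2
      one_mem' := by
        intro x hx
        rw [inv_one, map_one]
        exact ⟨hx, hx⟩
      inv_mem' := by
        intro a ha x hx
        rw [inv_inv]
        exact ⟨(ha x hx).2, (ha x hx).1⟩ }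
  have hS : (S : Set G) ∈ 𝓝 (1 : G) := by
    have h1 : O1 ∩ O1⁻¹ ∈ 𝓝 (1 : G) := inter_mem hO1 (inv_mem_nhds_one G hO1)
    refine mem_of_superset h1 ?_
    intro g hg x hx
    exact ⟨hstab g hg.1 x hx, hstab g⁻¹ hg.2 x hx⟩
  have hopen : IsOpen (S : Set G) := S.isOpen_of_mem_nhds hS
  have hclosed : IsClosed (S : Set G) := S.isClosed_of_isOpen hopen
  have huniv : (S : Set G) = univ := IsClopen.eq_univ ⟨hclosed, hopen⟩ ⟨1, S.one_mem⟩
  have hker : K O0 ≤ LinearMap.ker ξ := by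
    rw [← heq ({g | ξ (π g w) = 0} ∩ O0) (inter_mem hξ hO0) inter_subset_right]
    apply hle
    intro g hg
    exact hg.1
  intro g
  have h1 : g ∈ (S : Set G) := by rw [huniv]; exact mem_univ g
  have h2 : w ∈ K O0 := by
    have := hmem O0 1 (mem_of_mem_nhds hO0)
    rwa [map_one] at this
  exact hker (h1 w h2).1

end Pool.Agent.T6.H55.ST
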