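import Pool.Agent.T6.H55.ST.Stm

set_option autoImplicit false

open scoped Manifold ContDiff Topology
open MeasureTheory Set Filter

namespace Pool.Agent.T6.H55.ST

namespace ModUNI

variable {E : Type} [NormedAddCommGroup E] [NormedSpace ℝ E] [FiniteDimensional ℝ E]
  {G : Type} [TopologicalSpace G] [ChartedSpace E G] [Group G] [LieGroup 𝓘(ℝ, E) ∞ G] [T2Space G]

lemma isCurve {X : E} {γ : ℝ → G} (h : OnePar E G X γ) :
    IsMIntegralCurve (I := 𝓘(ℝ, E)) γ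
      (mulInvariantVectorField (I := 𝓘(ℝ, E)) (G := G) X) := by
  intro t
  obtain ⟨h1, h2, h3, h4⟩ := h
  have e1 : γ = (fun x => γ t * x) ∘ (γ ∘ (fun s : ℝ => s + (-t))) := by
    funext s
    show γ s = γ t * γ (s + -t)
    rw [← h3]
    congr 1
    ring
  have d1 : HasMFDerivAt 𝓘(ℝ, ℝ) 𝓘(ℝ, ℝ) (fun s : ℝ => s + (-t)) t
      (ContinuousLinearMap.id ℝ ℝ) := by
    apply HasFDerivAt.hasMFDerivAt
    exact (hasFDerivAt_id t).add_const (-t)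
  have d2 : HasMFDerivAt 𝓘(ℝ, ℝ) 𝓘(ℝ, E) γ (t + -t)
      (mfderiv 𝓘(ℝ, ℝ) 𝓘(ℝ, E) γ 0 : ℝ →L[ℝ] E) := by
    rw [add_neg_cancel]
    exact (h1.mdifferentiableAt (by simp)).hasMFDerivAt
  have d3 : HasMFDerivAt 𝓘(ℝ, E) 𝓘(ℝ, E) (fun x : G => γ t * x) (γ (t + -t))
      (mfderiv 𝓘(ℝ, E) 𝓘(ℝ, E) (fun x : G => γ t * x) 1 : E →L[ℝ] E) := by
    rw [add_neg_cancel, h2]
    exact ((contMDiff_mul_left (I := 𝓘(ℝ, E)) (n := ∞) (a := γ t)).mdifferentiableAt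
      (by simp)).hasMFDerivAt
  have d4 := HasMFDerivAt.comp t d3 (HasMFDerivAt.comp t d2 d1)
  rw [← e1] at d4
  have hL : ((1 : ℝ →L[ℝ] ℝ).smulRight
      ((mfderiv 𝓘(ℝ, E) 𝓘(ℝ, E) (fun x : G => γ t * x) 1 : E →L[ℝ] E) X) : ℝ →L[ℝ] E) =
      (mfderiv 𝓘(ℝ, E) 𝓘(ℝ, E) (fun x : G => γ t * x) 1 : E →L[ℝ] E).comp
        ((mfderiv 𝓘(ℝ, ℝ) 𝓘(ℝ, E) γ 0 : ℝ →L[ℝ] E).comp (ContinuousLinearMap.id ℝ ℝ)) := by
    apply ContinuousLinearMap.ext_ring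
    rw [← h4]
    exact one_smul ℝ _
  exact (congrArg (fun L => HasMFDerivAt 𝓘(ℝ, ℝ) 𝓘(ℝ, E) γ t L) hL).mpr d4

end ModUNI

open ModUNI in
theorem uni (E : Type) [NormedAddCommGroup E] [NormedSpace ℝ E] [FiniteDimensional ℝ E]
    (G : Type) [TopologicalSpace G] [ChartedSpace E G] [Group G] [LieGroup 𝓘(ℝ, E) ∞ G]
    [T2Space G] : StmUNI E G := by
  intro X γ δ hγ hδ
  have : LieGroup 𝓘(ℝ, E) (minSmoothness ℝ 3) G := by
    rw [minSmoothness_of_isRCLikeNormedField]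
    exact LieGroup.of_le (n := ∞) (by norm_cast)
  have hv := (contMDiff_mulInvariantVectorField (I := 𝓘(ℝ, E)) (G := G) X).of_le
    (show (1 : WithTop ℕ∞) ≤ minSmoothness ℝ 2 by
      rw [minSmoothness_of_isRCLikeNormedField]; norm_num)
  exact isMIntegralCurve_Ioo_eq_of_contMDiff_boundaryless (t₀ := 0) hv (isCurve hγ) (isCurve hδ)
    (by rw [hγ.2.1, hδ.2.1])

end Pool.Agent.T6.H55.ST
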