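import Pool.Agent.T6.H55.ST.Bas

/-!
# Assembly of project ST
-/

set_option autoImplicit false

open scoped Manifold ContDiff Topology
open MeasureTheory Set Filter

namespace Pool.Agent.T6.H55.ST

namespace Asm

open Bas

section Nil

variable {E : Type} [NormedAddCommGroup E] [NormedSpace ℝ E] [FiniteDimensional ℝ E]

theorem nilp (hE : StmEIG E) (hP : StmPRT E) (hB : StmBRK E) (ad : E →L[ℝ] (E →L[ℝ] E)) (H : E)
    (hH : Hyp ad H) (h1 : ∀ X Y, ad X Y = - ad Y X)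
    (h2 : ∀ X Y, ad (ad X Y) = (ad X).comp (ad Y) - (ad Y).comp (ad X))
    (r : ℝ) (hr : 0 < r) (X : E) (hX : ad H X = r • X) : IsNilpotent (ad X) := by
  obtain ⟨n, b, l, hb⟩ := hE ad H hH
  obtain ⟨P1, P2, P3⟩ := hP ad H n b l hb
  obtain ⟨C, hC⟩ : ∃ C : ℝ, ∀ i, |l i| ≤ C := by
    obtain ⟨C, hC⟩ := (Set.finite_range fun i => |l i|).bddAbove
    exact ⟨C, fun i => hC ⟨i, rfl⟩⟩
  have hXr : X ∈ part ad H {r} := (P3 r X).2 hX
  have hstep : ∀ (s : ℝ), ∀ Y ∈ part ad H (Ici s), ad X Y ∈ part ad H (Ici (s + r)) := by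
    intro s Y hY
    refine hB ad H hH h1 h2 {r} (Ici s) (Ici (s + r)) ?_ X hXr Y hY
    intro x hx y hy
    rw [mem_singleton_iff] at hx
    rw [mem_Ici] at hy ⊢
    subst hx
    linarith
  have hpow : ∀ (k : ℕ) (s : ℝ), ∀ Y ∈ part ad H (Ici s),
      ((ad X) ^ k : E →L[ℝ] E) Y ∈ part ad H (Ici (s + k * r)) := by
    intro k
    induction k with
    | zero => intro s Y hY; simpa using hY
    | succ k ih =>
      intro s Y hY
      rw [pow_succ']
      have := hstep _ _ (ih s Y hY)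
      have e : s + (k : ℝ) * r + r = s + ((k + 1 : ℕ) : ℝ) * r := by push_cast; ring
      rw [← e]
      exact this
  obtain ⟨k, hk⟩ := exists_nat_gt ((2 * C) / r)
  refine ⟨k, ?_⟩
  ext Y
  have hY : Y ∈ part ad H (Ici (-C)) := by
    rw [P2]
    intro i hi
    exact absurd (mem_Ici.2 (neg_le_of_abs_le (hC i))) hi
  have h3 := hpow k _ Y hY
  rw [P2] at h3
  have h4 : b.repr (((ad X) ^ k : E →L[ℝ] E) Y) = 0 := by
    ext i
    apply h3
    rw [mem_Ici, not_le]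
    have h5 : 2 * C < k * r := by
      rwa [div_lt_iff₀ hr] at hk
    have := le_of_abs_le (hC i)
    linarith
  have h5 := b.repr.map_eq_zero_iff.1 h4
  simpa using h5

end Nil

section Cls

variable {F : Type} [NormedAddCommGroup F] [NormedSpace ℝ F]
  {M : Type} [TopologicalSpace M] [ChartedSpace F M]
  {G : Type} [Group G] {Q : Subgroup G}
  (φ : Q →* Multiplicative ℝ) (ρ : SFlow F M)

theorem cls_eq {x y : G × M} : cls φ ρ x = cls φ ρ y ↔ rel φ ρ x y :=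
  ⟨fun h => Quotient.exact h, fun h => Quotient.sound h⟩

theorem cls_q (g : G) (m : M) (q : Q) :
    cls φ ρ (g * (q : G)⁻¹, ρ.map (Multiplicative.toAdd (φ q)) m) = cls φ ρ (g, m) :=
  ((cls_eq φ ρ).2 ⟨q, rfl, rfl⟩).symm

theorem cls_one (g : G) (m : M) (q : Q) (h : φ q = 1) :
    cls φ ρ (g * (q : G)⁻¹, m) = cls φ ρ (g, m) := by
  have := cls_q φ ρ g m q
  rw [h] at this
  simpa [ρ.zero] using this

theorem act_cls (g : G) (x : G × M) : act φ ρ g (cls φ ρ x) = cls φ ρ (g * x.1, x.2) := rfl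

theorem cls_inj (g : G) (m m' : M) (h : cls φ ρ (g, m) = cls φ ρ (g, m')) : m = m' := by
  obtain ⟨q, h1, h2⟩ := (cls_eq φ ρ).1 h
  have h3 : (q : G) = 1 := by
    have h1' : g = g * (q : G)⁻¹ := h1
    have h5 : (q : G)⁻¹ = 1 := mul_left_cancel (a := g) (by rw [← h1', mul_one])
    exact inv_eq_one.1 h5
  have h4 : q = 1 := Subtype.ext h3
  rw [h4, map_one] at h2
  simpa [ρ.zero] using h2.symm

end Cls

section Main

variable {E : Type} [NormedAddCommGroup E] [NormedSpace ℝ E] [FiniteDimensional ℝ E]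
  {G : Type} [TopologicalSpace G] [ChartedSpace E G] [Group G] [LieGroup 𝓘(ℝ, E) ∞ G] [T2Space G]
  [IsTopologicalGroup G] [SecondCountableTopology G]
  {Ad : G → E →L[ℝ] E} {ad : E →L[ℝ] (E →L[ℝ] E)} {c : E → ℝ → G}

/-- a homomorphism to the reals vanishes on the unipotent radical -/
theorem phi_c (K : IsKit Ad ad c) {Q : Subgroup G} (φ : Q →* Multiplicative ℝ) (hφ : Continuous φ)
    (H X : E) (r : ℝ) (hr : 0 < r) (hX : ad H X = r • X) (h1 : ∀ s, c H s ∈ Q)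
    (h2 : ∀ s, c X s ∈ Q) (t : ℝ) : φ ⟨c X t, h2 t⟩ = 1 := by
  have key : ∀ s : ℝ, φ ⟨c X (Real.exp (s * r) * t), h2 _⟩ = φ ⟨c X t, h2 t⟩ := by
    intro s
    have e : (⟨c X (Real.exp (s * r) * t), h2 _⟩ : Q) =
        ⟨c H s, h1 s⟩ * ⟨c X t, h2 t⟩ * ⟨c H s, h1 s⟩⁻¹ := by
      apply Subtype.ext
      exact (c_conj_eig K H X r hX s t).symm
    rw [e, map_mul, map_mul, map_inv, mul_comm, inv_mul_cancel_left]
  have hc : Continuous fun s : ℝ => φ ⟨c X s, h2 s⟩ :=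
    hφ.comp ((K.c_cont X).subtype_mk _)
  have h0 : Tendsto (fun s : ℝ => Real.exp (s * r) * t) atBot (𝓝 0) := by
    have h3 : Tendsto (fun s : ℝ => s * r) atBot atBot := tendsto_id.atBot_mul_const hr
    have h4 := (Real.tendsto_exp_atBot.comp h3).mul_const t
    simpa using h4
  have h5 : Tendsto (fun s : ℝ => φ ⟨c X (Real.exp (s * r) * t), h2 _⟩) atBot
      (𝓝 (φ ⟨c X 0, h2 0⟩)) := (hc.tendsto 0).comp h0
  have h6 : Tendsto (fun s : ℝ => φ ⟨c X (Real.exp (s * r) * t), h2 _⟩) atBot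
      (𝓝 (φ ⟨c X t, h2 t⟩)) := by
    simp_rw [key]
    exact tendsto_const_nhds
  have h7 := tendsto_nhds_unique h6 h5
  rw [h7]
  have e : (⟨c X 0, h2 0⟩ : Q) = 1 := Subtype.ext (K.c_zero X)
  rw [e, map_one]

variable {F : Type} [NormedAddCommGroup F] [NormedSpace ℝ F]
  {M : Type} [TopologicalSpace M] [ChartedSpace F M]
  {F' : Type} [NormedAddCommGroup F'] [NormedSpace ℝ F']
  {M' : Type} [TopologicalSpace M'] [ChartedSpace F' M']

theorem rec_step (hRec : StmREC G) (hPol : StmPOL E) (K : IsKit Ad ad c) {Q : Subgroup G}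
    (q : Submodule ℝ E) (hQ : ∀ g : G, g ∈ Q ↔ q.map (Ad g : E →ₗ[ℝ] E) = q)
    (φ : Q →* Multiplicative ℝ) (Γ : Subgroup G) (hΓ : Lattice Γ)
    (ρ : SFlow F M) (ρ' : SFlow F' M') (h : Ind φ ρ → Ind φ ρ') (hs : SmoothInd E φ ρ ρ' h)
    (hh : ∀ γ ∈ Γ, ∀ x, h (act φ ρ γ x) = act φ ρ' γ (h x))
    (X : E) (t : ℝ) (hN : IsNilpotent (t • ad X)) (hu : c X t ∈ Q) (hφu : φ ⟨c X t, hu⟩ = 1)
    (x : G × M) (y : G × M') (hxy : h (cls φ ρ x) = cls φ ρ' y) :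
    q.map (Ad ((x.1⁻¹ * y.1)⁻¹ * c X t * (x.1⁻¹ * y.1)) : E →ₗ[ℝ] E) = q := by
  obtain ⟨g, m⟩ := x
  obtain ⟨W₀, hW₀, L, hL, hW₀L⟩ := hs (g, m)
  set W := interior W₀ with hW
  have hWo : IsOpen W := isOpen_interior
  have hxW : (g, m) ∈ W := mem_interior_iff_mem_nhds.2 hW₀
  have hWL : ∀ z ∈ W, h (cls φ ρ z) = cls φ ρ' (L z) := fun z hz => hW₀L z (interior_subset hz)
  have hLc : ∀ z ∈ W, ContinuousAt L z := fun z hz =>
    (hL.continuousOn.continuousAt (mem_interior_iff_mem_nhds.1 hz))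
  set u := c X t with hudef
  have hclq : IsClosed (q : Set E) := q.closed_of_finiteDimensional
  -- the claim at recurrent points
  have main1 : ∀ g' : G, (g', m) ∈ W →
      (∀ O ∈ 𝓝 g', ∀ n₀ : ℕ, ∃ n, n₀ ≤ n ∧ ∃ γ ∈ Γ, γ * g' * (u ^ n)⁻¹ ∈ O) →
      ∀ Y ∈ q, Ad ((g'⁻¹ * (L (g', m)).1)⁻¹ * u * (g'⁻¹ * (L (g', m)).1)) Y ∈ q := by
    intro g' hg' hrec
    obtain ⟨O, hO⟩ := (𝓝 g').exists_antitone_basis
    have hWm : {z : G | (z, m) ∈ W} ∈ 𝓝 g' := by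
      have : Continuous fun z : G => (z, m) := by fun_prop
      exact this.continuousAt.preimage_mem_nhds (hWo.mem_nhds hg')
    have hch : ∀ k : ℕ, ∃ n, k ≤ n ∧ ∃ γ ∈ Γ,
        γ * g' * (u ^ n)⁻¹ ∈ O k ∩ {z : G | (z, m) ∈ W} := fun k =>
      hrec _ (inter_mem (hO.toHasBasis.mem_of_mem trivial) hWm) k
    choose n hn γ hγ hz using hch
    set z : ℕ → G := fun k => γ k * g' * (u ^ n k)⁻¹ with hzdef
    have hzt : Tendsto z atTop (𝓝 g') := hO.tendsto fun k => (hz k).1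
    set a : G := g'⁻¹ * (L (g', m)).1 with ha
    set w : ℕ → G := fun k => (z k)⁻¹ * (L (z k, m)).1 with hwdef
    have hwt : Tendsto w atTop (𝓝 a) := by
      have h1 : Tendsto (fun k => (z k, m)) atTop (𝓝 (g', m)) :=
        hzt.prodMk_nhds tendsto_const_nhds
      have h2 : Tendsto (fun k => (L (z k, m)).1) atTop (𝓝 (L (g', m)).1) :=
        (continuous_fst.tendsto _).comp ((hLc _ hg').tendsto.comp h1)
      exact hzt.inv.mul h2
    have hwk : ∀ k, ∃ p : Q, w k = u ^ n k * a * (p : G)⁻¹ := by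
      intro k
      have h1 : h (cls φ ρ (z k, m)) = cls φ ρ' (L (z k, m)) := hWL _ (hz k).2
      have hun : u ^ n k ∈ Q := Q.pow_mem hu _
      have hφn : φ ⟨u ^ n k, hun⟩ = 1 := by
        have e : (⟨u ^ n k, hun⟩ : Q) = (⟨u, hu⟩ : Q) ^ n k := rfl
        rw [e, map_pow, hφu, one_pow]
      have h2 : cls φ ρ (z k, m) = act φ ρ (γ k) (cls φ ρ (g', m)) := by
        rw [← cls_one φ ρ g' m ⟨u ^ n k, hun⟩ hφn, act_cls]
        simp only [hzdef, mul_assoc]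
      rw [h2, hh _ (hγ k), hWL _ hg', act_cls] at h1
      obtain ⟨p, hp1, -⟩ := (cls_eq φ ρ').1 h1
      refine ⟨p, ?_⟩
      simp only [hwdef, ha]
      rw [hp1]
      simp only [hzdef]
      group
    have hWm2 : ∀ k, (q.map (Ad a : E →ₗ[ℝ] E)).map (Ad (w k * a⁻¹) : E →ₗ[ℝ] E) =
        (q.map (Ad a : E →ₗ[ℝ] E)).map
          ((NormedSpace.exp ((n k : ℝ) • (t • ad X)) : E →L[ℝ] E) : E →ₗ[ℝ] E) := by
      intro k
      obtain ⟨p, hp⟩ := hwk k
      have e1 : NormedSpace.exp ((n k : ℝ) • (t • ad X)) = Ad (u ^ n k) := by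
        rw [hudef, c_pow K, K.Ad_c, smul_smul]
      rw [e1, ← map_Ad_mul K, ← map_Ad_mul K, inv_mul_cancel_right, hp, map_Ad_mul K _ (p : G)⁻¹,
        (hQ _).1 (Q.inv_mem p.2)]
    have hT : Tendsto (fun k => Ad (w k * a⁻¹)) atTop (𝓝 (ContinuousLinearMap.id ℝ E)) := by
      have h1 : Tendsto (fun k => w k * a⁻¹) atTop (𝓝 (a * a⁻¹)) := hwt.mul_const _
      rw [mul_inv_cancel] at h1
      have h2 := (K.Ad_cont.tendsto 1).comp h1
      rw [K.Ad_one] at h2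
      exact h2
    have hnt : Tendsto n atTop atTop := tendsto_atTop_mono hn tendsto_id
    have h3 := hPol (t • ad X) hN (q.map (Ad a : E →ₗ[ℝ] E)) (fun k => Ad (w k * a⁻¹)) n hT hnt hWm2
    rw [← K.Ad_c, ← hudef] at h3
    have h4 : q.map (Ad (a⁻¹ * u * a) : E →ₗ[ℝ] E) = q := by
      rw [mul_assoc, map_Ad_mul K, map_Ad_mul K, h3, ← map_Ad_mul K, inv_mul_cancel, map_Ad_one K]
    intro Y hY
    have : Ad (a⁻¹ * u * a) Y ∈ q.map (Ad (a⁻¹ * u * a) : E →ₗ[ℝ] E) := ⟨Y, hY, rfl⟩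
    rwa [h4] at this
  -- all points
  have main2 : ∀ Y ∈ q, Ad ((g⁻¹ * (L (g, m)).1)⁻¹ * u * (g⁻¹ * (L (g, m)).1)) Y ∈ q := by
    intro Y hY
    by_contra hcon
    have hcont : ContinuousAt (fun g' : G =>
        Ad ((g'⁻¹ * (L (g', m)).1)⁻¹ * u * (g'⁻¹ * (L (g', m)).1)) Y) g := by
      have h1 : ContinuousAt (fun g' : G => (g', m)) g := by fun_prop
      have h2 : ContinuousAt (fun g' : G => (L (g', m)).1) g :=
        continuous_fst.continuousAt.comp (ContinuousAt.comp (f := fun g' : G => (g', m)) (hLc _ hxW) h1)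
      have h3 : ContinuousAt (fun g' : G => g'⁻¹ * (L (g', m)).1) g :=
        (continuousAt_id.inv).mul h2
      have h4 : ContinuousAt (fun g' : G =>
          (g'⁻¹ * (L (g', m)).1)⁻¹ * u * (g'⁻¹ * (L (g', m)).1)) g :=
        (h3.inv.mul continuousAt_const).mul h3
      have h5 := ContinuousAt.comp (g := Ad) K.Ad_cont.continuousAt h4
      exact (ContinuousLinearMap.apply ℝ E Y).continuous.continuousAt.comp h5
    have h1 : ∀ᶠ g' in 𝓝 g, Ad ((g'⁻¹ * (L (g', m)).1)⁻¹ * u * (g'⁻¹ * (L (g', m)).1)) Y ∈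
        (q : Set E)ᶜ := hcont.eventually (hclq.isOpen_compl.mem_nhds hcon)
    have h2 : ∀ᶠ g' in 𝓝 g, (g', m) ∈ W := by
      have : Continuous fun z : G => (z, m) := by fun_prop
      exact this.continuousAt.eventually (hWo.mem_nhds hxW)
    obtain ⟨g', hg'1, hg'2⟩ := (hRec Γ hΓ u).inter_nhds_nonempty (h1.and h2)
    exact hg'2.1 (main1 g' hg'2.2 hg'1 Y hY)
  -- change of the representative
  have h1 : cls φ ρ' (L (g, m)) = cls φ ρ' y := by rw [← hWL _ hxW, hxy]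
  obtain ⟨p, hp, -⟩ := (cls_eq φ ρ').1 h1
  have h2 : (g⁻¹ * y.1)⁻¹ * u * (g⁻¹ * y.1) =
      (p : G) * ((g⁻¹ * (L (g, m)).1)⁻¹ * u * (g⁻¹ * (L (g, m)).1)) * (p : G)⁻¹ := by
    rw [hp]; group
  show q.map (Ad ((g⁻¹ * y.1)⁻¹ * u * (g⁻¹ * y.1)) : E →ₗ[ℝ] E) = q
  rw [h2, map_Ad_mul K, (hQ _).1 (Q.inv_mem p.2), map_Ad_mul K, mem_of_map K q _ main2,
    (hQ _).1 p.2]

end Main

end Asm

end Pool.Agent.T6.H55.ST
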