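import Pool.Agent.T6.H55.ST.Asm

/-!
# Assembly of project ST, second part
-/

set_option autoImplicit false

open scoped Manifold ContDiff Topology
open MeasureTheory Set Filter

namespace Pool.Agent.T6.H55.ST

namespace Asm

open Bas

section Main

variable (E : Type) [NormedAddCommGroup E] [NormedSpace ℝ E] [FiniteDimensional ℝ E]
  (G : Type) [TopologicalSpace G] [ChartedSpace E G] [Group G] [LieGroup 𝓘(ℝ, E) ∞ G] [T2Space G]

/-- All the statements used in the assembly. -/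
structure Mods [IsTopologicalGroup G] : Prop where
  kit : StmKIT E G
  jac : StmJAC E G
  eig : StmEIG E
  prt : StmPRT E
  brk : StmBRK E
  fix' : StmFIX E G
  gen : StmGEN E G
  pol : StmPOL E
  rc : StmREC G
  mau : StmMAU G
  smo : StmSMO E G

variable {E G}
variable [IsTopologicalGroup G] [SecondCountableTopology G] [ConnectedSpace G]
  {F : Type} [NormedAddCommGroup F] [NormedSpace ℝ F]
  {M : Type} [TopologicalSpace M] [ChartedSpace F M]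
  {F' : Type} [NormedAddCommGroup F'] [NormedSpace ℝ F']
  {M' : Type} [TopologicalSpace M'] [ChartedSpace F' M'] [CompactSpace M'] [T2Space M']

theorem fiber (hM : Mods E G) (hG : SimpleLie E G) (Q : Subgroup G) (hQpar : Parabolic E Q)
    (hQtop : Q ≠ ⊤) (φ : Q →* Multiplicative ℝ) (hφ : Continuous φ)
    (Γ : Subgroup G) (hΓ : Lattice Γ)
    (ρ : SFlow F M) (ρ' : SFlow F' M') (h : Ind φ ρ → Ind φ ρ') (hs : SmoothInd E φ ρ ρ' h)
    (hh : ∀ γ ∈ Γ, ∀ x, h (act φ ρ γ x) = act φ ρ' γ (h x)) :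
    ∃ k : M → M', ContMDiff 𝓘(ℝ, F) 𝓘(ℝ, F') ∞ k ∧
      ∀ g m, h (cls φ ρ (g, m)) = cls φ ρ' (g, k m) := by
  obtain ⟨c, hc, K⟩ := hM.kit
  obtain ⟨H, hH, hQ⟩ := id hQpar
  set q : Submodule ℝ E := part (ad E G) H (Ici 0) with hq
  obtain ⟨anti, jac⟩ := hM.jac _ _ c K
  have hqtop : q ≠ ⊤ := by
    intro hcon
    apply hQtop
    rw [eq_top_iff]
    intro g _
    rw [hQ, hcon]
    exact mem_of_map K ⊤ g fun _ _ => trivial
  obtain ⟨n, b, l, hb⟩ := hM.eig _ H hH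
  obtain ⟨P1, P2, P3⟩ := hM.prt _ H n b l hb
  -- one-parameter subgroups in `Q`
  have hQc : ∀ (r : ℝ) (X : E), 0 ≤ r → (ad E G) H X = r • X → ∀ t, c X t ∈ Q := by
    intro r X hr hX t
    rw [hQ]
    apply c_map_eq K
    intro Y hY
    refine hM.brk _ H hH anti jac {r} (Ici 0) (Ici 0) ?_ X ((P3 r X).2 hX) Y hY
    intro x hx y hy
    rw [mem_singleton_iff] at hx
    rw [mem_Ici] at hy ⊢
    linarith
  have hHH : (ad E G) H H = (0 : ℝ) • H := by rw [K.ad_self, zero_smul]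
  have hQH : ∀ t, c H t ∈ Q := hQc 0 H le_rfl hHH
  have hφc : ∀ (r : ℝ) (X : E) (hr : 0 < r) (hX : (ad E G) H X = r • X) (t : ℝ),
      φ ⟨c X t, hQc r X hr.le hX t⟩ = 1 := fun r X hr hX t =>
    phi_c (E := E) (G := G) K φ hφ H X r hr hX hQH (hQc r X hr.le hX) t
  -- representatives
  have hrep : ∀ (x : G × M) (y : G × M'), h (cls φ ρ x) = cls φ ρ' y → x.1⁻¹ * y.1 ∈ Q := by
    intro x y hxy
    rw [hQ]
    refine hM.fix' _ _ c K hG.2 H hH hqtop (x.1⁻¹ * y.1) ?_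
    intro r X t hr hX
    have hN : IsNilpotent (t • (ad E G) X) := by
      have h1 : (ad E G) (t • X) = t • (ad E G) X := map_smul _ _ _
      rw [← h1]
      refine nilp hM.eig hM.prt hM.brk _ H hH anti jac r hr (t • X) ?_
      rw [map_smul, hX, smul_comm]
    exact rec_step hM.rc hM.pol K q hQ φ Γ hΓ ρ ρ' h hs hh X t hN (hQc r X hr.le hX t)
      (hφc r X hr hX t) x y hxy
  -- the fibre maps
  have hex : ∀ (g : G) (m : M), ∃ m' : M', h (cls φ ρ (g, m)) = cls φ ρ' (g, m') := by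
    intro g m
    obtain ⟨y, hy⟩ := Quotient.exists_rep (h (cls φ ρ (g, m)))
    have hy' : h (cls φ ρ (g, m)) = cls φ ρ' y := hy.symm
    have h1 := hrep _ _ hy'
    refine ⟨ρ'.map (Multiplicative.toAdd (φ ⟨g⁻¹ * y.1, h1⟩)) y.2, ?_⟩
    rw [hy', cls_eq]
    exact ⟨⟨g⁻¹ * y.1, h1⟩, by simp, rfl⟩
  choose κ hκ using hex
  -- local formula
  have hloc : ∀ (x : G × M) (z : G × M') (hz : h (cls φ ρ x) = cls φ ρ' z),
      κ x.1 x.2 = ρ'.map (Multiplicative.toAdd (φ ⟨x.1⁻¹ * z.1, hrep x z hz⟩)) z.2 := by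
    intro x z hz
    have h1 : cls φ ρ' z = cls φ ρ' (x.1, κ x.1 x.2) := by rw [← hz]; exact hκ x.1 x.2
    obtain ⟨p, hp1, hp2⟩ := (cls_eq φ ρ').1 h1
    have h2 : (⟨x.1⁻¹ * z.1, hrep x z hz⟩ : Q) = p := by
      apply Subtype.ext
      have hp1' : x.1 = z.1 * (p : G)⁻¹ := hp1
      show x.1⁻¹ * z.1 = p
      rw [hp1']; group
    rw [h2]
    exact hp2
  -- continuity in the group variable
  have hcont : ∀ m : M, Continuous fun g : G => κ g m := by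
    intro m
    rw [continuous_iff_continuousAt]
    intro g₀
    obtain ⟨W, hW, L, hL, hWL⟩ := hs (g₀, m)
    have hLat : ContMDiffAt (𝓘(ℝ, E).prod 𝓘(ℝ, F)) (𝓘(ℝ, E).prod 𝓘(ℝ, F')) ∞ L (g₀, m) :=
      hL.contMDiffAt hW
    have hpair : ContMDiffAt 𝓘(ℝ, E) (𝓘(ℝ, E).prod 𝓘(ℝ, F)) ∞ (fun g : G => (g, m)) g₀ :=
      contMDiffAt_id.prodMk contMDiffAt_const
    have hLg : ContMDiffAt 𝓘(ℝ, E) (𝓘(ℝ, E).prod 𝓘(ℝ, F')) ∞ (fun g : G => L (g, m)) g₀ :=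
      ContMDiffAt.comp g₀ hLat hpair
    have hL1 : ContMDiffAt 𝓘(ℝ, E) 𝓘(ℝ, E) ∞ (fun g : G => (L (g, m)).1) g₀ :=
      ContMDiffAt.comp g₀ contMDiffAt_fst hLg
    have hL2 : ContMDiffAt 𝓘(ℝ, E) 𝓘(ℝ, F') ∞ (fun g : G => (L (g, m)).2) g₀ :=
      ContMDiffAt.comp g₀ contMDiffAt_snd hLg
    have hf : ContMDiffAt 𝓘(ℝ, E) 𝓘(ℝ, E) ∞ (fun g : G => g⁻¹ * (L (g, m)).1) g₀ :=
      (contMDiffAt_id.inv).mul hL1
    have hev : ∀ᶠ g in 𝓝 g₀, (g, m) ∈ W := by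
      have : Continuous fun z : G => (z, m) := by fun_prop
      exact this.continuousAt.eventually hW
    have hfQ : ∀ᶠ g in 𝓝 g₀, g⁻¹ * (L (g, m)).1 ∈ Q := by
      filter_upwards [hev] with g hg
      exact hrep _ _ (hWL _ hg)
    obtain ⟨ψ, hψ, hψ2⟩ := hM.smo Q hQpar φ hφ E G _ g₀ hf hfQ
    have h1 : (fun g : G => κ g m) =ᶠ[𝓝 g₀] fun g => ρ'.map (ψ g) (L (g, m)).2 := by
      filter_upwards [hev, hψ2] with g hg hg2
      rw [hloc (g, m) (L (g, m)) (hWL _ hg), hg2]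
    refine ContinuousAt.congr ?_ h1.symm
    have h2 : ContinuousAt (fun g : G => (ψ g, (L (g, m)).2)) g₀ :=
      hψ.continuousAt.prodMk hL2.continuousAt
    exact ContinuousAt.comp (g := fun p : ℝ × M' => ρ'.map p.1 p.2)
      ρ'.smooth.continuous.continuousAt h2
  -- invariance
  have hinvΓ : ∀ γ ∈ Γ, ∀ g m, κ (γ * g) m = κ g m := by
    intro γ hγ g m
    have h1 : h (cls φ ρ (γ * g, m)) = cls φ ρ' (γ * g, κ g m) := by
      have h2 := hh γ hγ (cls φ ρ (g, m))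
      rw [act_cls, hκ g m, act_cls] at h2
      exact h2
    have h3 := hκ (γ * g) m
    rw [h1] at h3
    exact (cls_inj φ ρ' _ _ _ h3).symm
  have hinvU : ∀ (r : ℝ) (X : E) (hr : 0 < r) (hX : (ad E G) H X = r • X) (t : ℝ) (g : G) (m : M),
      κ (g * c X t) m = κ g m := by
    intro r X hr hX t g m
    set p : Q := ⟨c X t, hQc r X hr.le hX t⟩ with hp
    have hp1 : φ p = 1 := hφc r X hr hX t
    have hp2 : φ p⁻¹ = 1 := by rw [map_inv, hp1, inv_one]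
    have e : g * c X t = g * ((p⁻¹ : Q) : G)⁻¹ := by simp [hp]
    have h1 : h (cls φ ρ (g * c X t, m)) = cls φ ρ' (g * c X t, κ g m) := by
      rw [e, cls_one φ ρ g m p⁻¹ hp2, cls_one φ ρ' g (κ g m) p⁻¹ hp2]
      exact hκ g m
    have h3 := hκ (g * c X t) m
    rw [h1] at h3
    exact (cls_inj φ ρ' _ _ _ h3).symm
  -- the fibre maps do not depend on the group variable
  have hconst : ∀ g m, κ g m = κ 1 m := by
    intro g m
    by_contra hne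
    obtain ⟨f, hf0, hf1, -⟩ := exists_continuous_zero_one_of_isClosed
      (isClosed_singleton (x := κ g m)) (isClosed_singleton (x := κ 1 m))
      (disjoint_singleton.2 hne)
    have hMau := hM.mau Γ hΓ (fun x => f (κ x m)) (c H 1)
      {u | ∃ r : ℝ, 0 < r ∧ ∃ X : E, (ad E G) H X = r • X ∧ ∃ t : ℝ, u = c X t}
      {u | ∃ r : ℝ, r < 0 ∧ ∃ X : E, (ad E G) H X = r • X ∧ ∃ t : ℝ, u = c X t}
      (f.continuous.comp (hcont m)) ?_ ?_ ?_ ?_ ?_ ?_ g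
    · have e0 : f (κ g m) = 0 := hf0 rfl
      have e1 : f (κ 1 m) = 1 := hf1 rfl
      have : f (κ g m) = f (κ 1 m) := hMau
      rw [e0, e1] at this
      exact zero_ne_one this
    · obtain ⟨C, hC⟩ := (isCompact_range f.continuous).isBounded.exists_norm_le
      exact ⟨C, fun g => hC _ ⟨_, rfl⟩⟩
    · intro γ hγ g
      show f (κ (γ * g) m) = f (κ g m)
      rw [hinvΓ γ hγ]
    · rintro u ⟨r, hr, X, hX, t, rfl⟩ g
      show f (κ (g * c X t) m) = f (κ g m)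
      rw [hinvU r X hr hX]
    · rintro u ⟨r, hr, X, hX, t, rfl⟩ k
      refine ⟨r, hr, X, hX, Real.exp ((k * 1 : ℝ) * r) * t, ?_⟩
      rw [c_pow K, c_conj_eig K H X r hX]
    · rintro v ⟨r, hr, X, hX, t, rfl⟩
      have h1 : ∀ k : ℕ, c H 1 ^ k * c X t * (c H 1 ^ k)⁻¹ = c X (Real.exp ((k * 1 : ℝ) * r) * t) := by
        intro k
        rw [c_pow K, c_conj_eig K H X r hX]
      simp_rw [h1]
      have h2 : Tendsto (fun k : ℕ => Real.exp ((k * 1 : ℝ) * r) * t) atTop (𝓝 0) := by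
        have h3 : Tendsto (fun k : ℕ => ((k : ℝ) * 1) * r) atTop atBot := by
          simp_rw [mul_one]
          exact tendsto_natCast_atTop_atTop.atTop_mul_const_of_neg hr
        have h4 := (Real.tendsto_exp_atBot.comp h3).mul_const t
        simpa using h4
      have h5 := ((K.c_cont X).tendsto 0).comp h2
      rw [K.c_zero] at h5
      exact h5
    · rw [eq_top_iff, ← hM.gen _ _ c K hG.2 H hH hqtop]
      apply Subgroup.closure_mono
      rintro u ⟨r, hr, X, hX, t, rfl⟩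
      rcases lt_or_gt_of_ne hr with h1 | h1
      · exact Or.inr ⟨r, h1, X, hX, t, rfl⟩
      · exact Or.inl ⟨r, h1, X, hX, t, rfl⟩
  -- conclusion
  refine ⟨fun m => κ 1 m, ?_, fun g m => by rw [hκ g m, hconst g m]⟩
  intro m₀
  obtain ⟨W, hW, L, hL, hWL⟩ := hs ((1 : G), m₀)
  have hLat : ContMDiffAt (𝓘(ℝ, E).prod 𝓘(ℝ, F)) (𝓘(ℝ, E).prod 𝓘(ℝ, F')) ∞ L ((1 : G), m₀) :=
    hL.contMDiffAt hW
  have hpair : ContMDiffAt 𝓘(ℝ, F) (𝓘(ℝ, E).prod 𝓘(ℝ, F)) ∞ (fun m : M => ((1 : G), m)) m₀ :=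
    contMDiffAt_const.prodMk contMDiffAt_id
  have hLg : ContMDiffAt 𝓘(ℝ, F) (𝓘(ℝ, E).prod 𝓘(ℝ, F')) ∞ (fun m : M => L ((1 : G), m)) m₀ :=
    ContMDiffAt.comp m₀ hLat hpair
  have hL1 : ContMDiffAt 𝓘(ℝ, F) 𝓘(ℝ, E) ∞ (fun m : M => (L ((1 : G), m)).1) m₀ :=
    ContMDiffAt.comp m₀ contMDiffAt_fst hLg
  have hL2 : ContMDiffAt 𝓘(ℝ, F) 𝓘(ℝ, F') ∞ (fun m : M => (L ((1 : G), m)).2) m₀ :=
    ContMDiffAt.comp m₀ contMDiffAt_snd hLg
  have hev : ∀ᶠ m in 𝓝 m₀, ((1 : G), m) ∈ W := by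
    have : Continuous fun z : M => ((1 : G), z) := by fun_prop
    exact this.continuousAt.eventually hW
  have hfQ : ∀ᶠ m in 𝓝 m₀, (L ((1 : G), m)).1 ∈ Q := by
    filter_upwards [hev] with m hm
    have := hrep _ _ (hWL _ hm)
    simpa using this
  obtain ⟨ψ, hψ, hψ2⟩ := hM.smo Q hQpar φ hφ F M _ m₀ hL1 hfQ
  have h1 : (fun m : M => κ 1 m) =ᶠ[𝓝 m₀] fun m => ρ'.map (ψ m) (L ((1 : G), m)).2 := by
    filter_upwards [hev, hψ2, hfQ] with m hm hm2 hm3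
    rw [hloc ((1 : G), m) (L ((1 : G), m)) (hWL _ hm), hm2 hm3]
    congr 5
    simp
  refine ContMDiffAt.congr_of_eventuallyEq ?_ h1
  have h2 : ContMDiffAt 𝓘(ℝ, F) (𝓘(ℝ, ℝ).prod 𝓘(ℝ, F')) ∞
      (fun m : M => (ψ m, (L ((1 : G), m)).2)) m₀ := hψ.prodMk hL2
  exact ContMDiffAt.comp m₀ (g := fun p : ℝ × M' => ρ'.map p.1 p.2)
    ρ'.smooth.contMDiffAt h2

end Main

end Asm

end Pool.Agent.T6.H55.ST
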