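import Pool.Agent.T6.H55.ST.Asm2

/-!
# Assembly of project ST, third part
-/

set_option autoImplicit false

open scoped Manifold ContDiff Topology
open MeasureTheory Set Filter

namespace Pool.Agent.T6.H55.ST

namespace Asm

open Bas

section Main

variable {E : Type} [NormedAddCommGroup E] [NormedSpace ℝ E] [FiniteDimensional ℝ E]
  {G : Type} [TopologicalSpace G] [ChartedSpace E G] [Group G] [LieGroup 𝓘(ℝ, E) ∞ G] [T2Space G]
  [IsTopologicalGroup G] [SecondCountableTopology G] [ConnectedSpace G]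
  {F : Type} [NormedAddCommGroup F] [NormedSpace ℝ F]
  {M : Type} [TopologicalSpace M] [ChartedSpace F M] [CompactSpace M] [T2Space M]
  {F' : Type} [NormedAddCommGroup F'] [NormedSpace ℝ F']
  {M' : Type} [TopologicalSpace M'] [ChartedSpace F' M'] [CompactSpace M'] [T2Space M']

theorem forward (hM : Mods E G) (hG : SimpleLie E G) (Q : Subgroup G) (hQpar : Parabolic E Q)
    (hQtop : Q ≠ ⊤) (φ : Q →* Multiplicative ℝ) (hφ : Continuous φ)
    (hd : Dense (Set.range fun q : Q => (Multiplicative.toAdd (φ q) : ℝ)))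
    (Γ : Subgroup G) (hΓ : Lattice Γ)
    (ρ : SFlow F M) (ρ' : SFlow F' M') (hconj : LatticeConj E Γ φ ρ ρ') : FlowConj ρ ρ' := by
  obtain ⟨h, hs, hs', hh⟩ := hconj
  have hh' : ∀ γ ∈ Γ, ∀ x, h.symm (act φ ρ' γ x) = act φ ρ γ (h.symm x) := by
    intro γ hγ x
    rw [Equiv.symm_apply_eq, hh γ hγ, Equiv.apply_symm_apply]
  obtain ⟨k, hk, hk2⟩ := fiber hM hG Q hQpar hQtop φ hφ Γ hΓ ρ ρ' h hs hh
  obtain ⟨k', hk', hk2'⟩ := fiber hM hG Q hQpar hQtop φ hφ Γ hΓ ρ' ρ h.symm hs' hh'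
  have inv1 : ∀ m, k' (k m) = m := by
    intro m
    have h1 := hk2' 1 (k m)
    rw [← hk2 1 m, Equiv.symm_apply_apply] at h1
    exact (cls_inj φ ρ _ _ _ h1).symm
  have inv2 : ∀ m, k (k' m) = m := by
    intro m
    have h1 := hk2 1 (k' m)
    rw [← hk2' 1 m, Equiv.apply_symm_apply] at h1
    exact (cls_inj φ ρ' _ _ _ h1).symm
  refine ⟨⟨⟨k, k', inv1, inv2⟩, hk, hk'⟩, ?_⟩
  intro t m
  show k (ρ.map t m) = ρ'.map t (k m)
  have hq : ∀ q : Q, k (ρ.map (Multiplicative.toAdd (φ q)) m) =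
      ρ'.map (Multiplicative.toAdd (φ q)) (k m) := by
    intro q
    have h1 := hk2 ((1 : G) * (q : G)⁻¹) (ρ.map (Multiplicative.toAdd (φ q)) m)
    rw [cls_q φ ρ 1 m q, hk2 1 m, ← cls_q φ ρ' 1 (k m) q] at h1
    exact (cls_inj φ ρ' _ _ _ h1).symm
  have c1 : Continuous fun s : ℝ => k (ρ.map s m) := by
    have : Continuous fun s : ℝ => ((s, m) : ℝ × M) := by fun_prop
    exact hk.continuous.comp (ρ.smooth.continuous.comp this)
  have c2 : Continuous fun s : ℝ => ρ'.map s (k m) := by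
    have : Continuous fun s : ℝ => ((s, k m) : ℝ × M') := by fun_prop
    exact ρ'.smooth.continuous.comp this
  have h3 : (fun s : ℝ => k (ρ.map s m)) = fun s => ρ'.map s (k m) := by
    refine Continuous.ext_on hd c1 c2 ?_
    rintro _ ⟨q, rfl⟩
    exact hq q
  exact congrFun h3 t

end Main

end Asm

end Pool.Agent.T6.H55.ST
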