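import Pool.Agent.T6.H55.ST.Stm

/-!
# Basic lemmas of project ST
-/

set_option autoImplicit false

open scoped Manifold ContDiff Topology
open MeasureTheory Set Filter

namespace Pool.Agent.T6.H55.ST

namespace Bas

section Basic

variable {E : Type} [NormedAddCommGroup E] [NormedSpace ℝ E] [FiniteDimensional ℝ E]

theorem exp_mem (A : E →L[ℝ] E) (J : Submodule ℝ E) (h : ∀ Y ∈ J, A Y ∈ J) :
    ∀ Y ∈ J, (NormedSpace.exp A : E →L[ℝ] E) Y ∈ J := by
  intro Y hY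
  have hpow : ∀ n : ℕ, ((A ^ n : E →L[ℝ] E)) Y ∈ J := by
    intro n
    induction n with
    | zero => simpa using hY
    | succ n ih =>
      rw [pow_succ']
      exact h _ ih
  have hs : HasSum (fun n : ℕ => ((n.factorial : ℝ)⁻¹ • A ^ n : E →L[ℝ] E)) (NormedSpace.exp A) :=
    NormedSpace.exp_series_hasSum_exp' (𝕂 := ℝ) A
  have hs' : HasSum (fun n : ℕ => (((n.factorial : ℝ)⁻¹ • A ^ n : E →L[ℝ] E)) Y)
      ((NormedSpace.exp A : E →L[ℝ] E) Y) :=
    hs.mapL (ContinuousLinearMap.apply ℝ E Y)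
  have hcl : IsClosed (J : Set E) := J.closed_of_finiteDimensional
  refine hcl.mem_of_tendsto hs' (Eventually.of_forall fun s => ?_)
  refine J.sum_mem fun n _ => ?_
  exact J.smul_mem _ (hpow n)

theorem map_eq_of_le {A A' : E →L[ℝ] E} (h : ∀ Y, A' (A Y) = Y) (J : Submodule ℝ E)
    (hA : ∀ Y ∈ J, A Y ∈ J) : J.map (A : E →ₗ[ℝ] E) = J := by
  have hinj : Function.Injective (A : E →ₗ[ℝ] E) := fun x y hxy => by
    have := congrArg A' hxy
    simpa [h] using this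
  apply Submodule.eq_of_le_of_finrank_eq
  · rintro _ ⟨Y, hY, rfl⟩
    exact hA Y hY
  · exact (LinearEquiv.finrank_eq (Submodule.equivMapOfInjective (A : E →ₗ[ℝ] E) hinj J)).symm

theorem exp_eig (A : E →L[ℝ] E) (X : E) (r : ℝ) (h : A X = r • X) :
    (NormedSpace.exp A : E →L[ℝ] E) X = Real.exp r • X := by
  have hpow : ∀ n : ℕ, ((A ^ n : E →L[ℝ] E)) X = r ^ n • X := by
    intro n
    induction n with
    | zero => simp
    | succ n ih =>
      rw [pow_succ']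
      show A ((A ^ n) X) = _
      rw [ih, map_smul, h, smul_smul, pow_succ]
  have hs : HasSum (fun n : ℕ => ((n.factorial : ℝ)⁻¹ • A ^ n : E →L[ℝ] E)) (NormedSpace.exp A) :=
    NormedSpace.exp_series_hasSum_exp' (𝕂 := ℝ) A
  have hs' : HasSum (fun n : ℕ => (((n.factorial : ℝ)⁻¹ • A ^ n : E →L[ℝ] E)) X)
      ((NormedSpace.exp A : E →L[ℝ] E) X) :=
    hs.mapL (ContinuousLinearMap.apply ℝ E X)
  have hr : HasSum (fun n : ℕ => ((n.factorial : ℝ)⁻¹ • r ^ n : ℝ)) (Real.exp r) := by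
    rw [Real.exp_eq_exp_ℝ]
    exact NormedSpace.exp_series_hasSum_exp' (𝕂 := ℝ) r
  have hr' : HasSum (fun n : ℕ => ((n.factorial : ℝ)⁻¹ • r ^ n : ℝ) • X) (Real.exp r • X) :=
    hr.smul_const X
  refine hs'.unique ?_
  convert hr' using 2 with n
  show ((n.factorial : ℝ)⁻¹ • A ^ n) X = _
  rw [smul_apply, hpow n, smul_smul, smul_eq_mul]

end Basic

section Kit

variable {E : Type} [NormedAddCommGroup E] [NormedSpace ℝ E] [FiniteDimensional ℝ E]
  {G : Type} [TopologicalSpace G] [Group G]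
  {Ad : G → E →L[ℝ] E} {ad : E →L[ℝ] (E →L[ℝ] E)} {c : E → ℝ → G}

theorem Ad_inv_apply (K : IsKit Ad ad c) (g : G) (Y : E) : Ad g⁻¹ (Ad g Y) = Y := by
  have := K.Ad_mul g⁻¹ g
  rw [inv_mul_cancel, K.Ad_one] at this
  have h2 := congrArg (fun A : E →L[ℝ] E => A Y) this
  exact h2.symm

theorem Ad_apply_inv (K : IsKit Ad ad c) (g : G) (Y : E) : Ad g (Ad g⁻¹ Y) = Y := by
  have := Ad_inv_apply K g⁻¹ Y
  rwa [inv_inv] at this

theorem map_Ad_mul (K : IsKit Ad ad c) (g h : G) (J : Submodule ℝ E) :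
    J.map (Ad (g * h) : E →ₗ[ℝ] E) = (J.map (Ad h : E →ₗ[ℝ] E)).map (Ad g : E →ₗ[ℝ] E) := by
  rw [K.Ad_mul, ← Submodule.map_comp]
  rfl

theorem map_Ad_one (K : IsKit Ad ad c) (J : Submodule ℝ E) :
    J.map (Ad 1 : E →ₗ[ℝ] E) = J := by
  rw [K.Ad_one]
  exact Submodule.map_id J

theorem c_inv (K : IsKit Ad ad c) (X : E) (t : ℝ) : (c X t)⁻¹ = c X (-t) := by
  rw [inv_eq_iff_mul_eq_one, ← K.c_add, add_neg_cancel, K.c_zero]

theorem c_pow (K : IsKit Ad ad c) (X : E) (t : ℝ) (n : ℕ) : (c X t) ^ n = c X (n * t) := by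
  induction n with
  | zero => simp [K.c_zero]
  | succ n ih => rw [pow_succ, ih, ← K.c_add]; congr 1; push_cast; ring

theorem c_map_eq (K : IsKit Ad ad c) (J : Submodule ℝ E) (X : E) (h : ∀ Y ∈ J, ad X Y ∈ J)
    (t : ℝ) : J.map (Ad (c X t) : E →ₗ[ℝ] E) = J := by
  apply map_eq_of_le (A' := Ad (c X t)⁻¹) (Ad_inv_apply K _)
  rw [K.Ad_c]
  apply exp_mem
  intro Y hY
  exact J.smul_mem _ (h Y hY)

theorem c_conj_eig (K : IsKit Ad ad c) (H X : E) (r : ℝ) (h : ad H X = r • X) (s t : ℝ) :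
    c H s * c X t * (c H s)⁻¹ = c X (Real.exp (s * r) * t) := by
  rw [K.c_conj, K.Ad_c, exp_eig (s • ad H) X (s * r) (by
    rw [smul_apply, h, smul_smul]), K.c_smul]

theorem mem_of_map (K : IsKit Ad ad c) (J : Submodule ℝ E) (g : G)
    (h : ∀ Y ∈ J, Ad g Y ∈ J) : J.map (Ad g : E →ₗ[ℝ] E) = J :=
  map_eq_of_le (A' := Ad g⁻¹) (Ad_inv_apply K _) J h

end Kit

end Bas

end Pool.Agent.T6.H55.ST
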