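import Mathlib

/-!
# Parabolically induced actions (project ST, MP_7614c4_an)

Definitions.  `G` is a real Lie group in the sense of Mathlib, modelled on the finite dimensional
normed space `E`; its tangent space at `1` is `E` itself.
-/

set_option autoImplicit false

open scoped Manifold ContDiff Topology
open MeasureTheory Set Filter

namespace Pool.Agent.T6.H55.ST

section Lie

variable (E : Type) [NormedAddCommGroup E] [NormedSpace ℝ E]
  {G : Type} [TopologicalSpace G] [ChartedSpace E G] [Group G]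

/-- The adjoint representation: the derivative at `1` of the conjugation by `g`. -/
noncomputable def Ad (g : G) : E →L[ℝ] E :=
  mfderiv 𝓘(ℝ, E) 𝓘(ℝ, E) (fun x : G => g * x * g⁻¹) 1

variable (G)

/-- The derivative at `1` of the adjoint representation; `ad X Y` is the Lie bracket of `X`, `Y`. -/
noncomputable def ad : E →L[ℝ] (E →L[ℝ] E) :=
  mfderiv 𝓘(ℝ, E) 𝓘(ℝ, E →L[ℝ] E) (fun g : G => Ad E g) 1

/-- `G` is a simple Lie group: not commutative, and the adjoint representation is irreducible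
(for connected `G` this says that the Lie algebra is simple). -/
def SimpleLie : Prop :=
  (∃ a b : G, a * b ≠ b * a) ∧
  ∀ W : Submodule ℝ E, (∀ g : G, ∀ X ∈ W, Ad E g X ∈ W) → W = ⊥ ∨ W = ⊤

end Lie

section Alg

variable {E : Type} [NormedAddCommGroup E] [NormedSpace ℝ E]

/-- The sum of the eigenspaces of `ad H` with eigenvalue in `s`. -/
noncomputable def part (ad : E →L[ℝ] (E →L[ℝ] E)) (H : E) (s : Set ℝ) : Submodule ℝ E :=
  ⨆ r ∈ s, Module.End.eigenspace ((ad H : E →L[ℝ] E) : E →ₗ[ℝ] E) r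

/-- `ad H` is diagonalizable over the reals. -/
def Hyp (ad : E →L[ℝ] (E →L[ℝ] E)) (H : E) : Prop := part ad H Set.univ = ⊤

end Alg

section Par

variable (E : Type) [NormedAddCommGroup E] [NormedSpace ℝ E]
  {G : Type} [TopologicalSpace G] [ChartedSpace E G] [Group G]

/-- `Q` is a parabolic subgroup: the normalizer of the sum of the eigenspaces of `ad H` with
nonnegative eigenvalue, where `ad H` is diagonalizable over the reals. -/
def Parabolic (Q : Subgroup G) : Prop :=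
  ∃ H : E, Hyp (ad E G) H ∧
    ∀ g : G, g ∈ Q ↔ (part (ad E G) H (Set.Ici 0)).map (Ad E g : E →ₗ[ℝ] E) =
      part (ad E G) H (Set.Ici 0)

end Par

section Lattice

variable {G : Type} [TopologicalSpace G] [Group G]

/-- `Γ` is a lattice: discrete, with a finite nonzero invariant Borel measure on `G ⧸ Γ`. -/
def Lattice (Γ : Subgroup G) : Prop :=
  DiscreteTopology Γ ∧
  ∃ μ : @Measure (G ⧸ Γ) (borel (G ⧸ Γ)), μ Set.univ ≠ 0 ∧ μ Set.univ ≠ ⊤ ∧
    ∀ (g : G) (s : Set (G ⧸ Γ)), MeasurableSet[borel (G ⧸ Γ)] s →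
      μ ((fun x : G ⧸ Γ => g • x) ⁻¹' s) = μ s

end Lattice

section Flows

/-- A smooth flow: a smooth action of the reals. -/
structure SFlow (F : Type) [NormedAddCommGroup F] [NormedSpace ℝ F]
    (M : Type) [TopologicalSpace M] [ChartedSpace F M] where
  map : ℝ → M → M
  smooth : ContMDiff (𝓘(ℝ, ℝ).prod 𝓘(ℝ, F)) 𝓘(ℝ, F) ∞ (fun p : ℝ × M => map p.1 p.2)
  zero : ∀ m, map 0 m = m
  add : ∀ s t m, map (s + t) m = map s (map t m)

variable {F : Type} [NormedAddCommGroup F] [NormedSpace ℝ F]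
  {M : Type} [TopologicalSpace M] [ChartedSpace F M]
  {F' : Type} [NormedAddCommGroup F'] [NormedSpace ℝ F']
  {M' : Type} [TopologicalSpace M'] [ChartedSpace F' M']

/-- The two flows are conjugate by a diffeomorphism. -/
def FlowConj (ρ : SFlow F M) (ρ' : SFlow F' M') : Prop :=
  ∃ k : Diffeomorph 𝓘(ℝ, F) 𝓘(ℝ, F') M M' ∞, ∀ t m, k (ρ.map t m) = ρ'.map t (k m)

variable {G : Type} [Group G] {Q : Subgroup G}

/-- Points in the same orbit of the action `q (g, m) = (g q⁻¹, ρ (φ q) m)` of `Q` on `G × M`. -/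
def rel (φ : Q →* Multiplicative ℝ) (ρ : SFlow F M) (x y : G × M) : Prop :=
  ∃ q : Q, y.1 = x.1 * (q : G)⁻¹ ∧ y.2 = ρ.map (Multiplicative.toAdd (φ q)) x.2

/-- The orbit relation. -/
def orb (φ : Q →* Multiplicative ℝ) (ρ : SFlow F M) : Setoid (G × M) where
  r := rel φ ρ
  iseqv := by
    refine ⟨fun x => ⟨1, by simp, by simp [ρ.zero]⟩, ?_, ?_⟩
    · rintro x y ⟨q, h1, h2⟩
      refine ⟨q⁻¹, by simp [h1], ?_⟩
      rw [h2, ← ρ.add]
      simp [ρ.zero]
    · rintro x y z ⟨q, h1, h2⟩ ⟨r, h3, h4⟩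
      refine ⟨r * q, by simp [h1, h3, mul_assoc], ?_⟩
      rw [h4, h2, ← ρ.add]
      simp

/-- The space `(G × M) / Q` of the parabolically induced action. -/
def Ind (φ : Q →* Multiplicative ℝ) (ρ : SFlow F M) : Type := Quotient (orb φ ρ)

/-- The class of a point. -/
def cls (φ : Q →* Multiplicative ℝ) (ρ : SFlow F M) (x : G × M) : Ind φ ρ := Quotient.mk (orb φ ρ) x

/-- The action of `G` on `(G × M) / Q`, by left multiplication on the first factor. -/
def act (φ : Q →* Multiplicative ℝ) (ρ : SFlow F M) (g : G) : Ind φ ρ → Ind φ ρ :=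
  Quotient.map' (s₁ := orb φ ρ) (s₂ := orb φ ρ) (fun x => (g * x.1, x.2)) (by
    rintro x y ⟨q, h1, h2⟩
    exact ⟨q, by simp [h1, mul_assoc], h2⟩)

variable (E : Type) [NormedAddCommGroup E] [NormedSpace ℝ E] [TopologicalSpace G]
  [ChartedSpace E G]

/-- A map between the quotients `(G × M) / Q` and `(G × M') / Q` is smooth: locally it lifts to a
smooth map from `G × M` to `G × M'` (both projections are surjective submersions). -/
def SmoothInd (φ : Q →* Multiplicative ℝ) (ρ : SFlow F M) (ρ' : SFlow F' M')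
    (h : Ind φ ρ → Ind φ ρ') : Prop :=
  ∀ x : G × M, ∃ W ∈ 𝓝 x, ∃ L : G × M → G × M',
    ContMDiffOn (𝓘(ℝ, E).prod 𝓘(ℝ, F)) (𝓘(ℝ, E).prod 𝓘(ℝ, F')) ∞ L W ∧
    ∀ y ∈ W, h (cls φ ρ y) = cls φ ρ' (L y)

/-- The restrictions to `Γ` of the two induced actions are conjugate by a diffeomorphism. -/
def LatticeConj (Γ : Subgroup G) (φ : Q →* Multiplicative ℝ) (ρ : SFlow F M) (ρ' : SFlow F' M') :
    Prop :=
  ∃ h : Ind φ ρ ≃ Ind φ ρ', SmoothInd E φ ρ ρ' h ∧ SmoothInd E φ ρ' ρ h.symm ∧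
    ∀ γ ∈ Γ, ∀ x, h (act φ ρ γ x) = act φ ρ' γ (h x)

end Flows

end Pool.Agent.T6.H55.ST
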