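import Pool.Agent.T6.H55.ST.Stm

/-!
# Project ST, module OPS
-/

set_option autoImplicit false

open scoped Manifold ContDiff Topology
open MeasureTheory Set Filter Function Bundle

namespace Pool.Agent.T6.H55.ST.Ops

open Pool.Agent.T6.H55.ST

section Vec

variable {E : Type*} [NormedAddCommGroup E] [NormedSpace ℝ E] [CompleteSpace E]

/-- solutions of autonomous equations are as smooth as the field. -/
theorem ode_smooth {f : E → E} {x : ℝ → E} {t₀ : ℝ} {n : ℕ} (hf : ContDiffAt ℝ n f (x t₀))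
    (hx : ∀ᶠ t in 𝓝 t₀, HasDerivAt x (f (x t)) t) : ContDiffAt ℝ n x t₀ := by
  obtain ⟨u, hu, hfu⟩ := hf.contDiffOn (m := n) le_rfl (by simp)
  have hxc : ContinuousAt x t₀ := hx.self_of_nhds.continuousAt
  have h1 : ∀ᶠ t in 𝓝 t₀, x t ∈ u := hxc.eventually_mem hu
  obtain ⟨δ, hδ, hball⟩ := Metric.eventually_nhds_iff_ball.mp (hx.and h1)
  have hsub : ∀ t ∈ Icc (t₀ - δ / 2) (t₀ + δ / 2), t ∈ Metric.ball t₀ δ := by
    intro t ht
    rw [Metric.mem_ball, Real.dist_eq, abs_lt]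
    constructor <;> linarith [ht.1, ht.2]
  have h2 : ContDiffOn ℝ (n : ℕ∞) x (Icc (t₀ - δ / 2) (t₀ + δ / 2)) := by
    refine ODE.contDiffOn_enat_Icc_of_hasDerivWithinAt (f := fun _ => f) (u := u) ?_ ?_ ?_
    · exact hfu.comp contDiff_snd.contDiffOn (fun p hp => hp.2)
    · intro t ht
      exact (hball t (hsub t ht)).1.hasDerivWithinAt
    · intro t ht
      exact (hball t (hsub t ht)).2
  exact h2.contDiffAt (Icc_mem_nhds (by linarith) (by linarith))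

end Vec

section Man

variable {E : Type*} [NormedAddCommGroup E] [NormedSpace ℝ E] [CompleteSpace E]
  {H : Type*} [TopologicalSpace H] {I : ModelWithCorners ℝ E H}
  {M : Type*} [TopologicalSpace M] [ChartedSpace H M] [IsManifold I 1 M]
  [BoundarylessManifold I M]

/-- integral curves of smooth vector fields are smooth. -/
theorem curve_smooth {v : (x : M) → TangentSpace I x} {γ : ℝ → M} {t₀ : ℝ} {n : ℕ}
    (hv : ContMDiffAt I I.tangent n (fun x ↦ (⟨x, v x⟩ : TangentBundle I M)) (γ t₀))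
    (hγ : IsMIntegralCurveAt γ v t₀) : ContMDiffAt 𝓘(ℝ, ℝ) I n γ t₀ := by
  set v' : E → E := fun x ↦
    tangentCoordChange I ((extChartAt I (γ t₀)).symm x) (γ t₀) ((extChartAt I (γ t₀)).symm x)
      (v ((extChartAt I (γ t₀)).symm x)) with hv'
  rw [contMDiffAt_iff] at hv
  obtain ⟨_, hv⟩ := hv
  have hsm : ContDiffAt ℝ n v' (extChartAt I (γ t₀) (γ t₀)) :=
    (hv.contDiffAt (range_mem_nhds_isInteriorPoint BoundarylessManifold.isInteriorPoint)).snd
  have hsrc : ∀ᶠ t in 𝓝 t₀, γ ⁻¹' (extChartAt I (γ t₀)).source ∈ 𝓝 t := eventually_mem_nhds_iff.mpr <|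
      continuousAt_def.mp hγ.continuousAt _ <| extChartAt_source_mem_nhds (γ t₀)
  have hmem {t} (ht : γ ⁻¹' (extChartAt I (γ t₀)).source ∈ 𝓝 t) :
    γ t ∈ (extChartAt I (γ t₀)).source := mem_preimage.mp <| mem_of_mem_nhds ht
  have hdrv : ∀ᶠ t in 𝓝 t₀,
      HasDerivAt ((extChartAt I (γ t₀)) ∘ γ) (v' (((extChartAt I (γ t₀)) ∘ γ) t)) t := by
    apply (hsrc.and hγ.eventually_hasDerivAt).mono
    rintro t ⟨ht1, ht2⟩
    rw [hv']
    apply ht2.congr_deriv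
    congr <;>
    rw [Function.comp_apply, PartialEquiv.left_inv _ (hmem ht1)]
  rw [contMDiffAt_iff_target]
  refine ⟨hγ.continuousAt, ?_⟩
  rw [contMDiffAt_iff_contDiffAt]
  exact ode_smooth hsm hdrv

end Man

section Gp

variable {E : Type} [NormedAddCommGroup E] [NormedSpace ℝ E]
  {G : Type} [TopologicalSpace G] [ChartedSpace E G] [Group G] [LieGroup 𝓘(ℝ, E) ∞ G]

set_option backward.defeqAttrib.useBackward true in
set_option backward.isDefEq.respectTransparency false in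
/-- invariant vector fields of smooth Lie groups are smooth. -/
theorem field_smooth (v : GroupLieAlgebra 𝓘(ℝ, E) G) :
    ContMDiff 𝓘(ℝ, E) 𝓘(ℝ, E).tangent ∞
      (fun (g : G) ↦ (mulInvariantVectorField v g : TangentBundle 𝓘(ℝ, E) G)) := by
  have M : (∞ : ℕ∞ω) ≠ 0 := by simp
  have : IsManifold 𝓘(ℝ, E) (∞ + 1) G := by
    have h : (∞ : ℕ∞ω) + 1 = ∞ := rfl
    rw [h]
    infer_instance
  let fg : G → TangentBundle 𝓘(ℝ, E) G := fun g ↦ TotalSpace.mk' E g 0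
  have sfg : ContMDiff 𝓘(ℝ, E) 𝓘(ℝ, E).tangent ∞ fg := contMDiff_zeroSection _ _
  let fv : G → TangentBundle 𝓘(ℝ, E) G := fun _ ↦ TotalSpace.mk' E 1 v
  have sfv : ContMDiff 𝓘(ℝ, E) 𝓘(ℝ, E).tangent ∞ fv := contMDiff_const
  let F₁ : G → (TangentBundle 𝓘(ℝ, E) G × TangentBundle 𝓘(ℝ, E) G) := fun g ↦ (fg g, fv g)
  have S₁ : ContMDiff 𝓘(ℝ, E) (𝓘(ℝ, E).tangent.prod 𝓘(ℝ, E).tangent) ∞ F₁ := sfg.prodMk sfv
  let F₂ : (TangentBundle 𝓘(ℝ, E) G × TangentBundle 𝓘(ℝ, E) G) →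
      TangentBundle (𝓘(ℝ, E).prod 𝓘(ℝ, E)) (G × G) :=
    (equivTangentBundleProd 𝓘(ℝ, E) G 𝓘(ℝ, E) G).symm
  have S₂ : ContMDiff (𝓘(ℝ, E).tangent.prod 𝓘(ℝ, E).tangent)
      (𝓘(ℝ, E).prod 𝓘(ℝ, E)).tangent ∞ F₂ := contMDiff_equivTangentBundleProd_symm
  let F₃ : TangentBundle (𝓘(ℝ, E).prod 𝓘(ℝ, E)) (G × G) → TangentBundle 𝓘(ℝ, E) G :=
    tangentMap (𝓘(ℝ, E).prod 𝓘(ℝ, E)) 𝓘(ℝ, E) (fun (p : G × G) ↦ p.1 * p.2)
  have S₃ : ContMDiff (𝓘(ℝ, E).prod 𝓘(ℝ, E)).tangent 𝓘(ℝ, E).tangent ∞ F₃ := by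
    apply ContMDiff.contMDiff_tangentMap _ (m := ∞) (n := ∞) le_rfl
    exact contMDiff_mul 𝓘(ℝ, E) ∞
  let S := (S₃.comp S₂).comp S₁
  convert! S with g
  · simp [F₁, F₂, F₃, fg, fv]
  · simp only [comp_apply, tangentMap, F₃, F₂, F₁, fg, fv]
    rw [mfderiv_prod_eq_add_apply ((contMDiff_mul 𝓘(ℝ, E) ∞).mdifferentiableAt M)]
    simp +instances [mulInvariantVectorField]

/-- left multiplication is differentiable. -/
theorem hasD (a b : G) : ∃ D : E →L[ℝ] E,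
    HasMFDerivAt 𝓘(ℝ, E) 𝓘(ℝ, E) (fun x : G => a * x) b D := by
  have M : (∞ : ℕ∞ω) ≠ 0 := by simp
  exact ⟨_, ((contMDiff_mul_left (I := 𝓘(ℝ, E)) (n := ∞) (a := a)).contMDiffAt.mdifferentiableAt
    M).hasMFDerivAt⟩

/-- the field transforms by the derivative of the translation. -/
theorem field_mul (X : GroupLieAlgebra 𝓘(ℝ, E) G) (g h : G) (D : E →L[ℝ] E)
    (hD : HasMFDerivAt 𝓘(ℝ, E) 𝓘(ℝ, E) (fun x : G => g * x) h D) :
    (mulInvariantVectorField X (g * h) : E) = D (mulInvariantVectorField X h : E) := by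
  obtain ⟨D2, hD2⟩ := hasD (E := E) h (1 : G)
  have hD' : HasMFDerivAt 𝓘(ℝ, E) 𝓘(ℝ, E) (fun x : G => g * x) (h * 1) D := by
    rw [mul_one]; exact hD
  have h1 : HasMFDerivAt 𝓘(ℝ, E) 𝓘(ℝ, E) (fun x : G => g * h * x) 1 (D.comp D2) := by
    have h3 : (fun x : G => g * h * x) = (fun x : G => g * x) ∘ (fun x : G => h * x) := by
      funext x
      simp [mul_assoc]
    rw [h3]
    exact HasMFDerivAt.comp (1 : G) hD' hD2
  have h2 : (mulInvariantVectorField X (g * h) : E) = (D.comp D2) X := by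
    unfold mulInvariantVectorField
    rw [h1.mfderiv]
    rfl
  have h4 : (mulInvariantVectorField X h : E) = D2 X := by
    unfold mulInvariantVectorField
    rw [hD2.mfderiv]
    rfl
  rw [h2, h4]
  rfl

omit [LieGroup 𝓘(ℝ, E) ∞ G] in
/-- the value at the identity. -/
theorem field_one (X : GroupLieAlgebra 𝓘(ℝ, E) G) (g : G) (hg : g = 1) :
    (mulInvariantVectorField X g : E) = X := by
  subst hg
  have h1 : HasMFDerivAt 𝓘(ℝ, E) 𝓘(ℝ, E) (fun x : G => 1 * x) (1 : G)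
      (ContinuousLinearMap.id ℝ E) := by
    have h3 : (fun x : G => 1 * x) = id := by
      funext x
      simp
    rw [h3]
    exact hasMFDerivAt_id (1 : G)
  unfold mulInvariantVectorField
  rw [h1.mfderiv]
  rfl

/-- left translates of integral curves. -/
theorem translate {X : GroupLieAlgebra 𝓘(ℝ, E) G} {γ : ℝ → G} {s : Set ℝ}
    (hγ : IsMIntegralCurveOn γ (mulInvariantVectorField X) s) (g : G) :
    IsMIntegralCurveOn (fun t => g * γ t) (mulInvariantVectorField X) s := by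
  intro t ht
  obtain ⟨D, hD⟩ := hasD (E := E) g (γ t)
  have h1 := hD.comp_hasMFDerivWithinAt t (hγ t ht)
  refine h1.congr_mfderiv ?_
  have h2 := field_mul X g (γ t) D hD
  have h3 : ∀ w w' : E, w' = D w →
      D.comp ((1 : ℝ →L[ℝ] ℝ).smulRight w) = (1 : ℝ →L[ℝ] ℝ).smulRight w' := by
    rintro w w' rfl
    ext
    simp
  exact h3 _ _ h2

end Gp

section Main

variable {E : Type} [NormedAddCommGroup E] [NormedSpace ℝ E] [FiniteDimensional ℝ E]
  {G : Type} [TopologicalSpace G] [ChartedSpace E G] [Group G] [LieGroup 𝓘(ℝ, E) ∞ G] [T2Space G]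

theorem exists_curve (X : GroupLieAlgebra 𝓘(ℝ, E) G) :
    ∃ γ : ℝ → G, γ 0 = 1 ∧ IsMIntegralCurve γ (mulInvariantVectorField X) := by
  have : CompleteSpace E := FiniteDimensional.complete ℝ E
  have : IsManifold 𝓘(ℝ, E) 1 G := IsManifold.of_le (n := ∞) (by exact_mod_cast le_top)
  have hv : ContMDiff 𝓘(ℝ, E) 𝓘(ℝ, E).tangent 1
      (fun (g : G) ↦ (⟨g, mulInvariantVectorField X g⟩ : TangentBundle 𝓘(ℝ, E) G)) :=
    (field_smooth X).of_le (by exact_mod_cast le_top)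
  obtain ⟨γ, h0, hγ⟩ := exists_isMIntegralCurveAt_of_contMDiffAt_boundaryless (t₀ := 0)
    (hv.contMDiffAt (x := (1 : G)))
  obtain ⟨ε, hε, hγ⟩ := isMIntegralCurveAt_iff'.mp hγ
  refine exists_isMIntegralCurve_of_isMIntegralCurveOn hv hε (fun x => ?_) 1
  refine ⟨fun t => x * γ t, by simp [h0], ?_⟩
  have h1 := translate hγ x
  rwa [Real.ball_eq_Ioo, zero_sub, zero_add] at h1

theorem hom {X : GroupLieAlgebra 𝓘(ℝ, E) G} {γ : ℝ → G} (h0 : γ 0 = 1)
    (hγ : IsMIntegralCurve γ (mulInvariantVectorField X)) (s t : ℝ) :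
    γ (s + t) = γ s * γ t := by
  have : CompleteSpace E := FiniteDimensional.complete ℝ E
  have : IsManifold 𝓘(ℝ, E) 1 G := IsManifold.of_le (n := ∞) (by exact_mod_cast le_top)
  have hv : ContMDiff 𝓘(ℝ, E) 𝓘(ℝ, E).tangent 1
      (fun (g : G) ↦ (⟨g, mulInvariantVectorField X g⟩ : TangentBundle 𝓘(ℝ, E) G)) :=
    (field_smooth X).of_le (by exact_mod_cast le_top)
  have h1 : IsMIntegralCurve (fun t => γ s * γ t) (mulInvariantVectorField X) := by
    rw [isMIntegralCurve_iff_isMIntegralCurveOn]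
    exact translate (hγ.isMIntegralCurveOn univ) (γ s)
  have h2 := hγ.comp_add s
  have h3 := isMIntegralCurve_Ioo_eq_of_contMDiff_boundaryless (t₀ := 0) hv h2 h1 (by simp [h0])
  have h4 := congrFun h3 t
  simpa [add_comm] using h4

end Main

theorem ops (E : Type) [NormedAddCommGroup E] [NormedSpace ℝ E] [FiniteDimensional ℝ E]
    (G : Type) [TopologicalSpace G] [ChartedSpace E G] [Group G] [LieGroup 𝓘(ℝ, E) ∞ G]
    [T2Space G] : StmOPS E G := by
  have : CompleteSpace E := FiniteDimensional.complete ℝ E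
  have : IsManifold 𝓘(ℝ, E) 1 G := IsManifold.of_le (n := ∞) (by exact_mod_cast le_top)
  intro X
  obtain ⟨γ, h0, hγ⟩ := exists_curve (G := G) (X : GroupLieAlgebra 𝓘(ℝ, E) G)
  have hom := hom h0 hγ
  refine ⟨γ, ?_, h0, hom, ?_⟩
  · have hsm : ContMDiffAt 𝓘(ℝ, ℝ) 𝓘(ℝ, E) ∞ γ 0 := by
      rw [contMDiffAt_infty]
      intro n
      exact curve_smooth ((field_smooth (X : GroupLieAlgebra 𝓘(ℝ, E) G)).contMDiffAt.of_le
        (by exact_mod_cast le_top)) (hγ.isMIntegralCurveAt 0)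
    intro t₀
    have h1 : γ = fun t => γ t₀ * γ (t - t₀) := by
      funext t
      rw [← hom]
      congr 1
      ring
    rw [h1]
    have h2 : ContMDiffAt 𝓘(ℝ, ℝ) 𝓘(ℝ, ℝ) ∞ (fun t : ℝ => t - t₀) t₀ := by
      rw [contMDiffAt_iff_contDiffAt]
      fun_prop
    have h3 : ContMDiffAt 𝓘(ℝ, ℝ) 𝓘(ℝ, E) ∞ (fun t : ℝ => γ (t - t₀)) t₀ := by
      refine ContMDiffAt.comp t₀ (g := γ) (f := fun t : ℝ => t - t₀) ?_ h2
      rw [sub_self]
      exact hsm
    exact (contMDiff_mul_left (I := 𝓘(ℝ, E)) (n := ∞) (a := γ t₀)).contMDiffAt.comp t₀ h3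
  · rw [(hγ 0).mfderiv]
    have h1 := field_one (E := E) (X : GroupLieAlgebra 𝓘(ℝ, E) G) (γ 0) h0
    change (1 : ℝ) • (mulInvariantVectorField (I := 𝓘(ℝ, E)) (G := G)
      (X : GroupLieAlgebra 𝓘(ℝ, E) G) (γ 0) : E) = X
    rw [one_smul]
    exact h1

end Pool.Agent.T6.H55.ST.Ops
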