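import Pool.Agent.T6.H55.ST.Defs

/-!
# Statements of the modules of project ST
-/

set_option autoImplicit false

open scoped Manifold ContDiff Topology
open MeasureTheory Set Filter

namespace Pool.Agent.T6.H55.ST

section Kit

variable {E : Type} [NormedAddCommGroup E] [NormedSpace ℝ E]
  {G : Type} [TopologicalSpace G] [Group G]

/-- The ordered product of one-parameter subgroups. -/
noncomputable def tau (c : E → ℝ → G) {n : ℕ} (b : Fin n → E) (t : Fin n → ℝ) : G :=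
  (List.ofFn (fun i => c (b i) (t i))).prod

/-- The facts on a Lie group used by the abstract modules: `c X` is the one-parameter subgroup
with direction `X`. -/
structure IsKit (Ad : G → E →L[ℝ] E) (ad : E →L[ℝ] (E →L[ℝ] E)) (c : E → ℝ → G) : Prop where
  c_zero : ∀ X, c X 0 = 1
  c_add : ∀ X s t, c X (s + t) = c X s * c X t
  c_smul : ∀ X r t, c (r • X) t = c X (r * t)
  c_cont : ∀ X, Continuous (c X)
  c_conj : ∀ g X t, g * c X t * g⁻¹ = c (Ad g X) t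
  Ad_one : Ad 1 = ContinuousLinearMap.id ℝ E
  Ad_mul : ∀ g h, Ad (g * h) = (Ad g).comp (Ad h)
  Ad_cont : Continuous Ad
  Ad_c : ∀ X t, Ad (c X t) = NormedSpace.exp (t • ad X)
  ad_Ad : ∀ g X, ad (Ad g X) = (Ad g).comp ((ad X).comp (Ad g⁻¹))
  ad_self : ∀ X, ad X X = 0
  nhd : ∀ (n : ℕ) (b : Module.Basis (Fin n) ℝ E), ∀ O ∈ 𝓝 (0 : Fin n → ℝ),
    {g : G | ∃ t ∈ O, g = tau c b t} ∈ 𝓝 (1 : G)

/-- Irreducibility of the adjoint representation. -/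
def Irr (Ad : G → E →L[ℝ] E) : Prop :=
  ∀ W : Submodule ℝ E, (∀ g : G, ∀ X ∈ W, Ad g X ∈ W) → W = ⊥ ∨ W = ⊤

/-- The Killing form. -/
noncomputable def Kil (ad : E →L[ℝ] (E →L[ℝ] E)) (X Y : E) : ℝ :=
  LinearMap.trace ℝ E (((ad X).comp (ad Y) : E →L[ℝ] E) : E →ₗ[ℝ] E)

/-- A basis of eigenvectors of `ad H`, with increasing eigenvalues. -/
structure Eig (ad : E →L[ℝ] (E →L[ℝ] E)) (H : E) {n : ℕ} (b : Module.Basis (Fin n) ℝ E)
    (l : Fin n → ℝ) : Prop where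
  mono : Monotone l
  eig : ∀ i, ad H (b i) = l i • b i

end Kit

section Abstract

variable (E : Type) [NormedAddCommGroup E] [NormedSpace ℝ E] [FiniteDimensional ℝ E]
  (G : Type) [TopologicalSpace G] [Group G] [IsTopologicalGroup G]

/-- JAC: antisymmetry and Jacobi identity. -/
def StmJAC : Prop :=
  ∀ (Ad : G → E →L[ℝ] E) (ad : E →L[ℝ] (E →L[ℝ] E)) (c : E → ℝ → G), IsKit Ad ad c →
    (∀ X Y, ad X Y = - ad Y X) ∧
    (∀ X Y, ad (ad X Y) = (ad X).comp (ad Y) - (ad Y).comp (ad X))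

/-- AID: subspaces stable under `ad` are stable under `Ad`. -/
def StmAID : Prop :=
  ∀ [ConnectedSpace G] (Ad : G → E →L[ℝ] E) (ad : E →L[ℝ] (E →L[ℝ] E)) (c : E → ℝ → G),
    IsKit Ad ad c → ∀ J : Submodule ℝ E, (∀ X, ∀ Y ∈ J, ad X Y ∈ J) → ∀ g, ∀ Y ∈ J, Ad g Y ∈ J

/-- GEN: the one-parameter subgroups in the directions of the eigenvectors with nonzero eigenvalue
generate the group. -/
def StmGEN : Prop :=
  ∀ [ConnectedSpace G] (Ad : G → E →L[ℝ] E) (ad : E →L[ℝ] (E →L[ℝ] E)) (c : E → ℝ → G),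
    IsKit Ad ad c → Irr Ad → ∀ H : E, Hyp ad H → part ad H (Set.Ici 0) ≠ ⊤ →
    Subgroup.closure {g : G | ∃ r : ℝ, r ≠ 0 ∧ ∃ X : E, ad H X = r • X ∧ ∃ t : ℝ, g = c X t} = ⊤

/-- TRV: transversality. -/
def StmTRV : Prop :=
  ∀ [ConnectedSpace G] (Ad : G → E →L[ℝ] E) (ad : E →L[ℝ] (E →L[ℝ] E)) (c : E → ℝ → G),
    IsKit Ad ad c → ∀ H : E, Hyp ad H → ∀ a : G,
    (∀ (r : ℝ) (X : E) (t : ℝ), 0 < r → ad H X = r • X →
      (part ad H (Set.Ioi 0)).map (Ad (c X t * a) : E →ₗ[ℝ] E) =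
        (part ad H (Set.Ioi 0)).map (Ad a : E →ₗ[ℝ] E)) →
    ∀ Z ∈ part ad H (Set.Ioi 0), Ad a Z ∈ part ad H (Set.Iic 0) → Z = 0

/-- FIX: an element `a` with `a⁻¹ U a ⊆ Q` lies in `Q`. -/
def StmFIX : Prop :=
  ∀ [ConnectedSpace G] (Ad : G → E →L[ℝ] E) (ad : E →L[ℝ] (E →L[ℝ] E)) (c : E → ℝ → G),
    IsKit Ad ad c → Irr Ad → ∀ H : E, Hyp ad H → part ad H (Set.Ici 0) ≠ ⊤ → ∀ a : G,
    (∀ (r : ℝ) (X : E) (t : ℝ), 0 < r → ad H X = r • X →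
      (part ad H (Set.Ici 0)).map (Ad (a⁻¹ * c X t * a) : E →ₗ[ℝ] E) = part ad H (Set.Ici 0)) →
    (part ad H (Set.Ici 0)).map (Ad a : E →ₗ[ℝ] E) = part ad H (Set.Ici 0)

/-- POL: recurrence of a subspace under a unipotent operator. -/
def StmPOL : Prop :=
  ∀ (N : E →L[ℝ] E), IsNilpotent N → ∀ (W : Submodule ℝ E) (T : ℕ → E →L[ℝ] E) (n : ℕ → ℕ),
    Tendsto T atTop (𝓝 (ContinuousLinearMap.id ℝ E)) → Tendsto n atTop atTop →
    (∀ k, W.map (T k : E →ₗ[ℝ] E) = W.map ((NormedSpace.exp ((n k : ℝ) • N) : E →L[ℝ] E) : E →ₗ[ℝ] E)) →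
    W.map ((NormedSpace.exp N : E →L[ℝ] E) : E →ₗ[ℝ] E) = W

end Abstract

section AlgOnly

variable (E : Type) [NormedAddCommGroup E] [NormedSpace ℝ E] [FiniteDimensional ℝ E]

/-- EIG: an ordered basis of eigenvectors. -/
def StmEIG : Prop :=
  ∀ (ad : E →L[ℝ] (E →L[ℝ] E)) (H : E), Hyp ad H →
    ∃ (n : ℕ) (b : Module.Basis (Fin n) ℝ E) (l : Fin n → ℝ), Eig ad H b l

/-- PRT: the parts in terms of the basis. -/
def StmPRT : Prop :=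
  ∀ (ad : E →L[ℝ] (E →L[ℝ] E)) (H : E) (n : ℕ) (b : Module.Basis (Fin n) ℝ E) (l : Fin n → ℝ),
    Eig ad H b l →
    (∀ s : Set ℝ, part ad H s = Submodule.span ℝ (b '' {i | l i ∈ s})) ∧
    (∀ (s : Set ℝ) (X : E), X ∈ part ad H s ↔ ∀ i, l i ∉ s → b.repr X i = 0) ∧
    (∀ (r : ℝ) (X : E), X ∈ part ad H {r} ↔ ad H X = r • X)

/-- BRK: brackets of parts. -/
def StmBRK : Prop :=
  ∀ (ad : E →L[ℝ] (E →L[ℝ] E)) (H : E), Hyp ad H → (∀ X Y, ad X Y = - ad Y X) →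
    (∀ X Y, ad (ad X Y) = (ad X).comp (ad Y) - (ad Y).comp (ad X)) →
    ∀ (s t w : Set ℝ), (∀ x ∈ s, ∀ y ∈ t, x + y ∈ w) →
      ∀ X ∈ part ad H s, ∀ Y ∈ part ad H t, ad X Y ∈ part ad H w

/-- KIL: the Killing form and the parts. -/
def StmKIL : Prop :=
  ∀ (ad : E →L[ℝ] (E →L[ℝ] E)) (H : E), Hyp ad H → (∀ X Y, ad X Y = - ad Y X) →
    (∀ X Y, ad (ad X Y) = (ad X).comp (ad Y) - (ad Y).comp (ad X)) →
    (∀ s t : Set ℝ, (∀ x ∈ s, ∀ y ∈ t, x + y ≠ 0) →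
      ∀ X ∈ part ad H s, ∀ Y ∈ part ad H t, Kil ad X Y = 0) ∧
    ((∀ X, (∀ Y, Kil ad X Y = 0) → X = 0) →
      ∀ (s : Set ℝ) (X : E), (∀ Y ∈ part ad H s, Kil ad X Y = 0) ↔
        X ∈ part ad H {r | -r ∉ s}) ∧
    (Kil ad H H = 0 → part ad H {0} = ⊤)

/-- ALG: the Lie algebra part of FIX.  `A` is an automorphism, `V = A (part (Ioi 0))`. -/
def StmALG : Prop :=
  ∀ (ad : E →L[ℝ] (E →L[ℝ] E)) (H : E), Hyp ad H → (∀ X Y, ad X Y = - ad Y X) →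
    (∀ X Y, ad (ad X Y) = (ad X).comp (ad Y) - (ad Y).comp (ad X)) →
    (∀ X, (∀ Y, Kil ad X Y = 0) → X = 0) →
    ∀ A A' : E →L[ℝ] E, A.comp A' = ContinuousLinearMap.id ℝ E →
      A'.comp A = ContinuousLinearMap.id ℝ E → (∀ X, ad (A X) = A.comp ((ad X).comp A')) →
      (∀ X ∈ part ad H (Set.Ioi 0), ∀ Y ∈ part ad H (Set.Ici 0),
        A' (ad X (A Y)) ∈ part ad H (Set.Ici 0)) →
      (∀ Z ∈ part ad H (Set.Ioi 0), A Z ∈ part ad H (Set.Iic 0) → Z = 0) →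
      (part ad H (Set.Ici 0)).map (A : E →ₗ[ℝ] E) = part ad H (Set.Ici 0)

end AlgOnly

section Top

variable (G : Type) [TopologicalSpace G] [Group G] [IsTopologicalGroup G]

/-- UCN: unique continuation for finite dimensional representations of connected groups. -/
def StmUCN : Prop :=
  ∀ [ConnectedSpace G] (W : Type) [AddCommGroup W] [Module ℝ W] [FiniteDimensional ℝ W]
    (π : G →* Module.End ℝ W) (w : W) (ξ : Module.Dual ℝ W),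
    (∀ᶠ g in 𝓝 (1 : G), ξ (π g w) = 0) → ∀ g, ξ (π g w) = 0

/-- REC: recurrence. -/
def StmREC : Prop :=
  ∀ [T2Space G] [SecondCountableTopology G] (Γ : Subgroup G), Lattice Γ → ∀ u : G,
    Dense {g : G | ∀ O ∈ 𝓝 g, ∀ n₀ : ℕ, ∃ n, n₀ ≤ n ∧ ∃ γ ∈ Γ, γ * g * (u ^ n)⁻¹ ∈ O}

/-- MAU: the Mautner phenomenon. -/
def StmMAU : Prop :=
  ∀ [T2Space G] [SecondCountableTopology G] (Γ : Subgroup G), Lattice Γ →
    ∀ (F : G → ℝ) (a : G) (U V : Set G), Continuous F → (∃ C, ∀ g, |F g| ≤ C) →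
    (∀ γ ∈ Γ, ∀ g, F (γ * g) = F g) →
    (∀ u ∈ U, ∀ g, F (g * u) = F g) → (∀ u ∈ U, ∀ n : ℕ, a ^ n * u * (a ^ n)⁻¹ ∈ U) →
    (∀ v ∈ V, Tendsto (fun n : ℕ => a ^ n * v * (a ^ n)⁻¹) atTop (𝓝 1)) →
    Subgroup.closure (U ∪ V) = ⊤ → ∀ g, F g = F 1

end Top

section LieGp

variable (E : Type) [NormedAddCommGroup E] [NormedSpace ℝ E] [FiniteDimensional ℝ E]
  (G : Type) [TopologicalSpace G] [ChartedSpace E G] [Group G] [LieGroup 𝓘(ℝ, E) ∞ G] [T2Space G]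

/-- A smooth one-parameter subgroup with direction `X`. -/
def OnePar (X : E) (γ : ℝ → G) : Prop :=
  ContMDiff 𝓘(ℝ, ℝ) 𝓘(ℝ, E) ∞ γ ∧ γ 0 = 1 ∧ (∀ s t, γ (s + t) = γ s * γ t) ∧
    (mfderiv 𝓘(ℝ, ℝ) 𝓘(ℝ, E) γ 0 : ℝ →L[ℝ] E) 1 = X

/-- OPS: existence of one-parameter subgroups. -/
def StmOPS : Prop := ∀ X : E, ∃ γ : ℝ → G, OnePar E G X γ

/-- UNI: uniqueness of one-parameter subgroups. -/
def StmUNI : Prop := ∀ (X : E) (γ δ : ℝ → G), OnePar E G X γ → OnePar E G X δ → γ = δ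

/-- ADS: the adjoint representation is smooth and multiplicative. -/
def StmADS : Prop :=
  ContMDiff 𝓘(ℝ, E) 𝓘(ℝ, E →L[ℝ] E) ∞ (fun g : G => Ad E g) ∧
  Ad E (1 : G) = ContinuousLinearMap.id ℝ E ∧
  ∀ g h : G, Ad E (g * h) = (Ad E g).comp (Ad E h)

/-- ADC: the adjoint representation on one-parameter subgroups. -/
def StmADC : Prop :=
  (∀ (X : E) (γ : ℝ → G), OnePar E G X γ → ∀ g : G, OnePar E G (Ad E g X) (fun t => g * γ t * g⁻¹)) ∧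
  (∀ (X : E) (γ : ℝ → G), OnePar E G X γ → ∀ r : ℝ, OnePar E G (r • X) (fun t => γ (r * t))) ∧
  (∀ (X : E) (γ : ℝ → G), OnePar E G X γ → ∀ t : ℝ, Ad E (γ t) = NormedSpace.exp (t • ad E G X))

/-- COO: local coordinates by products of one-parameter subgroups. -/
def StmCOO : Prop :=
  ∀ (c : E → ℝ → G), (∀ X, OnePar E G X (c X)) → ∀ (n : ℕ) (b : Module.Basis (Fin n) ℝ E),
    ∃ t : G → (Fin n → ℝ), ContMDiffAt 𝓘(ℝ, E) 𝓘(ℝ, Fin n → ℝ) ∞ t 1 ∧ t 1 = 0 ∧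
      ∀ᶠ g in 𝓝 (1 : G), tau c b (t g) = g

/-- KIT: the kit of a Lie group. -/
def StmKIT : Prop :=
  ∃ c : E → ℝ → G, (∀ X, OnePar E G X (c X)) ∧ IsKit (fun g : G => Ad E g) (ad E G) c

/-- SMO: a continuous homomorphism from a parabolic subgroup to the reals is smooth, in the sense
that its composition with smooth maps to `G` with values in `Q` is smooth. -/
def StmSMO : Prop :=
  ∀ (Q : Subgroup G), Parabolic E Q → ∀ (φ : Q →* Multiplicative ℝ), Continuous φ →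
    ∀ (F : Type) [NormedAddCommGroup F] [NormedSpace ℝ F] (M : Type) [TopologicalSpace M]
      [ChartedSpace F M] (f : M → G) (m₀ : M), ContMDiffAt 𝓘(ℝ, F) 𝓘(ℝ, E) ∞ f m₀ →
      (∀ᶠ m in 𝓝 m₀, f m ∈ Q) →
      ∃ ψ : M → ℝ, ContMDiffAt 𝓘(ℝ, F) 𝓘(ℝ, ℝ) ∞ ψ m₀ ∧
        ∀ᶠ m in 𝓝 m₀, ∀ h : f m ∈ Q, ψ m = Multiplicative.toAdd (φ ⟨f m, h⟩)

/-- CEX: the converse. -/
def StmCEX : Prop :=
  ∀ (Γ Q : Subgroup G) (φ : Q →* Multiplicative ℝ),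
    ¬ Dense (Set.range fun q : Q => (Multiplicative.toAdd (φ q) : ℝ)) →
    ∃ ρ ρ' : SFlow (EuclideanSpace ℝ (Fin 1)) Circle,
      LatticeConj E Γ φ ρ ρ' ∧ ¬ FlowConj ρ ρ'

end LieGp

end Pool.Agent.T6.H55.ST
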